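import Pool.Agent.Lib.MP_29e17e_pr.V.Lt

namespace Pool.Agent.PERC29
end Pool.Agent.PERC29
namespace Pool.Agent.PERC29.AE
end Pool.Agent.PERC29.AE

set_option autoImplicit false
set_option linter.unusedSectionVars false

/-! Sums over the torus (compare V/Lt.lean). `td` is the distance in the maximum norm. -/

open Finset

namespace Pool.Agent.PERC29.OB

open Pool.Agent.PERC29 Pool.Agent.PERC29.AE

variable {d N : ℕ} [NeZero N]

/-- The distance on the torus, in the maximum norm. -/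
def td (x y : Fin d → ZMod N) : ℕ := Finset.univ.sup (fun i => (x i - y i).valMinAbs.natAbs)

/-- The function `(1 + n)^(-k)` of the distance. -/
noncomputable def tk (k : ℕ) (x y : Fin d → ZMod N) : ℝ := 1 / (1 + (td x y : ℝ)) ^ k

lemma td_le (x y : Fin d → ZMod N) (i : Fin d) : (x i - y i).valMinAbs.natAbs ≤ td x y :=
  Finset.le_sup (f := fun i => (x i - y i).valMinAbs.natAbs) (Finset.mem_univ i)

lemma td_symm (x y : Fin d → ZMod N) : td x y = td y x := by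
  unfold td
  refine Finset.sup_congr rfl fun i _ => ?_
  rw [← neg_sub, ZMod.natAbs_valMinAbs_neg]

lemma td_tri (x y z : Fin d → ZMod N) : td x z ≤ td x y + td y z := by
  unfold td
  refine Finset.sup_le fun i _ => ?_
  have h1 := td_le x y i
  have h2 := td_le y z i
  unfold td at h1 h2
  have h3 : x i - z i = (x i - y i) + (y i - z i) := by ring
  rw [h3]
  have h4 := ZMod.natAbs_valMinAbs_add_le (x i - y i) (y i - z i)
  have h5 := Int.natAbs_add_le (x i - y i).valMinAbs (y i - z i).valMinAbs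
  omega

lemma td_lt (x y : Fin d → ZMod N) (hl : 1 ≤ N) : td x y < N := by
  unfold td
  rw [Finset.sup_lt_iff (by rw [bot_eq_zero]; omega)]
  intro i _
  have := ZMod.natAbs_valMinAbs_le (x i - y i)
  have : N / 2 < N := Nat.div_lt_self (by omega) (by norm_num)
  omega

private lemma t_one (a : ZMod N) (k : ℕ) :
    (Finset.univ.filter (fun v : ZMod N => (a - v).valMinAbs.natAbs = k)).card ≤ 2 := by
  classical
  have h : Set.InjOn (fun v : ZMod N => (a - v).valMinAbs)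
      (Finset.univ.filter (fun v : ZMod N => (a - v).valMinAbs.natAbs = k) : Finset (ZMod N)) := by
    intro v _ v' _ hv
    have := ZMod.injective_valMinAbs hv
    exact sub_right_injective this
  rw [← Finset.card_image_of_injOn h]
  refine (Finset.card_le_card (t := {(k : ℤ), -(k : ℤ)}) ?_).trans Finset.card_le_two
  intro c hc
  obtain ⟨v, hv, rfl⟩ := Finset.mem_image.1 hc
  have := (Finset.mem_filter.1 hv).2
  rw [Finset.mem_insert, Finset.mem_singleton]
  omega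

private lemma t_many (a : ZMod N) (k : ℕ) :
    (Finset.univ.filter (fun v : ZMod N => (a - v).valMinAbs.natAbs ≤ k)).card ≤ 2 * k + 1 := by
  classical
  have h : Set.InjOn (fun v : ZMod N => (a - v).valMinAbs)
      (Finset.univ.filter (fun v : ZMod N => (a - v).valMinAbs.natAbs ≤ k) : Finset (ZMod N)) := by
    intro v _ v' _ hv
    have := ZMod.injective_valMinAbs hv
    exact sub_right_injective this
  rw [← Finset.card_image_of_injOn h]
  refine (Finset.card_le_card (t := Finset.Icc (-(k : ℤ)) (k : ℤ)) ?_).trans ?_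
  · intro c hc
    obtain ⟨v, hv, rfl⟩ := Finset.mem_image.1 hc
    have := (Finset.mem_filter.1 hv).2
    rw [Finset.mem_Icc]
    omega
  · rw [Int.card_Icc]
    omega

lemma t_shell (hd : 1 ≤ d) (x : Fin d → ZMod N) (k : ℕ) :
    (Finset.univ.filter (fun y => td x y = k)).card ≤ d * 2 ^ d * (k + 1) ^ (d - 1) := by
  classical
  have : Nonempty (Fin d) := ⟨⟨0, hd⟩⟩
  set S : Fin d → Finset (Fin d → ZMod N) := fun i => Fintype.piFinset (fun j =>
    if j = i then Finset.univ.filter (fun v : ZMod N => (x j - v).valMinAbs.natAbs = k)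
    else Finset.univ.filter (fun v : ZMod N => (x j - v).valMinAbs.natAbs ≤ k)) with hS
  have hsub : Finset.univ.filter (fun y => td x y = k) ⊆ Finset.univ.biUnion S := by
    intro y hy
    rw [Finset.mem_filter] at hy
    obtain ⟨i, -, hi⟩ := Finset.exists_mem_eq_sup (Finset.univ : Finset (Fin d))
      Finset.univ_nonempty (fun i => (x i - y i).valMinAbs.natAbs)
    rw [Finset.mem_biUnion]
    refine ⟨i, Finset.mem_univ i, ?_⟩
    rw [hS, Fintype.mem_piFinset]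
    intro j
    by_cases hji : j = i
    · rw [if_pos hji, Finset.mem_filter]
      refine ⟨Finset.mem_univ _, ?_⟩
      rw [hji]
      have h1 : td x y = (x i - y i).valMinAbs.natAbs := hi
      rw [← h1]
      exact hy.2
    · rw [if_neg hji, Finset.mem_filter]
      refine ⟨Finset.mem_univ _, ?_⟩
      have h1 := td_le x y j
      rw [hy.2] at h1
      exact h1
  have hcard : ∀ i ∈ (Finset.univ : Finset (Fin d)), (S i).card ≤ 2 * (2 * k + 1) ^ (d - 1) := by
    intro i _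
    rw [hS, Fintype.card_piFinset, ← Finset.mul_prod_erase _ _ (Finset.mem_univ i)]
    rw [if_pos rfl]
    refine Nat.mul_le_mul (t_one (x i) k) ?_
    have h1 : (Finset.univ.erase i : Finset (Fin d)).card = d - 1 := by
      rw [Finset.card_erase_of_mem (Finset.mem_univ i), Finset.card_univ, Fintype.card_fin]
    rw [← h1]
    refine Finset.prod_le_pow_card _ _ _ fun j hj => ?_
    rw [if_neg (Finset.ne_of_mem_erase hj)]
    exact t_many (x j) k
  calc (Finset.univ.filter (fun y => td x y = k)).card ≤ (Finset.univ.biUnion S).card :=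
        Finset.card_le_card hsub
    _ ≤ (Finset.univ : Finset (Fin d)).card * (2 * (2 * k + 1) ^ (d - 1)) :=
        Finset.card_biUnion_le_card_mul _ _ _ hcard
    _ = d * (2 * (2 * k + 1) ^ (d - 1)) := by rw [Finset.card_univ, Fintype.card_fin]
    _ ≤ d * (2 * (2 * (k + 1)) ^ (d - 1)) := by
        refine Nat.mul_le_mul_left _ (Nat.mul_le_mul_left _ (Nat.pow_le_pow_left ?_ _))
        omega
    _ = d * 2 ^ d * (k + 1) ^ (d - 1) := by
        obtain ⟨e, rfl⟩ : ∃ e, d = e + 1 := ⟨d - 1, by omega⟩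
        rw [Nat.add_sub_cancel, mul_pow, pow_succ]
        ring

lemma t_shell_sum (hd : 1 ≤ d) (x : Fin d → ZMod N) (φ : ℕ → ℝ) (hφ : ∀ k, 0 ≤ φ k) :
    ∑ y, φ (td x y) ≤ (d * 2 ^ d : ℝ) * ∑ k ∈ Finset.range N, ((k : ℝ) + 1) ^ (d - 1) * φ k := by
  classical
  have hl : 1 ≤ N := Nat.one_le_iff_ne_zero.2 (NeZero.ne N)
  rw [← Finset.sum_fiberwise_of_maps_to (s := Finset.univ) (t := Finset.range N)
    (g := fun y => td x y) (fun y _ => Finset.mem_range.2 (td_lt x y hl)), Finset.mul_sum]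
  refine Finset.sum_le_sum fun k _ => ?_
  have h1 : ∑ y ∈ Finset.univ.filter (fun y => td x y = k), φ (td x y) =
      ((Finset.univ.filter (fun y => td x y = k)).card : ℝ) * φ k := by
    rw [Finset.sum_congr rfl (fun y hy => by rw [(Finset.mem_filter.1 hy).2]), Finset.sum_const,
      nsmul_eq_mul]
  rw [h1, ← mul_assoc]
  refine mul_le_mul_of_nonneg_right ?_ (hφ k)
  exact_mod_cast t_shell hd x k

lemma t_sum_f (hd : 2 ≤ d) (x : Fin d → ZMod N) :
    ∑ y, tk (d - 2) x y ≤ (d * 2 ^ d : ℝ) * (N : ℝ) ^ 2 := by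
  have h1 := t_shell_sum (by omega : 1 ≤ d) x (fun k => 1 / (1 + (k : ℝ)) ^ (d - 2))
    (fun k => by positivity)
  refine h1.trans (mul_le_mul_of_nonneg_left ?_ (by positivity))
  calc ∑ k ∈ Finset.range N, ((k : ℝ) + 1) ^ (d - 1) * (1 / (1 + (k : ℝ)) ^ (d - 2))
      ≤ ∑ _k ∈ Finset.range N, (N : ℝ) := by
        refine Finset.sum_le_sum fun k hk => ?_
        have hk1 : (k : ℝ) + 1 ≤ N := by exact_mod_cast Finset.mem_range.mp hk
        have hk0 : (0 : ℝ) < (k : ℝ) + 1 := by positivity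
        have h2 : d - 1 = (d - 2) + 1 := by omega
        rw [h2, pow_succ, add_comm (1 : ℝ) (k : ℝ)]
        have h3 : ((k : ℝ) + 1) ^ (d - 2) ≠ 0 := by positivity
        field_simp
        linarith
    _ = (N : ℝ) ^ 2 := by rw [Finset.sum_const, Finset.card_range, nsmul_eq_mul]; ring

lemma t_near_f (hd : 2 ≤ d) (x : Fin d → ZMod N) (R : ℕ) :
    ∑ z, (if 1 + td x z ≤ 2 * R then tk (d - 2) x z else 0) ≤ (d * 2 ^ d : ℝ) * (4 * (R : ℝ) ^ 2) := by
  have h := t_shell_sum (by omega : 1 ≤ d) x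
    (fun k => if 1 + k ≤ 2 * R then 1 / (1 + (k : ℝ)) ^ (d - 2) else 0) (fun k => by
      split_ifs
      · positivity
      · exact le_rfl)
  refine le_trans (le_of_eq rfl) (h.trans ?_)
  refine mul_le_mul_of_nonneg_left ?_ (by positivity)
  have h1 : ∀ k ∈ Finset.range N, ((k : ℝ) + 1) ^ (d - 1) *
      (if 1 + k ≤ 2 * R then 1 / (1 + (k : ℝ)) ^ (d - 2) else 0) ≤
      if k ∈ Finset.range (2 * R) then 2 * (R : ℝ) else 0 := by
    intro k _
    by_cases hk : 1 + k ≤ 2 * R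
    · rw [if_pos hk, if_pos (Finset.mem_range.mpr (by omega))]
      have h2 : ((k : ℝ) + 1) ^ (d - 1) * (1 / (1 + (k : ℝ)) ^ (d - 2)) = (k : ℝ) + 1 := by
        have h3 : d - 1 = (d - 2) + 1 := by omega
        have h4 : (1 + (k : ℝ)) ≠ 0 := by positivity
        rw [h3, pow_succ, add_comm (k : ℝ) 1]
        field_simp
      rw [h2]
      have h5 : ((1 + k : ℕ) : ℝ) ≤ ((2 * R : ℕ) : ℝ) := by exact_mod_cast hk
      push_cast at h5
      linarith
    · rw [if_neg hk, if_neg (fun h6 => hk (by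
        have := Finset.mem_range.mp h6
        omega)), mul_zero]
  refine (Finset.sum_le_sum h1).trans ?_
  rw [← Finset.sum_filter]
  rw [Finset.sum_const, nsmul_eq_mul]
  have h7 : (((Finset.range N).filter (fun k => k ∈ Finset.range (2 * R))).card : ℝ) ≤ 2 * R := by
    have h8 : ((Finset.range N).filter (fun k => k ∈ Finset.range (2 * R))).card ≤
        (Finset.range (2 * R)).card := Finset.card_le_card (fun k hk => (Finset.mem_filter.mp hk).2)
    rw [Finset.card_range] at h8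
    calc (((Finset.range N).filter (fun k => k ∈ Finset.range (2 * R))).card : ℝ) ≤ ((2 * R : ℕ) : ℝ) := by
          exact_mod_cast h8
      _ = 2 * R := by push_cast; ring
  calc _ ≤ (2 * R : ℝ) * (2 * (R : ℝ)) := mul_le_mul_of_nonneg_right h7 (by positivity)
    _ = _ := by ring

lemma t_far_f (hd : 5 ≤ d) (x : Fin d → ZMod N) (R : ℕ) (hR : 1 ≤ R) :
    ∑ z, (if 2 * R < 1 + td x z then tk (d - 2) x z ^ 2 else 0) ≤
      (d * 2 ^ d : ℝ) * (2 / (R : ℝ) ^ (d - 4)) := by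
  have h := t_shell_sum (by omega : 1 ≤ d) x
    (fun k => if 2 * R < 1 + k then (1 / (1 + (k : ℝ)) ^ (d - 2)) ^ 2 else 0) (fun k => by
      split_ifs
      · positivity
      · exact le_rfl)
  refine le_trans (le_of_eq rfl) (h.trans ?_)
  refine mul_le_mul_of_nonneg_left ?_ (by positivity)
  have hR0 : (0 : ℝ) < R := by exact_mod_cast hR
  have h1 : ∀ k ∈ Finset.range N, ((k : ℝ) + 1) ^ (d - 1) *
      (if 2 * R < 1 + k then (1 / (1 + (k : ℝ)) ^ (d - 2)) ^ 2 else 0) ≤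
      if k ∈ Finset.Ico (2 * R) N then (1 / (R : ℝ) ^ (d - 5)) * (1 / ((k : ℝ) + 1) ^ 2) else 0 := by
    intro k hkl
    by_cases hk : 2 * R < 1 + k
    · rw [if_pos hk, if_pos (Finset.mem_Ico.mpr ⟨by omega, Finset.mem_range.mp hkl⟩)]
      have hk0 : (0 : ℝ) < (k : ℝ) + 1 := by positivity
      have h2 : ((k : ℝ) + 1) ^ (d - 1) * (1 / (1 + (k : ℝ)) ^ (d - 2)) ^ 2 =
          1 / ((k : ℝ) + 1) ^ (d - 3) := by
        have h3 : (d - 2) * 2 = (d - 1) + (d - 3) := by omega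
        rw [add_comm 1 (k : ℝ), div_pow, one_pow, ← pow_mul, h3, pow_add]
        field_simp
      rw [h2]
      have h4 : d - 3 = (d - 5) + 2 := by omega
      rw [h4, pow_add, one_div_mul_one_div]
      apply one_div_le_one_div_of_le
      · positivity
      · apply mul_le_mul_of_nonneg_right _ (by positivity)
        apply pow_le_pow_left₀ hR0.le
        have h5 : ((2 * R : ℕ) : ℝ) < ((1 + k : ℕ) : ℝ) := by exact_mod_cast hk
        push_cast at h5
        linarith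
    · rw [if_neg hk, if_neg (fun h6 => hk (by
        have := Finset.mem_Ico.mp h6
        omega)), mul_zero]
  refine (Finset.sum_le_sum h1).trans ?_
  rw [← Finset.sum_filter]
  have h9 : (Finset.range N).filter (fun k => k ∈ Finset.Ico (2 * R) N) ⊆ Finset.Ico (2 * R) N :=
    fun k hk => (Finset.mem_filter.mp hk).2
  refine (Finset.sum_le_sum_of_subset_of_nonneg h9 (fun k _ _ => by positivity)).trans ?_
  rw [← Finset.mul_sum]
  have h10 := tail_two (2 * R) N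
  have h11 : (2 : ℝ) / (((2 * R : ℕ) : ℝ) + 1) ≤ 2 / (R : ℝ) := by
    apply div_le_div_of_nonneg_left (by norm_num) hR0
    push_cast
    linarith
  calc (1 / (R : ℝ) ^ (d - 5)) * ∑ k ∈ Finset.Ico (2 * R) N, 1 / ((k : ℝ) + 1) ^ 2
      ≤ (1 / (R : ℝ) ^ (d - 5)) * (2 / (R : ℝ)) :=
        mul_le_mul_of_nonneg_left (h10.trans h11) (by positivity)
    _ = 2 / (R : ℝ) ^ (d - 4) := by
        have h12 : d - 4 = (d - 5) + 1 := by omega
        rw [h12, pow_succ]
        field_simp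

private lemma F4_inv (e p q : ℕ) (hp : 1 ≤ p) (h : p ≤ 2 * q) :
    1 / (q : ℝ) ^ e ≤ 2 ^ e / (p : ℝ) ^ e := by
  have hq : 1 ≤ q := by omega
  have hp0 : (0 : ℝ) < (p : ℝ) := by exact_mod_cast hp
  have hq0 : (0 : ℝ) < (q : ℝ) := by exact_mod_cast hq
  rw [div_le_div_iff₀ (by positivity) (by positivity), one_mul, ← mul_pow]
  refine pow_le_pow_left₀ hp0.le ?_ e
  exact_mod_cast h

private lemma F4_pt (e a b R : ℕ) (ha : 1 ≤ a) (hb : 1 ≤ b) (hR : 1 ≤ R) (h1 : R + 1 ≤ a + b)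
    (h2 : b + 1 ≤ a + R) (h3 : a + 1 ≤ b + R) :
    1 / (a : ℝ) ^ e * (1 / (b : ℝ) ^ e) ≤
      2 ^ e / (R : ℝ) ^ e * (if a ≤ 2 * R then 1 / (a : ℝ) ^ e else 0) +
      2 ^ e / (R : ℝ) ^ e * (if b ≤ 2 * R then 1 / (b : ℝ) ^ e else 0) +
      2 ^ e * (if 2 * R < a then (1 / (a : ℝ) ^ e) ^ 2 else 0) +
      2 ^ e * (if 2 * R < b then (1 / (b : ℝ) ^ e) ^ 2 else 0) := by
  have ha0 : (0 : ℝ) < (a : ℝ) := by exact_mod_cast ha
  have hb0 : (0 : ℝ) < (b : ℝ) := by exact_mod_cast hb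
  have hR0 : (0 : ℝ) < (R : ℝ) := by exact_mod_cast hR
  have hA : (0 : ℝ) < 1 / (a : ℝ) ^ e := by positivity
  have hB : (0 : ℝ) < 1 / (b : ℝ) ^ e := by positivity
  have hc : (0 : ℝ) < 2 ^ e / (R : ℝ) ^ e := by positivity
  have p1 : (0 : ℝ) ≤ 2 ^ e / (R : ℝ) ^ e * (if a ≤ 2 * R then 1 / (a : ℝ) ^ e else 0) := by
    split_ifs
    · positivity
    · simp
  have p2 : (0 : ℝ) ≤ 2 ^ e / (R : ℝ) ^ e * (if b ≤ 2 * R then 1 / (b : ℝ) ^ e else 0) := by
    split_ifs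
    · positivity
    · simp
  have p3 : (0 : ℝ) ≤ 2 ^ e * (if 2 * R < a then (1 / (a : ℝ) ^ e) ^ 2 else 0) := by
    split_ifs
    · positivity
    · simp
  have p4 : (0 : ℝ) ≤ 2 ^ e * (if 2 * R < b then (1 / (b : ℝ) ^ e) ^ 2 else 0) := by
    split_ifs
    · positivity
    · simp
  by_cases c1 : 2 * R < a
  · have q1 : 1 / (a : ℝ) ^ e * (1 / (b : ℝ) ^ e) ≤
        2 ^ e * (if 2 * R < a then (1 / (a : ℝ) ^ e) ^ 2 else 0) := by
      rw [if_pos c1]
      have q2 := F4_inv e a b ha (by omega)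
      calc 1 / (a : ℝ) ^ e * (1 / (b : ℝ) ^ e) ≤ 1 / (a : ℝ) ^ e * (2 ^ e / (a : ℝ) ^ e) :=
            mul_le_mul_of_nonneg_left q2 hA.le
        _ = 2 ^ e * (1 / (a : ℝ) ^ e) ^ 2 := by ring
    linarith
  by_cases c2 : 2 * R < b
  · have q1 : 1 / (a : ℝ) ^ e * (1 / (b : ℝ) ^ e) ≤
        2 ^ e * (if 2 * R < b then (1 / (b : ℝ) ^ e) ^ 2 else 0) := by
      rw [if_pos c2]
      have q2 := F4_inv e b a hb (by omega)
      calc 1 / (a : ℝ) ^ e * (1 / (b : ℝ) ^ e) ≤ 2 ^ e / (b : ℝ) ^ e * (1 / (b : ℝ) ^ e) :=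
            mul_le_mul_of_nonneg_right q2 hB.le
        _ = 2 ^ e * (1 / (b : ℝ) ^ e) ^ 2 := by ring
    linarith
  by_cases c3 : R ≤ 2 * b
  · have q1 : 1 / (a : ℝ) ^ e * (1 / (b : ℝ) ^ e) ≤
        2 ^ e / (R : ℝ) ^ e * (if a ≤ 2 * R then 1 / (a : ℝ) ^ e else 0) := by
      rw [if_pos (by omega)]
      have q2 := F4_inv e R b hR c3
      calc 1 / (a : ℝ) ^ e * (1 / (b : ℝ) ^ e) ≤ 1 / (a : ℝ) ^ e * (2 ^ e / (R : ℝ) ^ e) :=
            mul_le_mul_of_nonneg_left q2 hA.le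
        _ = 2 ^ e / (R : ℝ) ^ e * (1 / (a : ℝ) ^ e) := by ring
    linarith
  · have q1 : 1 / (a : ℝ) ^ e * (1 / (b : ℝ) ^ e) ≤
        2 ^ e / (R : ℝ) ^ e * (if b ≤ 2 * R then 1 / (b : ℝ) ^ e else 0) := by
      rw [if_pos (by omega)]
      have q2 := F4_inv e R a hR (by omega)
      exact mul_le_mul_of_nonneg_right q2 hB.le
    linarith

lemma t_conv_f (hd : 5 ≤ d) (x y : Fin d → ZMod N) :
    ∑ z, tk (d - 2) x z * tk (d - 2) z y ≤ C4 d * tk (d - 4) x y := by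
  obtain ⟨R, hRd⟩ : ∃ R : ℕ, R = 1 + td x y := ⟨_, rfl⟩
  have hR : 1 ≤ R := by omega
  have hR0 : (0 : ℝ) < (R : ℝ) := by exact_mod_cast hR
  have hpt : ∀ z : Fin d → ZMod N, tk (d - 2) x z * tk (d - 2) z y ≤
      2 ^ (d - 2) / (R : ℝ) ^ (d - 2) * (if 1 + td x z ≤ 2 * R then tk (d - 2) x z else 0) +
      2 ^ (d - 2) / (R : ℝ) ^ (d - 2) * (if 1 + td y z ≤ 2 * R then tk (d - 2) y z else 0) +
      2 ^ (d - 2) * (if 2 * R < 1 + td x z then tk (d - 2) x z ^ 2 else 0) +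
      2 ^ (d - 2) * (if 2 * R < 1 + td y z then tk (d - 2) y z ^ 2 else 0) := by
    intro z
    have t1 := td_tri x z y
    have t2 := td_tri y x z
    have t3 := td_tri x y z
    have s1 := td_symm z y
    have s2 := td_symm y x
    have h := F4_pt (d - 2) (1 + td x z) (1 + td y z) R (by omega) (by omega) hR (by omega)
      (by omega) (by omega)
    unfold tk
    rw [s1]
    push_cast at h
    exact h
  refine (Finset.sum_le_sum (fun z _ => hpt z)).trans ?_
  rw [Finset.sum_add_distrib, Finset.sum_add_distrib, Finset.sum_add_distrib, ← Finset.mul_sum,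
    ← Finset.mul_sum, ← Finset.mul_sum, ← Finset.mul_sum]
  have n1 := t_near_f (by omega : 2 ≤ d) x R
  have n2 := t_near_f (by omega : 2 ≤ d) y R
  have f1 := t_far_f hd x R hR
  have f2 := t_far_f hd y R hR
  have hc : (0 : ℝ) ≤ 2 ^ (d - 2) / (R : ℝ) ^ (d - 2) := by positivity
  have hc2 : (0 : ℝ) ≤ 2 ^ (d - 2) := by positivity
  have hsum := add_le_add (add_le_add (add_le_add (mul_le_mul_of_nonneg_left n1 hc)
    (mul_le_mul_of_nonneg_left n2 hc)) (mul_le_mul_of_nonneg_left f1 hc2))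
    (mul_le_mul_of_nonneg_left f2 hc2)
  refine hsum.trans ?_
  have hfk : tk (d - 4) x y = 1 / (R : ℝ) ^ (d - 4) := by
    unfold tk
    rw [hRd]
    push_cast
    rfl
  have hpow : (R : ℝ) ^ (d - 2) = (R : ℝ) ^ (d - 4) * (R : ℝ) ^ 2 := by
    rw [← pow_add]
    congr 1
    omega
  have hpow2 : (2 : ℝ) ^ d = 2 ^ (d - 2) * 2 ^ 2 := by
    rw [← pow_add]
    congr 1
    omega
  rw [hfk, hpow]
  unfold C4
  have hK : (0 : ℝ) ≤ (d * 2 ^ d : ℝ) := by positivity
  have hRp : (0 : ℝ) < (R : ℝ) ^ (d - 4) := by positivity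
  have e1 : 2 ^ (d - 2) / ((R : ℝ) ^ (d - 4) * (R : ℝ) ^ 2) * ((d * 2 ^ d : ℝ) * (4 * (R : ℝ) ^ 2)) =
      (d * 2 ^ d : ℝ) * (2 ^ (d - 2) * 4) / (R : ℝ) ^ (d - 4) := by
    field_simp
  have e2 : 2 ^ (d - 2) * ((d * 2 ^ d : ℝ) * (2 / (R : ℝ) ^ (d - 4))) =
      (d * 2 ^ d : ℝ) * (2 ^ (d - 2) * 2) / (R : ℝ) ^ (d - 4) := by
    field_simp
  have e3 : (d : ℝ) * 2 ^ d * (2 ^ d * 16) * (1 / (R : ℝ) ^ (d - 4)) =
      (d * 2 ^ d : ℝ) * (2 ^ (d - 2) * 64) / (R : ℝ) ^ (d - 4) := by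
    have : (2 : ℝ) ^ d * 16 = 2 ^ (d - 2) * 64 := by
      rw [hpow2]
      ring
    rw [this]
    ring
  rw [e1, e2, e3, ← add_div, ← add_div, ← add_div, div_le_div_iff_of_pos_right hRp]
  nlinarith [mul_nonneg hK hc2]

lemma t_sq_g (hd : 9 ≤ d) (x : Fin d → ZMod N) (n : ℕ) :
    ∑ y, (if n ≤ td x y then tk (d - 4) x y ^ 2 else 0) ≤ (d * 2 ^ d : ℝ) * (2 / ((n : ℝ) + 1)) := by
  have hφ : ∀ k : ℕ, (0 : ℝ) ≤ (if n ≤ k then (1 / (1 + (k : ℝ)) ^ (d - 4)) ^ 2 else 0) := by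
    intro k
    split_ifs
    · positivity
    · exact le_refl 0
  have h1 := t_shell_sum (by omega) x
    (fun k : ℕ => if n ≤ k then (1 / (1 + (k : ℝ)) ^ (d - 4)) ^ 2 else 0) hφ
  have h0 : ∑ y, (if n ≤ td x y then tk (d - 4) x y ^ 2 else 0) =
      ∑ y, (fun k : ℕ => if n ≤ k then (1 / (1 + (k : ℝ)) ^ (d - 4)) ^ 2 else 0) (td x y) := rfl
  rw [h0]
  refine h1.trans ?_
  apply mul_le_mul_of_nonneg_left _ (by positivity)
  have hterm : ∀ k ∈ Finset.range N,
      ((k : ℝ) + 1) ^ (d - 1) * (if n ≤ k then (1 / (1 + (k : ℝ)) ^ (d - 4)) ^ 2 else 0) ≤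
        (if n ≤ k then 1 / ((k : ℝ) + 1) ^ 2 else 0) := by
    intro k _
    split_ifs with hk
    · have hpos : (0 : ℝ) < (k : ℝ) + 1 := by positivity
      have hone : (1 : ℝ) ≤ (k : ℝ) + 1 := by
        have : (0 : ℝ) ≤ (k : ℝ) := Nat.cast_nonneg k
        linarith
      have e1 : (1 + (k : ℝ)) = (k : ℝ) + 1 := add_comm _ _
      rw [e1, div_pow, one_pow, ← pow_mul]
      have e2 : (d - 4) * 2 = (d - 1) + (d - 7) := by omega
      rw [e2, pow_add]
      have hp1 : (0 : ℝ) < ((k : ℝ) + 1) ^ (d - 1) := by positivity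
      have hp2 : (0 : ℝ) < ((k : ℝ) + 1) ^ (d - 7) := by positivity
      have e3 : ((k : ℝ) + 1) ^ (d - 1) * (1 / (((k : ℝ) + 1) ^ (d - 1) * ((k : ℝ) + 1) ^ (d - 7))) =
          1 / ((k : ℝ) + 1) ^ (d - 7) := by
        field_simp
      rw [e3]
      apply one_div_le_one_div_of_le (by positivity)
      exact pow_le_pow_right₀ hone (by omega)
    · simp
  refine (Finset.sum_le_sum hterm).trans ?_
  rw [← Finset.sum_filter]
  have hf : (Finset.range N).filter (fun k => n ≤ k) = Finset.Ico n N := by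
    ext k
    simp only [Finset.mem_filter, Finset.mem_range, Finset.mem_Ico]
    omega
  rw [hf]
  exact tail_two n N

private lemma F6_half {ι : Type*} (A : Finset ι) (a b : ι → ℝ) (K : ℝ) (hK : 0 ≤ K) (r : ℕ)
    (ha : ∑ i ∈ A, a i ^ 2 ≤ K * (4 / ((r : ℝ) + 1))) (hb : ∑ i ∈ A, b i ^ 2 ≤ K * 2) :
    ∑ i ∈ A, a i * b i ≤ K * (3 / Real.sqrt ((r : ℝ) + 1)) := by
  have hr : (0 : ℝ) < (r : ℝ) + 1 := by positivity
  have hs : 0 < Real.sqrt ((r : ℝ) + 1) := Real.sqrt_pos.2 hr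
  have h1 := Finset.sum_mul_sq_le_sq_mul_sq A a b
  have hb0 : 0 ≤ ∑ i ∈ A, b i ^ 2 := Finset.sum_nonneg fun i _ => sq_nonneg _
  have h2 : (∑ i ∈ A, a i ^ 2) * (∑ i ∈ A, b i ^ 2) ≤ (K * (4 / ((r : ℝ) + 1))) * (K * 2) :=
    mul_le_mul ha hb hb0 (by positivity)
  have h3 : (K * (4 / ((r : ℝ) + 1))) * (K * 2) ≤ (K * (3 / Real.sqrt ((r : ℝ) + 1))) ^ 2 := by
    rw [mul_pow, div_pow, Real.sq_sqrt hr.le]
    have e : K * (4 / ((r : ℝ) + 1)) * (K * 2) = K ^ 2 * (8 / ((r : ℝ) + 1)) := by ring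
    rw [e]
    apply mul_le_mul_of_nonneg_left _ (sq_nonneg K)
    apply div_le_div_of_nonneg_right _ hr.le
    norm_num
  exact (abs_le_of_sq_le_sq' (h1.trans (h2.trans h3)) (by positivity)).2

private lemma F6_fk_nonneg (k : ℕ) (x y : Fin d → ZMod N) : 0 ≤ tk k x y := by
  unfold tk
  positivity

private lemma F6_fk_le (hd : 4 ≤ d) (x y : Fin d → ZMod N) : tk (d - 2) x y ≤ tk (d - 4) x y := by
  unfold tk
  apply one_div_le_one_div_of_le (by positivity)
  apply pow_le_pow_right₀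
  · have : (0 : ℝ) ≤ (td x y : ℝ) := Nat.cast_nonneg _
    linarith
  · omega

private lemma F6_far (hd : 9 ≤ d) (x : Fin d → ZMod N) (r : ℕ) (A : Finset (Fin d → ZMod N))
    (hA : ∀ y ∈ A, r ≤ 2 * td x y) :
    ∑ y ∈ A, tk (d - 4) x y ^ 2 ≤ (d * 2 ^ d : ℝ) * (4 / ((r : ℝ) + 1)) := by
  have h1 : ∑ y ∈ A, tk (d - 4) x y ^ 2 ≤
      ∑ y, (if (r + 1) / 2 ≤ td x y then tk (d - 4) x y ^ 2 else 0) := by
    have h2 : ∑ y ∈ A, tk (d - 4) x y ^ 2 =
        ∑ y ∈ A, (if (r + 1) / 2 ≤ td x y then tk (d - 4) x y ^ 2 else 0) := by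
      refine Finset.sum_congr rfl fun y hy => ?_
      have := hA y hy
      rw [if_pos (by omega)]
    rw [h2]
    refine Finset.sum_le_sum_of_subset_of_nonneg (Finset.subset_univ _) fun y _ _ => ?_
    split_ifs
    · exact sq_nonneg _
    · exact le_refl _
  refine h1.trans ((t_sq_g hd x ((r + 1) / 2)).trans ?_)
  apply mul_le_mul_of_nonneg_left _ (by positivity)
  rw [div_le_div_iff₀ (by positivity) (by positivity)]
  have h3 : r ≤ 2 * ((r + 1) / 2) := by omega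
  have h4 : (r : ℝ) ≤ 2 * (((r + 1) / 2 : ℕ) : ℝ) := by exact_mod_cast h3
  linarith

private lemma F6_all (hd : 9 ≤ d) (x : Fin d → ZMod N) (A : Finset (Fin d → ZMod N)) :
    ∑ y ∈ A, tk (d - 4) x y ^ 2 ≤ (d * 2 ^ d : ℝ) * 2 := by
  have h := t_sq_g hd x 0
  simp only [Nat.zero_le, if_true, Nat.cast_zero, zero_add, div_one] at h
  refine le_trans ?_ h
  exact Finset.sum_le_sum_of_subset_of_nonneg (Finset.subset_univ _) fun y _ _ => sq_nonneg _

lemma t_shift_f (hd : 9 ≤ d) (x : Fin d → ZMod N) (W : Finset (Fin d → ZMod N))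
    (sh : (Fin d → ZMod N) → (Fin d → ZMod N)) (hW : Set.InjOn sh W) (r : ℕ)
    (hr : ∀ u ∈ W, td u (sh u) = r) :
    ∑ u ∈ W, tk (d - 2) x u * tk (d - 4) x (sh u) ≤ (d * 2 ^ d : ℝ) * (6 / Real.sqrt ((r : ℝ) + 1)) := by
  classical
  have hK : (0 : ℝ) ≤ (d * 2 ^ d : ℝ) := by positivity
  have h0 : ∑ u ∈ W, tk (d - 2) x u * tk (d - 4) x (sh u) ≤
      ∑ u ∈ W, tk (d - 4) x u * tk (d - 4) x (sh u) :=
    Finset.sum_le_sum fun u _ =>
      mul_le_mul_of_nonneg_right (F6_fk_le (by omega) x u) (F6_fk_nonneg _ _ _)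
  refine h0.trans ?_
  rw [← Finset.sum_filter_add_sum_filter_not W (fun u => r ≤ 2 * td x u)]
  have hinj : ∀ (Q : (Fin d → ZMod N) → Prop) [DecidablePred Q],
      Set.InjOn sh ((W.filter Q : Finset (Fin d → ZMod N)) : Set (Fin d → ZMod N)) := by
    intro Q _
    exact hW.mono (by exact_mod_cast Finset.filter_subset Q W)
  have hA : ∑ u ∈ W.filter (fun u => r ≤ 2 * td x u), tk (d - 4) x u * tk (d - 4) x (sh u) ≤
      (d * 2 ^ d : ℝ) * (3 / Real.sqrt ((r : ℝ) + 1)) := by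
    refine F6_half _ _ _ _ hK r ?_ ?_
    · exact F6_far hd x r _ fun y hy => (Finset.mem_filter.1 hy).2
    · rw [← Finset.sum_image (f := fun y => tk (d - 4) x y ^ 2) (g := sh) (hinj _)]
      exact F6_all hd x _
  have hB : ∑ u ∈ W.filter (fun u => ¬ r ≤ 2 * td x u), tk (d - 4) x u * tk (d - 4) x (sh u) ≤
      (d * 2 ^ d : ℝ) * (3 / Real.sqrt ((r : ℝ) + 1)) := by
    have hc : ∑ u ∈ W.filter (fun u => ¬ r ≤ 2 * td x u), tk (d - 4) x u * tk (d - 4) x (sh u) =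
        ∑ u ∈ W.filter (fun u => ¬ r ≤ 2 * td x u), tk (d - 4) x (sh u) * tk (d - 4) x u :=
      Finset.sum_congr rfl fun u _ => mul_comm _ _
    rw [hc]
    refine F6_half _ _ _ _ hK r ?_ ?_
    · rw [← Finset.sum_image (f := fun y => tk (d - 4) x y ^ 2) (g := sh) (hinj _)]
      refine F6_far hd x r _ fun y hy => ?_
      obtain ⟨u, hu, rfl⟩ := Finset.mem_image.1 hy
      obtain ⟨hu1, hu2⟩ := Finset.mem_filter.1 hu
      have h1 := hr u hu1
      have h2 := td_tri u x (sh u)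
      have h3 := td_symm u x
      omega
    · exact F6_all hd x _
  have e : (d * 2 ^ d : ℝ) * (6 / Real.sqrt ((r : ℝ) + 1)) =
      (d * 2 ^ d : ℝ) * (3 / Real.sqrt ((r : ℝ) + 1)) + (d * 2 ^ d : ℝ) * (3 / Real.sqrt ((r : ℝ) + 1)) := by
    ring
  rw [e]
  exact add_le_add hA hB

end Pool.Agent.PERC29.OB
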