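import Pool.Agent.Lib.MP_29e17e_pr.V.La
import Pool.Agent.Lib.MP_29e17e_pr.Y.Kd
import Pool.Agent.Lib.MP_29e17e_pr.Y.Ms

namespace Pool.Agent.PERC29
end Pool.Agent.PERC29
namespace Pool.Agent.PERC29.AE
end Pool.Agent.PERC29.AE

set_option autoImplicit false
set_option linter.unusedSectionVars false

/-! Rows 29o-A1 .. 29o-A4, C1: the local theorem with the weaker square diagram, the main component, the mass (a general finite graph). -/

open Finset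

namespace Pool.Agent.PERC29.OB

open Pool.Agent.PERC29 Pool.Agent.PERC29.AE

/-- Row A1 (numbers). `term3` (V/Kc.lean) with `C' = 2 C` and `Qs = C (1 + χ⁴/v)`: the left side is `10/(B κ) (C'^6 + (C'^3/4) C (1 + χ⁴/v) 8 /(η χ))`.. at most
`10/(B κ) (C'^6 + 2 C'^3 C (1/(η χ) + χ³/(η v)))`, and `1/χ ≤ 1/A0`, `χ³/v ≤ 1/A0`, so it is at most `10/(B κ) (C'^6 + 4 C'^3 C/(η A0)) = 10/(B κ) (C'^6 + 2 C'^4/(η A0))`. -/
lemma term3o {C κ η χ v B A0 : ℝ} (hC : 0 < C) (hκ : 0 < κ) (hη : 0 < η) (hχ : 0 < χ) (hv : 0 < v) (hB : 0 < B)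
    (hA0 : 0 < A0) (h1 : A0 ≤ χ) (h2 : A0 * χ ^ 3 ≤ v) :
    v * ((η / χ ^ 2) ^ 3 * (2 * C * χ) ^ 6 + 2 * (η / χ ^ 2) ^ 2 * (2 * C * χ) ^ 3 * (C * (1 + χ ^ 4 / v))) /
      (B * η * χ * (κ * η ^ 2 * v / χ / 10)) ≤ 10 / (B * κ) * ((2 * C) ^ 6 + 2 * (2 * C) ^ 4 / (η * A0)) := by
  have hχ3 : 0 < χ ^ 3 := by positivity
  have k1 : 1 / χ ≤ 1 / A0 := one_div_le_one_div_of_le hA0 h1
  have k2 : χ ^ 3 / v ≤ 1 / A0 := by
    rw [div_le_div_iff₀ hv hA0]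
    linarith
  have e : v * ((η / χ ^ 2) ^ 3 * (2 * C * χ) ^ 6 + 2 * (η / χ ^ 2) ^ 2 * (2 * C * χ) ^ 3 * (C * (1 + χ ^ 4 / v))) /
      (B * η * χ * (κ * η ^ 2 * v / χ / 10)) =
      10 / (B * κ) * ((2 * C) ^ 6 + (2 * C) ^ 4 / η * (1 / χ + χ ^ 3 / v)) := by
    field_simp
  rw [e]
  have f : 2 * (2 * C) ^ 4 / (η * A0) = (2 * C) ^ 4 / η * (1 / A0 + 1 / A0) := by
    field_simp
    ring
  rw [f]
  gcongr

open scoped Classical in
/-- Row A1. Copy of `loc2` (Y/L2.lean) with `choice2 (2 * C)`, `X = 2 C χ`, `Qs = C (1 + χ⁴/|V|)` in `nc2_sum` (all other hypotheses are monotone in `C`: `C χ ≤ 2 C χ`, `C/√k ≤ 2 C/√k`); the only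
change in the seven terms is `q3`, which is `term3o`. -/
theorem loc2o (C c0 a β ρ : ℝ) (hC : 1 ≤ C) (hc0 : 0 < c0) (ha : 0 < a) (hβ : 0 < β) (hρ : 0 < ρ) :
    ∃ a2 ch ck δ A0 : ℝ, 0 < a2 ∧ a2 ≤ a ∧ 0 < ch ∧ 0 < ck ∧ 0 < δ ∧ 1 ≤ A0 ∧
      ∀ (V : Type) [Fintype V] [DecidableEq V] [Nonempty V] (E : Type) [Fintype E] [DecidableEq E]
        (ends : E → Sym2 V) (p χ : ℝ) (sh : V → V) (W : Finset V), 0 ≤ p → p ≤ 1 → A0 ≤ χ →
        A0 * χ ^ 3 ≤ Fintype.card V →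
        (∀ x, Ex p (fun ω => cz ends ω x) ≤ C * χ) →
        (∀ x, ∀ k : ℕ, 1 ≤ k → Ex p (fun ω => if (k : ℝ) ≤ cz ends ω x then (1 : ℝ) else 0) ≤
          C / Real.sqrt k) →
        (∀ x, sqd ends p x ≤ C * (1 + χ ^ 4 / Fintype.card V)) → Set.InjOn sh W →
        (∀ x, ∑ u ∈ W, ∑ w, ta ends p x u * (ta ends p x w * ta ends p (sh u) w) ≤ δ) →
        (∀ u ∈ W, ∀ v ∈ W, c0 * χ / Fintype.card V ≤ ta ends p (sh u) (sh v)) →
        ∀ j : ℕ, (12 * j : ℝ) ≤ ck * Fintype.card V / χ ^ 3 →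
        Ex p (fun ω => if BadN2 ends ω sh W (a2 * χ ^ 2) (a * χ ^ 2) (β * Fintype.card V / χ)
          (ch * χ) (12 * j) then (1 : ℝ) else 0) ≤ ρ := by
  obtain ⟨C', hC'⟩ : ∃ x : ℝ, x = 2 * C := ⟨_, rfl⟩
  have hC1' : 1 ≤ C' := by linarith
  have hCC : C ≤ C' := by linarith
  obtain ⟨η, c, B, a2, C1, C2, δ, A0, hη, hη1, hηa, hc, hB, ha2, ha2a, hC1, hC2, hδ0, hA01, e1, e2, e3,
    e4, e5, e6, e7, e8, e9, e10, e11⟩ := choice2 C' c0 a β ρ hC1' hc0 ha hβ hρ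
  have hC0 : 0 < C' := by linarith
  have hA0 : 0 < A0 := by linarith
  have hκ : 0 < kap c0 a β := by
    unfold kap
    positivity
  refine ⟨a2, c * η, η, δ, A0, ha2, ha2a, by positivity, hη, hδ0, hA01, ?_⟩
  intro V _ _ _ E _ _ ends p χ sh W h0 h1 hχA hvA hX hT hQ hW hδ hτ j hj
  obtain ⟨v, hv⟩ : ∃ v : ℝ, v = (Fintype.card V : ℝ) := ⟨_, rfl⟩
  rw [← hv] at hvA hτ hj ⊢
  simp only [← hv] at hQ
  have hχ1 : 1 ≤ χ := by linarith
  have hχ : 0 < χ := by linarith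
  have hχ3 : 0 < χ ^ 3 := by positivity
  have hv0 : 0 < v := lt_of_lt_of_le (by positivity) hvA
  have hN : A0 ≤ v / χ ^ 3 := by
    rw [le_div_iff₀ hχ3]
    exact hvA
  have hχ2 : 1 ≤ χ ^ 2 := one_le_pow₀ hχ1
  have hAχ2 : A0 ^ 2 ≤ χ ^ 2 := by nlinarith
  obtain ⟨κ, hκd⟩ : ∃ κ : ℝ, κ = kap c0 a β := ⟨_, rfl⟩
  rw [← hκd] at e2 e3 e5 e6 e7 e10 hκ
  have hκv : κ = c0 * a ^ 2 * β ^ 2 / 16 := by rw [hκd]; rfl
  obtain ⟨n1, hn1⟩ : ∃ n : ℕ, n = ⌈C1 * η * v / χ ^ 3⌉₊ := ⟨_, rfl⟩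
  obtain ⟨k, hk⟩ : ∃ n : ℕ, n = ⌈η * v / χ ^ 3⌉₊ := ⟨_, rfl⟩
  obtain ⟨J, hJ⟩ : ∃ n : ℕ, n = ⌈C2 * η * v / χ ^ 2⌉₊ := ⟨_, rfl⟩
  have hn1l : C1 * η * v / χ ^ 3 ≤ (n1 : ℝ) := by rw [hn1]; exact Nat.le_ceil _
  have hn1u : (n1 : ℝ) ≤ C1 * η * v / χ ^ 3 + 1 := by
    rw [hn1]; exact (Nat.ceil_lt_add_one (by positivity)).le
  have hkl : η * v / χ ^ 3 ≤ (k : ℝ) := by rw [hk]; exact Nat.le_ceil _
  have hku : (k : ℝ) ≤ η * v / χ ^ 3 + 1 := by
    rw [hk]; exact (Nat.ceil_lt_add_one (by positivity)).le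
  have hJl : C2 * η * v / χ ^ 2 ≤ (J : ℝ) := by rw [hJ]; exact Nat.le_ceil _
  have hJu : (J : ℝ) ≤ C2 * η * v / χ ^ 2 + 1 := by
    rw [hJ]; exact (Nat.ceil_lt_add_one (by positivity)).le
  have hn11 : 1 ≤ n1 := by
    rw [hn1]
    exact Nat.one_le_ceil_iff.2 (by positivity)
  have hg0 : 0 < η / χ ^ 2 := by positivity
  have hg1 : η / χ ^ 2 ≤ 1 := by
    rw [div_le_one (by positivity)]
    linarith
  have hv2 : 1 / v ≤ η / χ ^ 2 := by
    rw [div_le_div_iff₀ hv0 (by positivity)]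
    have h11 : 1 ≤ A0 * η := by
      rw [div_le_iff₀ hη] at e11
      exact e11
    have h12 : χ ^ 2 ≤ χ ^ 3 := pow_le_pow_right₀ hχ1 (by norm_num)
    calc 1 * χ ^ 2 ≤ 1 * χ ^ 3 := by linarith
      _ ≤ (A0 * η) * χ ^ 3 := mul_le_mul_of_nonneg_right h11 hχ3.le
      _ = η * (A0 * χ ^ 3) := by ring
      _ ≤ η * v := mul_le_mul_of_nonneg_left hvA hη.le
  have hk2 : 1 ≤ a2 * χ ^ 2 := le_trans e8 (mul_le_mul_of_nonneg_left hAχ2 ha2.le)
  have hhX : 1 ≤ c * η * χ / (η / χ ^ 2 * (C' * χ)) := by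
    have : c * η * χ / (η / χ ^ 2 * (C' * χ)) = c * χ ^ 2 / C' := by field_simp
    rw [this]
    refine le_trans e9 ?_
    gcongr
  have hgA : η / χ ^ 2 * (a * χ ^ 2) ≤ 1 := by
    have : η / χ ^ 2 * (a * χ ^ 2) = η * a := by field_simp
    rw [this]
    exact hηa
  have hb : β * η * a * v / (4 * χ) ≤ β * v / χ * (η / χ ^ 2 * (a * χ ^ 2)) / 4 := by
    have : β * v / χ * (η / χ ^ 2 * (a * χ ^ 2)) / 4 = β * η * a * v / (4 * χ) := by field_simp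
    rw [this]
  have hs0 : κ * η ^ 2 * v / χ ≤ c0 * χ / v * (β * η * a * v / (4 * χ)) ^ 2 := by
    have : c0 * χ / v * (β * η * a * v / (4 * χ)) ^ 2 = κ * η ^ 2 * v / χ := by
      rw [hκv]
      field_simp
      ring
    rw [this]
  have hth0 : a2 * κ / (2 * B ^ 2 * χ) ≤ 1 := by
    refine le_trans ?_ e10
    gcongr
  have hth : a2 * χ ^ 2 * (κ * η ^ 2 * v / χ) / (2 * (B * η * χ) ^ 2 * (Fintype.card V : ℝ)) ≤ 1 := by
    rw [← hv]
    have : a2 * χ ^ 2 * (κ * η ^ 2 * v / χ) / (2 * (B * η * χ) ^ 2 * v) = a2 * κ / (2 * B ^ 2 * χ) := by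
      field_simp
    rw [this]
    exact hth0
  have hX' : ∀ x, Ex p (fun ω => cz ends ω x) ≤ C' * χ := fun x =>
    (hX x).trans (mul_le_mul_of_nonneg_right hCC hχ.le)
  have hT' : ∀ x, ∀ k : ℕ, 1 ≤ k → Ex p (fun ω => if (k : ℝ) ≤ cz ends ω x then (1 : ℝ) else 0) ≤
      C' / Real.sqrt k := fun x k hk =>
    (hT x k hk).trans (div_le_div_of_nonneg_right hCC (Real.sqrt_nonneg _))
  have hmain := nc2_sum (ends := ends) (p := p) (g := η / χ ^ 2) (X := C' * χ) (C := C') (δ := δ) (Qs := C * (1 + χ ^ 4 / v))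
    (c1 := c0 * χ / v) (b1 := β * η * a * v / (4 * χ)) (s0 := κ * η ^ 2 * v / χ) (k2 := a2 * χ ^ 2)
    (h := c * η * χ) (H := B * η * χ) (A2 := a * χ ^ 2) (β := β * v / χ) h0 h1 hg0 hg1 hC0.le
    (by positivity) hk2 (by positivity) hhX (by positivity) (by positivity) (by positivity) hgA
    (by positivity) hb (by positivity) hs0 hth hX' hT' hQ sh W hW hδ hτ n1 k J hn11
  rw [← hv] at hmain
  have hjk : 12 * j ≤ k := by
    have h12 : ((12 * j : ℕ) : ℝ) ≤ (k : ℝ) := by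
      push_cast
      exact le_trans hj hkl
    exact_mod_cast h12
  have hmono : Ex p (fun ω => if BadN2 ends ω sh W (a2 * χ ^ 2) (a * χ ^ 2) (β * v / χ)
      (c * η * χ) (12 * j) then (1 : ℝ) else 0) ≤
      Ex p (fun ω => if BadN2 ends ω sh W (a2 * χ ^ 2) (a * χ ^ 2) (β * v / χ)
      (c * η * χ) k then (1 : ℝ) else 0) := by
    refine Ex_mono h0 h1 ?_
    intro ω
    by_cases hbad : BadN2 ends ω sh W (a2 * χ ^ 2) (a * χ ^ 2) (β * v / χ) (c * η * χ) (12 * j)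
    · have hbad' : BadN2 ends ω sh W (a2 * χ ^ 2) (a * χ ^ 2) (β * v / χ) (c * η * χ) k := by
        obtain ⟨𝒮, hS, 𝒯, hT1, hd, hS1, hS2, hS3⟩ := hbad
        exact ⟨𝒮, hS, 𝒯, hT1, hd, hS1, hS2, lt_of_lt_of_le hS3 hjk⟩
      rw [if_pos hbad, if_pos hbad']
    · rw [if_neg hbad]
      split_ifs
      · norm_num
      · norm_num
  -- the seven terms
  have q1 : 2 * (η / χ ^ 2 * (v * (C' * χ) ^ 3) / (β * η * a * v / (4 * χ)) ^ 2) ≤ ρ / 8 := by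
    rw [term1 hC0 ha hβ hη hχ hv0]
    refine le_trans ?_ e1
    rw [div_le_div_iff₀ (by positivity) (by positivity)]
    calc 32 * C' ^ 3 * χ ^ 3 * (β ^ 2 * a ^ 2 * η * A0) = 32 * C' ^ 3 * (β ^ 2 * a ^ 2 * η) * (A0 * χ ^ 3) := by
          ring
      _ ≤ 32 * C' ^ 3 * (β ^ 2 * a ^ 2 * η) * v := mul_le_mul_of_nonneg_left hvA (by positivity)
      _ = 32 * C' ^ 3 * (β ^ 2 * a ^ 2 * η * v) := by ring
  have q2 : v * ((η / χ ^ 2) ^ 2 * (C' * χ) ^ 2 * (3 * C' * Real.sqrt (c * η * χ / (η / χ ^ 2 * (C' * χ))))) /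
      (κ * η ^ 2 * v / χ / 10) ≤ ρ / 8 := by
    rw [term2 hC0 hκ hη hχ hv0 hc]
    exact e2
  have q3 : v * ((η / χ ^ 2) ^ 3 * (C' * χ) ^ 6 + 2 * (η / χ ^ 2) ^ 2 * (C' * χ) ^ 3 *
      (C * (1 + χ ^ 4 / v))) / (B * η * χ * (κ * η ^ 2 * v / χ / 10)) ≤ ρ / 8 := by
    rw [hC'] at e3 ⊢
    exact le_trans (term3o (by linarith) hκ hη hχ hv0 hB hA0 hχA hvA) e3
  have q4 : v * (η / χ ^ 2 * C' / Real.sqrt (a2 * χ ^ 2)) / n1 ≤ ρ / 8 :=
    le_trans (term4 hC0 hη hχ hv0 ha2 hC1 hn1l) e4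
  have q5 : v * ((η / χ ^ 2) ^ 2 * (η / χ ^ 2 + J / v) * (C' * χ) ^ 5 + 2 * (η / χ ^ 2) ^ 2 * (C' * χ) ^ 3 * δ) /
      (κ * η ^ 2 * v / χ / 10) ≤ ρ / 8 :=
    le_trans (term5 hC0 hκ hη hχ hv0 hC2 hJu hv2) e5
  have q6 : v * ((η / χ ^ 2) ^ 2 * (C' * χ) ^ 2 * (3 * C' * Real.sqrt (a2 * χ ^ 2))) /
      (κ * η ^ 2 * v / χ / 10) ≤ ρ / 8 := by
    rw [term6 hC0 hκ hη hχ hv0 ha2]
    exact e6
  have q7 : 2 ^ (2 * n1 + k) * (1 - a2 * χ ^ 2 * (κ * η ^ 2 * v / χ) / (4 * (B * η * χ) ^ 2 * v)) ^ J ≤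
      ρ / 8 :=
    le_trans (term7b n1 k J hκ hη hχ hv0 ha2 hB hC1 hC2 hn1u hku hJl hth0) (e7 _ hN)
  refine le_trans hmono (le_trans hmain ?_)
  linarith

section gen

variable {V : Type*} [Fintype V] [DecidableEq V] {E : Type*} [Fintype E] [DecidableEq E] {ends : E → Sym2 V}

/-- Row A2. A bad cut is a bad pair: `𝒯 = GC \ 𝒮`; then `DE` is empty (its members are in `GC`, not in `𝒮`, not in `GC \ 𝒮`), and `0 < 2 j`. -/
lemma bad_E2 {ω : E → Bool} {W : Finset V} {k2 A2 β : ℝ} {kk κ j : ℕ} (hj : 1 ≤ j) (h : BadE ends ω W k2 A2 β kk) :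
    BadE2 ends ω W k2 A2 β kk κ j := by
  classical
  obtain ⟨𝒮, hS, h1, h2, h3⟩ := h
  refine ⟨𝒮, hS, GC ends ω k2 \ 𝒮, Finset.mem_powerset.2 Finset.sdiff_subset, Finset.disjoint_sdiff, h1, h2, h3, ?_⟩
  have h4 : DE ends ω k2 κ 𝒮 (GC ends ω k2 \ 𝒮) = ∅ := by
    rw [Finset.eq_empty_iff_forall_notMem]
    intro D hD
    unfold DE at hD
    obtain ⟨hD1, hD2, hD3, -⟩ := Finset.mem_filter.1 hD
    exact hD3 (Finset.mem_sdiff.2 ⟨hD1, hD2⟩)
  rw [h4, Finset.card_empty]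
  omega

open scoped Classical in
/-- Row A2. The main component from `BadE2`: if the volume of the whole set is at least `4 β` and there is no `y` with `3 β ≤ vol (cu (orc ω η) y)` then the event of `main_comp` (V/Co.lean) holds:
`3 β ≤ vol univ` and for every `y` the points of `W` with `A2 ≤ cz ω x` off `cu (orc ω η) y` are at least `β` many (otherwise `vol (cu y) ≥ 4 β - β`; `vol univ` counts the points of `W` with `A2 ≤ cz ω x`).
Then `main_comp` and `bad_E2`. -/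
lemma main_o {p s k2 A2 β : ℝ} (h0 : 0 ≤ p) (h1 : p ≤ 1) (g0 : 0 ≤ s) (g1 : s ≤ 1) (hβ : 0 < β)
    (hkA : k2 ≤ A2) (W : Finset V) (kk κ j n0 : ℕ) (hj : 1 ≤ j) :
    Ex p (fun ω => Ex s (fun η => if ¬ ∃ y, 3 * β ≤ vol ends ω W A2 (cu ends (orc ω η) y) then (1 : ℝ) else 0)) ≤
      Ex p (fun ω => if vol ends ω W A2 Finset.univ < 4 * β then (1 : ℝ) else 0) +
      (Ex p (fun ω => if BadE2 ends ω W k2 A2 β kk κ j then (1 : ℝ) else 0) +
      Ex p (fun ω => if n0 < (GC ends ω k2).card then (1 : ℝ) else 0) + 2 ^ n0 * (1 - s) ^ kk) := by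
  have hm := main_comp (ends := ends) h0 h1 g0 g1 hβ hkA W kk n0
  have hb : Ex p (fun ω => if BadE ends ω W k2 A2 β kk then (1 : ℝ) else 0) ≤
      Ex p (fun ω => if BadE2 ends ω W k2 A2 β kk κ j then (1 : ℝ) else 0) := by
    apply Ex_mono h0 h1
    intro ω
    by_cases hB : BadE ends ω W k2 A2 β kk
    · rw [if_pos hB, if_pos (bad_E2 hj hB)]
    · rw [if_neg hB]
      split_ifs <;> norm_num
  have hkey : Ex p (fun ω => Ex s (fun η => if ¬ ∃ y, 3 * β ≤ vol ends ω W A2 (cu ends (orc ω η) y) then (1 : ℝ) else 0)) ≤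
      Ex p (fun ω => if vol ends ω W A2 Finset.univ < 4 * β then (1 : ℝ) else 0) +
      Ex p (fun ω => Ex s (fun η => if 3 * β ≤ vol ends ω W A2 Finset.univ ∧
      ¬ ∃ y, ((W.filter (fun x => A2 ≤ cz ends ω x ∧ x ∉ cu ends (orc ω η) y)).card : ℝ) < β
      then (1 : ℝ) else 0)) := by
    rw [← Ex_add]
    apply Ex_mono h0 h1
    intro ω
    have hnn : 0 ≤ Ex s (fun η => if 3 * β ≤ vol ends ω W A2 Finset.univ ∧
        ¬ ∃ y, ((W.filter (fun x => A2 ≤ cz ends ω x ∧ x ∉ cu ends (orc ω η) y)).card : ℝ) < β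
        then (1 : ℝ) else 0) := by
      refine (Ex_const (E := E) s (0 : ℝ)).symm.le.trans ?_
      apply Ex_mono g0 g1
      intro η
      split_ifs <;> norm_num
    by_cases hv : vol ends ω W A2 Finset.univ < 4 * β
    · rw [if_pos hv]
      have hone : Ex s (fun η => if ¬ ∃ y, 3 * β ≤ vol ends ω W A2 (cu ends (orc ω η) y) then (1 : ℝ) else 0) ≤ 1 := by
        refine le_trans ?_ (Ex_const (E := E) s (1 : ℝ)).le
        apply Ex_mono g0 g1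
        intro η
        split_ifs <;> norm_num
      linarith
    · rw [if_neg hv, zero_add]
      apply Ex_mono g0 g1
      intro η
      by_cases hE : ¬ ∃ y, 3 * β ≤ vol ends ω W A2 (cu ends (orc ω η) y)
      · rw [if_pos hE, if_pos]
        refine ⟨by linarith, ?_⟩
        rintro ⟨y, hy⟩
        apply hE
        refine ⟨y, ?_⟩
        have hsum : vol ends ω W A2 (cu ends (orc ω η) y) +
            ((W.filter (fun x => A2 ≤ cz ends ω x ∧ x ∉ cu ends (orc ω η) y)).card : ℝ) =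
            vol ends ω W A2 Finset.univ := by
          unfold vol
          rw [← Nat.cast_add, ← Finset.card_union_of_disjoint]
          · congr 2
            ext x
            simp only [Finset.mem_union, Finset.mem_filter, Finset.mem_univ, true_and]
            tauto
          · rw [Finset.disjoint_left]
            intro x hx hx'
            exact (Finset.mem_filter.1 hx').2.2 (Finset.mem_filter.1 hx).2.1
        push Not at hv
        linarith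
      · rw [if_neg hE]
        split_ifs <;> norm_num
  linarith

open scoped Classical in
/-- Row A3. Many points have a large cluster. `E |C(x)| ≥ ∑ y, ta x y ≥ c0 χ` (`large_prob` with `B = univ`, `c = c0 χ/|V|`, `X = C χ`); choose `a = (c0/(6 C))²`, so `3 C √(a χ²) = c0 χ/2` and
`P0 = (c0 χ/2)²/(C χ)³ = (c0²/(4 C³))/χ`; `b0 = c0²/(32 C³)`, so `2 (4 b0 |V|/χ) ≤ P0 |V|`; `large_many` with `t = 4 b0 |V|/χ`: at most `|V| C χ χ²/(16 b0² |V|²) ≤ C/(16 b0² A0) ≤ ρ`. `1 ≤ a χ²` for `χ ≥ A0 ≥ 1/√a`. -/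
lemma lam_o (C c0 : ℝ) (hC : 1 ≤ C) (hc0 : 0 < c0) : ∃ a b0 : ℝ, 0 < a ∧ 0 < b0 ∧ ∀ ρ : ℝ, 0 < ρ → ∃ A0 : ℝ, 1 ≤ A0 ∧
      ∀ (V : Type) [Fintype V] [DecidableEq V] [Nonempty V] (E : Type) [Fintype E] [DecidableEq E]
        (ends : E → Sym2 V) (p χ : ℝ), 0 ≤ p → p ≤ 1 → A0 ≤ χ → A0 * χ ^ 3 ≤ Fintype.card V →
        (∀ x, Ex p (fun ω => cz ends ω x) ≤ C * χ) →
        (∀ x, ∀ k : ℕ, 1 ≤ k → Ex p (fun ω => if (k : ℝ) ≤ cz ends ω x then (1 : ℝ) else 0) ≤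
          C / Real.sqrt k) →
        (∀ u v, c0 * χ / Fintype.card V ≤ ta ends p u v) →
        Ex p (fun ω => if vol ends ω Finset.univ (a * χ ^ 2) Finset.univ < 4 * (b0 * Fintype.card V / χ)
          then (1 : ℝ) else 0) ≤ ρ := by
  have hC0 : 0 < C := by linarith
  obtain ⟨b0, hb0⟩ : ∃ b0 : ℝ, b0 = c0 ^ 2 / (32 * C ^ 3) := ⟨_, rfl⟩
  have hb0p : 0 < b0 := by rw [hb0]; positivity
  refine ⟨(c0 / (6 * C)) ^ 2, b0, by positivity, hb0p, fun ρ hρ => ?_⟩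
  refine ⟨max 1 (max (6 * C / c0) (C / (16 * b0 ^ 2 * ρ))), le_max_left _ _, ?_⟩
  intro V _ _ _ E _ _ ends p χ h0 h1 hχ hV hX hT hta
  have hχ1 : 1 ≤ χ := (le_max_left _ _).trans hχ
  have hχ0 : 0 < χ := by linarith
  have hχ2 : 6 * C / c0 ≤ χ := (le_max_left _ _).trans ((le_max_right _ _).trans hχ)
  have hV3 : C / (16 * b0 ^ 2 * ρ) * χ ^ 3 ≤ Fintype.card V :=
    (mul_le_mul_of_nonneg_right ((le_max_right _ _).trans (le_max_right _ _)) (by positivity)).trans hV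
  have hVp : (0 : ℝ) < Fintype.card V := by exact_mod_cast Fintype.card_pos
  have hsq : Real.sqrt ((c0 / (6 * C)) ^ 2 * χ ^ 2) = c0 / (6 * C) * χ := by
    rw [← mul_pow, Real.sqrt_sq (by positivity)]
  have hsq3 : 3 * C * Real.sqrt ((c0 / (6 * C)) ^ 2 * χ ^ 2) = c0 * χ / 2 := by
    rw [hsq]
    field_simp
    ring
  have hA1 : 1 ≤ (c0 / (6 * C)) ^ 2 * χ ^ 2 := by
    rw [← mul_pow]
    have h3 : 1 ≤ c0 / (6 * C) * χ := by
      rw [div_le_iff₀ hc0] at hχ2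
      rw [div_mul_eq_mul_div, one_le_div (by positivity)]
      linarith
    exact one_le_pow₀ h3
  have hcB : c0 * χ / Fintype.card V * ((Finset.univ : Finset V).card : ℝ) = c0 * χ := by
    rw [Finset.card_univ]
    field_simp
  have hP : ∀ x ∈ (Finset.univ : Finset V), c0 ^ 2 / (4 * C ^ 3 * χ) ≤
      Ex p (fun ω => if (c0 / (6 * C)) ^ 2 * χ ^ 2 ≤ cz ends ω x then (1 : ℝ) else 0) := by
    intro x _
    have h3 := large_prob (ends := ends) (c := c0 * χ / Fintype.card V) h0 h1 hC0.le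
      (mul_pos hC0 hχ0) hA1 hX hT Finset.univ x (fun y _ => hta x y) (by
        rw [hsq3, hcB]
        nlinarith [mul_pos hc0 hχ0])
    refine le_trans (le_of_eq ?_) h3
    rw [hsq3, hcB]
    field_simp
    ring
  have h4 := large_many (ends := ends) (X := C * χ) (A2 := (c0 / (6 * C)) ^ 2 * χ ^ 2)
    (t := 4 * (b0 * Fintype.card V / χ)) (P0 := c0 ^ 2 / (4 * C ^ 3 * χ)) h0 h1 (by positivity) hX Finset.univ hP (by
      rw [Finset.card_univ, hb0]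
      apply le_of_eq
      field_simp
      ring)
  have h5 : ∀ ω : E → Bool, (if vol ends ω Finset.univ ((c0 / (6 * C)) ^ 2 * χ ^ 2) Finset.univ < 4 * (b0 * Fintype.card V / χ) then (1 : ℝ) else 0) =
      (if (((Finset.univ : Finset V).filter (fun x => (c0 / (6 * C)) ^ 2 * χ ^ 2 ≤ cz ends ω x)).card : ℝ) < 4 * (b0 * Fintype.card V / χ) then (1 : ℝ) else 0) := by
    intro ω
    unfold vol
    have h6 : (Finset.univ : Finset V).filter (fun x => x ∈ (Finset.univ : Finset V) ∧ (c0 / (6 * C)) ^ 2 * χ ^ 2 ≤ cz ends ω x) =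
        (Finset.univ : Finset V).filter (fun x => (c0 / (6 * C)) ^ 2 * χ ^ 2 ≤ cz ends ω x) := by
      ext x
      simp only [Finset.mem_filter, Finset.mem_univ, true_and]
    rw [h6]
  rw [Ex_congr h5]
  refine h4.trans ?_
  have h7 : C * χ ^ 3 ≤ 16 * b0 ^ 2 * ρ * Fintype.card V := by
    rw [div_mul_eq_mul_div, div_le_iff₀ (by positivity)] at hV3
    linarith
  rw [div_le_iff₀ (by positivity)]
  have h8 : ρ * (4 * (b0 * Fintype.card V / χ)) ^ 2 = (16 * b0 ^ 2 * ρ * Fintype.card V) * (Fintype.card V / χ ^ 2) := by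
    field_simp
    ring
  rw [h8]
  refine le_trans (le_of_eq ?_) (mul_le_mul_of_nonneg_right h7 (by positivity))
  field_simp

open scoped Classical in
/-- Row A4 (numbers). `n0 = ⌈8 C v/(a2^(3/2) ρ χ³)⌉₊ + 1` (in the sense `a2 χ² √(a2 χ²) = a2 √a2 χ³`), `K0` with `K0 c3 ≥ (8 C/(a2 √a2 ρ)) log 2 + 1`: `2^n0 (1 - K0/χ)^kk ≤ exp (n0 log 2 - K0 kk/χ)
≤ exp (2 log 2 - v/χ³) ≤ ρ/4` for `v/χ³ ≥ A0`. The sprinkling is monotone: `(1-s)^kk ≤ (1 - K0/χ)^kk` for `K0/χ ≤ s`. -/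
lemma num_o (C a2 c3 ρ : ℝ) (hC : 0 < C) (ha2 : 0 < a2) (hc3 : 0 < c3) (hρ : 0 < ρ) : ∃ K0 A0 : ℝ, 0 < K0 ∧ 1 ≤ A0 ∧
    ∀ (χ v s : ℝ) (kk : ℕ), A0 ≤ χ → A0 * χ ^ 3 ≤ v → c3 * v / χ ^ 2 ≤ kk → K0 / χ ≤ s → s ≤ 1 →
    ∃ n0 : ℕ, 1 ≤ n0 ∧ v * (C / (a2 * χ ^ 2 * Real.sqrt (a2 * χ ^ 2))) / n0 ≤ ρ / 4 ∧ 2 ^ n0 * (1 - s) ^ kk ≤ ρ / 4 := by
  have hsq : 0 < Real.sqrt a2 := Real.sqrt_pos.mpr ha2
  obtain ⟨D, hD⟩ : ∃ D : ℝ, D = C / (a2 * Real.sqrt a2) := ⟨_, rfl⟩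
  have hD0 : 0 < D := by rw [hD]; positivity
  have hlog : 0 < Real.log 2 := Real.log_pos one_lt_two
  refine ⟨(4 * D / ρ * Real.log 2 + 1) / c3, 8 / ρ + 1, by positivity, ?_, ?_⟩
  · have : 0 < 8 / ρ := by positivity
    linarith
  intro χ v s kk hχ hv hkk hs hs1
  have h8 : 0 < 8 / ρ := by positivity
  have hχ1 : 1 ≤ χ := by linarith
  have hχ0 : 0 < χ := by linarith
  have hχ3 : 0 < χ ^ 3 := by positivity
  obtain ⟨w, hw⟩ : ∃ w : ℝ, w = v / χ ^ 3 := ⟨_, rfl⟩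
  have hvw : v = w * χ ^ 3 := by rw [hw]; field_simp
  have hwA : 8 / ρ + 1 ≤ w := by
    rw [hw, le_div_iff₀ hχ3]
    exact hv
  have hw0 : 0 < w := by linarith
  have hroot : Real.sqrt (a2 * χ ^ 2) = Real.sqrt a2 * χ := by
    rw [Real.sqrt_mul ha2.le, Real.sqrt_sq hχ0.le]
  have hval : v * (C / (a2 * χ ^ 2 * Real.sqrt (a2 * χ ^ 2))) = D * w := by
    rw [hroot, hD, hvw]
    field_simp
  have hx0 : 0 < 4 * D / ρ * w := by positivity
  refine ⟨⌈4 * D / ρ * w⌉₊, Nat.one_le_iff_ne_zero.mpr (Nat.ceil_pos.mpr hx0).ne', ?_, ?_⟩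
  · have hn : 4 * D / ρ * w ≤ (⌈4 * D / ρ * w⌉₊ : ℝ) := Nat.le_ceil _
    have hn0 : (0 : ℝ) < (⌈4 * D / ρ * w⌉₊ : ℝ) := lt_of_lt_of_le hx0 hn
    rw [hval, div_le_iff₀ hn0]
    have h1 : ρ / 4 * (4 * D / ρ * w) = D * w := by field_simp
    rw [← h1]
    exact mul_le_mul_of_nonneg_left hn (by positivity)
  · have hn : (⌈4 * D / ρ * w⌉₊ : ℝ) ≤ 4 * D / ρ * w + 1 := (Nat.ceil_lt_add_one hx0.le).le
    have hs0 : 0 ≤ 1 - s := by linarith
    have h1 : (1 - s) ^ kk ≤ Real.exp (-(s * kk)) := by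
      have h2 : 1 - s ≤ Real.exp (-s) := by
        have := Real.add_one_le_exp (-s)
        linarith
      calc (1 - s) ^ kk ≤ Real.exp (-s) ^ kk := pow_le_pow_left₀ hs0 h2 kk
        _ = Real.exp (-(s * kk)) := by
          rw [← Real.exp_nat_mul]
          congr 1
          ring
    have h2 : (2 : ℝ) ^ ⌈4 * D / ρ * w⌉₊ = Real.exp (⌈4 * D / ρ * w⌉₊ * Real.log 2) := by
      rw [Real.exp_nat_mul, Real.exp_log two_pos]
    have hks : (4 * D / ρ * Real.log 2 + 1) * w ≤ s * kk := by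
      have h3 : (4 * D / ρ * Real.log 2 + 1) / c3 / χ * (c3 * v / χ ^ 2) =
          (4 * D / ρ * Real.log 2 + 1) * w := by
        rw [hvw]
        field_simp
      have h4 : 0 ≤ c3 * v / χ ^ 2 := by
        rw [hvw]
        positivity
      have h5 : 0 ≤ (4 * D / ρ * Real.log 2 + 1) / c3 / χ := by positivity
      rw [← h3]
      exact mul_le_mul hs hkk h4 (le_trans h5 hs)
    have h3 : 2 ^ ⌈4 * D / ρ * w⌉₊ * (1 - s) ^ kk ≤ Real.exp (Real.log 2 - w) := by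
      calc 2 ^ ⌈4 * D / ρ * w⌉₊ * (1 - s) ^ kk
          ≤ Real.exp (⌈4 * D / ρ * w⌉₊ * Real.log 2) * Real.exp (-(s * kk)) := by
            rw [h2]
            exact mul_le_mul_of_nonneg_left h1 (Real.exp_pos _).le
        _ = Real.exp (⌈4 * D / ρ * w⌉₊ * Real.log 2 - s * kk) := by
            rw [← Real.exp_add]
            congr 1
        _ ≤ Real.exp (Real.log 2 - w) := by
            apply Real.exp_le_exp.mpr
            have h6 : (⌈4 * D / ρ * w⌉₊ : ℝ) * Real.log 2 ≤ (4 * D / ρ * w + 1) * Real.log 2 :=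
              mul_le_mul_of_nonneg_right hn hlog.le
            have h7 : (4 * D / ρ * w + 1) * Real.log 2 =
                (4 * D / ρ * Real.log 2 + 1) * w + Real.log 2 - w := by ring
            linarith
    have h4 : Real.exp (Real.log 2 - w) = 2 * Real.exp (-w) := by
      rw [sub_eq_add_neg, Real.exp_add, Real.exp_log two_pos]
    have h5 : Real.exp (-w) ≤ ρ / 8 := by
      rw [Real.exp_neg]
      have h6 : 8 / ρ ≤ Real.exp w := by
        have := Real.add_one_le_exp w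
        linarith
      have h7 : (Real.exp w)⁻¹ ≤ (8 / ρ)⁻¹ := inv_anti₀ h8 h6
      rwa [inv_div] at h7
    rw [h4] at h3
    linarith

private lemma C1_assoc (ω ω' ω'' : E → Bool) : orc (orc ω ω') ω'' = orc ω (orc ω' ω'') := by
  funext e
  unfold orc
  exact Bool.or_assoc _ _ _

open scoped Classical in
/-- The deterministic part of row C1. -/
private lemma C1_det {h t A2 : ℝ} (ht : 0 < t) (ω β' : E → Bool) (y : V) :
    (if t ≤ ((Finset.univ.filter (fun x => h ≤ cz ends β' x ∧ x ∉ cu ends β' y)).card : ℝ) ∧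
        vol ends ω Finset.univ A2 (Finset.univ.filter (fun x => h ≤ cz ends β' x ∧ x ∉ cu ends β' y)) < t / 2
      then (1 : ℝ) else 0) ≤
      1 / (t / 2) * ∑ x : V, (if cz ends ω x < A2 ∧ h ≤ cz ends β' x then (1 : ℝ) else 0) := by
  have ht2 : (0 : ℝ) < t / 2 := by linarith
  have hn : (0 : ℝ) ≤ ∑ x : V, (if cz ends ω x < A2 ∧ h ≤ cz ends β' x then (1 : ℝ) else 0) :=
    Finset.sum_nonneg fun x _ => by split_ifs <;> norm_num
  split_ifs with hev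
  swap
  · positivity
  obtain ⟨e1, e2⟩ := hev
  obtain ⟨F, hF⟩ : ∃ F : Finset V, F = Finset.univ.filter (fun x => h ≤ cz ends β' x ∧ x ∉ cu ends β' y) :=
    ⟨_, rfl⟩
  rw [← hF] at e1 e2
  have hsub : F ⊆ Finset.univ.filter (fun x => x ∈ F ∧ A2 ≤ cz ends ω x) ∪
      Finset.univ.filter (fun x => cz ends ω x < A2 ∧ h ≤ cz ends β' x) := by
    intro x hx
    rw [Finset.mem_union, Finset.mem_filter, Finset.mem_filter]
    rcases lt_or_ge (cz ends ω x) A2 with hlt | hge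
    · refine Or.inr ⟨Finset.mem_univ _, hlt, ?_⟩
      rw [hF, Finset.mem_filter] at hx
      exact hx.2.1
    · exact Or.inl ⟨Finset.mem_univ _, hx, hge⟩
  have hc : (F.card : ℝ) ≤ ((Finset.univ.filter (fun x => x ∈ F ∧ A2 ≤ cz ends ω x)).card : ℝ) +
      ((Finset.univ.filter (fun x => cz ends ω x < A2 ∧ h ≤ cz ends β' x)).card : ℝ) := by
    exact_mod_cast (Finset.card_le_card hsub).trans (Finset.card_union_le _ _)
  have hc2 : ((Finset.univ.filter (fun x => cz ends ω x < A2 ∧ h ≤ cz ends β' x)).card : ℝ) =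
      ∑ x : V, (if cz ends ω x < A2 ∧ h ≤ cz ends β' x then (1 : ℝ) else 0) := by
    rw [Finset.card_filter]
    push_cast
    rfl
  unfold vol at e2
  rw [one_div, inv_mul_eq_div, le_div_iff₀ ht2]
  linarith

open scoped Classical in
/-- Row C1. The mass. Let `F = Fm ends (orc (orc (orc ω η1) η2) η3) h (y0 ω η1)`. If `t ≤ |F|` and `vol ω univ A2 F < t/2` then more than `t/2` points `x ∈ F` have `cz ω x < A2`, and
`h ≤ cz (orc ..) x` for them. Markov and `small_large` (Y/Ms.lean) for every `x`, with `s = 1 - (1-s1)(1-s2)(1-s3)` (the three sprinklings are one: `Ex_orc`, `orc` is associative; compare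
`small_box` in Y/Ms.lean). -/
lemma mass_o {p s1 s2 s3 C e h t A2 D : ℝ} (h0 : 0 ≤ p) (h1 : p ≤ 1) (h10 : 0 ≤ s1) (h11 : s1 ≤ 1) (h20 : 0 ≤ s2)
    (h21 : s2 ≤ 1) (h30 : 0 ≤ s3) (h31 : s3 ≤ 1) (hC : 0 ≤ C) (he : 0 ≤ e) (hh : 1 ≤ h) (ht : 0 < t) (hA : 1 ≤ A2)
    (hdeg : ∀ x, ∑ y, nb ends x y ≤ D)
    (hT : ∀ x, ∀ k : ℕ, 1 ≤ k → Ex p (fun ω => if (k : ℝ) ≤ cz ends ω x then (1 : ℝ) else 0) ≤
      C / Real.sqrt k)
    (hT' : ∀ x, ∀ k : ℕ, 1 ≤ k → Ex (1 - (1 - p) * (1 - s1) * (1 - s2) * (1 - s3)) (fun ω => if (k : ℝ) ≤ cz ends ω x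
      then (1 : ℝ) else 0) ≤ C * (1 / Real.sqrt k + e)) (y0 : (E → Bool) → (E → Bool) → V) :
    Ex p (fun ω => Ex s1 (fun η1 => Ex s2 (fun η2 => Ex s3 (fun η3 =>
      if t ≤ ((Finset.univ.filter (fun x => h ≤ cz ends (orc (orc (orc ω η1) η2) η3) x ∧
          x ∉ cu ends (orc (orc (orc ω η1) η2) η3) (y0 ω η1))).card : ℝ) ∧
        vol ends ω Finset.univ A2 (Finset.univ.filter (fun x => h ≤ cz ends (orc (orc (orc ω η1) η2) η3) x ∧
          x ∉ cu ends (orc (orc (orc ω η1) η2) η3) (y0 ω η1))) < t / 2 then (1 : ℝ) else 0)))) ≤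
      (Fintype.card V : ℝ) * (2 * (1 / h + (1 - (1 - s1) * (1 - s2) * (1 - s3)) * D * (3 * C * Real.sqrt h + C * e * h) / h) *
        (3 * C * Real.sqrt A2)) / (t / 2) := by
  obtain ⟨s, hs⟩ : ∃ s : ℝ, s = 1 - (1 - s1) * (1 - s2) * (1 - s3) := ⟨_, rfl⟩
  have k1 : 0 ≤ 1 - s1 := by linarith
  have k2 : 0 ≤ 1 - s2 := by linarith
  have k3 : 0 ≤ 1 - s3 := by linarith
  have k12 : 0 ≤ (1 - s1) * (1 - s2) := mul_nonneg k1 k2
  have k12' : (1 - s1) * (1 - s2) ≤ 1 := mul_le_one₀ (by linarith) k2 (by linarith)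
  have hs1 : s ≤ 1 := by rw [hs]; have := mul_nonneg k12 k3; linarith
  have hs0 : 0 ≤ s := by
    rw [hs]
    have := mul_le_one₀ k12' k3 (by linarith)
    linarith
  have hmono := M5_mono h0 h1 h10 h11 h20 h21 h30 h31 (fun ω η1 η2 η3 =>
    C1_det (ends := ends) (h := h) (A2 := A2) ht ω (orc (orc (orc ω η1) η2) η3) (y0 ω η1))
  refine le_trans hmono ?_
  rw [M5_mul, M5_sum]
  have ht2 : (0 : ℝ) < t / 2 := by linarith
  have b1 : ∀ x : V, M5_E4 p s1 s2 s3 (fun ω η1 η2 η3 =>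
      if cz ends ω x < A2 ∧ h ≤ cz ends (orc (orc (orc ω η1) η2) η3) x then (1 : ℝ) else 0) ≤
      2 * (1 / h + (1 - (1 - s1) * (1 - s2) * (1 - s3)) * D * (3 * C * Real.sqrt h + C * e * h) / h) *
        (3 * C * Real.sqrt A2) := by
    intro x
    have e1 : ∀ ω : E → Bool, Ex s1 (fun η1 => Ex s2 (fun η2 => Ex s3 (fun η3 =>
        if cz ends ω x < A2 ∧ h ≤ cz ends (orc (orc (orc ω η1) η2) η3) x
          then (1 : ℝ) else 0))) = Ex s (fun η => if cz ends ω x < A2 ∧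
          h ≤ cz ends (orc ω η) x then (1 : ℝ) else 0) := by
      intro ω
      have e3 : s = 1 - (1 - (1 - (1 - s1) * (1 - s2))) * (1 - s3) := by rw [hs]; ring
      rw [e3, Ex_orc, Ex_orc]
      refine Ex_congr fun η1 => Ex_congr fun η2 => Ex_congr fun η3 => ?_
      rw [C1_assoc ω η1 η2, C1_assoc ω (orc η1 η2) η3]
    unfold M5_E4
    rw [Ex_congr e1, ← hs]
    refine small_large h0 h1 hs0 hs1 hC he hh hA hdeg hT ?_ x
    have e4 : 1 - (1 - p) * (1 - s) = 1 - (1 - p) * (1 - s1) * (1 - s2) * (1 - s3) := by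
      rw [hs]; ring
    rw [e4]
    exact hT'
  have b2 := Finset.sum_le_sum fun x (_ : x ∈ (Finset.univ : Finset V)) => b1 x
  rw [Finset.sum_const, nsmul_eq_mul, Finset.card_univ] at b2
  rw [one_div, inv_mul_eq_div]
  exact div_le_div_of_nonneg_right b2 ht2.le

end gen

end Pool.Agent.PERC29.OB
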