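import Pool.Agent.Lib.MP_29e17e_pr.Y.Fa

set_option autoImplicit false
set_option linter.unusedSectionVars false

/-! Rows 29o-B1 .. 29o-B6: families of clusters, one box (the whole graph), with the sum over the giant weighted by its size. Compare Y/Fa.lean. -/

open Finset

namespace Pool.Agent.PERC29.OB

open Pool.Agent.PERC29 Pool.Agent.PERC29.AE

variable {V : Type*} [Fintype V] [DecidableEq V] {E : Type*} [Fintype E] [DecidableEq E] {ends : E → Sym2 V}

private lemma B1_hop {ω η η' : E → Bool} {h : ℝ} {X S : Finset V}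
    (hh : ∀ e ∈ {e : E | ∃ a b, ends e = s(a, b) ∧ a ∈ S}, η e = η' e)
    (hA : UC ends (orc ω η) X = S ∧ Dst ends (orc ω η) Set.univ h X) :
    UC ends (orc ω η') X = S ∧ Dst ends (orc ω η') Set.univ h X := by
  have key : ∀ x ∈ X, cl ends (orc ω η') Set.univ x = cl ends (orc ω η) Set.univ x := by
    intro x hx
    have hsub : cl ends (orc ω η) Set.univ x ⊆ S := by
      rw [← hA.1]
      intro z hz
      exact Finset.mem_biUnion.2 ⟨x, hx, hz⟩
    refine cl_eq_dep (fun e a b h2 _ _ h5 => ?_) rfl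
    unfold orc
    rw [hh e ⟨a, b, h2, hsub h5⟩]
  refine ⟨?_, ?_, ?_⟩
  · rw [← hA.1]
    unfold UC
    ext z
    rw [Finset.mem_biUnion, Finset.mem_biUnion]
    constructor
    · rintro ⟨x, hx, hz⟩
      refine ⟨x, hx, ?_⟩
      have := key x hx
      unfold cu at hz ⊢
      rw [this] at hz
      exact hz
    · rintro ⟨x, hx, hz⟩
      refine ⟨x, hx, ?_⟩
      have := key x hx
      unfold cu at hz ⊢
      rw [this]
      exact hz
  · intro x hx
    rw [key x hx]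
    exact hA.2.1 x hx
  · intro x hx x' hx' hne
    rw [key x hx]
    exact hA.2.2 x hx x' hx' hne

open scoped Classical in
/-- Row B1. As `hopX` (Y/Fa.lean): in the proof the terms with `¬ Disjoint Γ S` vanish, so the right side can be restricted to `Disjoint Γ (UC ..)`: `hR` becomes
`(if Disjoint Γ (UC ..) ∧ Dst .. then 1 else 0) = ∑ S, (if UC = S ∧ Dst .. then 1 else 0) * (if Disjoint Γ S then 1 else 0)`. -/
lemma hopX1 {s h : ℝ} (hs0 : 0 ≤ s) (hs1 : s ≤ 1) (ω : E → Bool) (X : Finset V) (Γ : Finset V)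
    (𝒟 : Finset V → Finset (Finset V)) (κ n j : ℕ) (hS : ∀ S, ∀ D ∈ 𝒟 S, Disjoint D S)
    (hΓ : ∀ S, ∀ D ∈ 𝒟 S, Disjoint D Γ) (hd : ∀ S, ∀ D ∈ 𝒟 S, ∀ D' ∈ 𝒟 S, D ≠ D' → Disjoint D D')
    (hκ : ∀ S, ∀ D ∈ 𝒟 S, κ ≤ eb ends D Γ) :
    Ex s (fun η => if Disjoint Γ (UC ends (orc ω η) X) ∧ Dst ends (orc ω η) Set.univ h X ∧
      n ≤ (𝒟 (UC ends (orc ω η) X)).card ∧
      ((𝒟 (UC ends (orc ω η) X)).filter (fun D => Opn ends η D Γ)).card < j then (1 : ℝ) else 0) ≤
      2 ^ j * (1 - (1 - (1 - s) ^ κ) / 2) ^ n *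
        Ex s (fun η => if Disjoint Γ (UC ends (orc ω η) X) ∧ Dst ends (orc ω η) Set.univ h X then (1 : ℝ) else 0) := by
  have hb : 0 ≤ (2 : ℝ) ^ j * (1 - (1 - (1 - s) ^ κ) / 2) ^ n := by
    have h1 : 0 ≤ (1 - s) ^ κ := pow_nonneg (by linarith) _
    have h2 : 0 ≤ 1 - (1 - (1 - s) ^ κ) / 2 := by linarith
    positivity
  set b : ℝ := 2 ^ j * (1 - (1 - (1 - s) ^ κ) / 2) ^ n with hbdef
  have hL : ∀ η : E → Bool, (if Disjoint Γ (UC ends (orc ω η) X) ∧
      Dst ends (orc ω η) Set.univ h X ∧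
      n ≤ (𝒟 (UC ends (orc ω η) X)).card ∧
      ((𝒟 (UC ends (orc ω η) X)).filter (fun D => Opn ends η D Γ)).card < j then (1 : ℝ) else 0) =
      ∑ S : Finset V, (if (UC ends (orc ω η) X = S ∧ Dst ends (orc ω η) Set.univ h X)
        then (1 : ℝ) else 0) *
        (if Disjoint Γ S ∧ n ≤ (𝒟 S).card ∧
          ((𝒟 S).filter (fun D => Opn ends η D Γ)).card < j then (1 : ℝ) else 0) := by
    intro η
    rw [Finset.sum_eq_single (UC ends (orc ω η) X)]
    · by_cases h0 : Dst ends (orc ω η) Set.univ h X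
      · rw [if_pos (c := (UC ends (orc ω η) X = UC ends (orc ω η) X ∧
          Dst ends (orc ω η) Set.univ h X)) ⟨rfl, h0⟩, one_mul]
        exact if_congr ⟨fun h => ⟨h.1, h.2.2⟩, fun h => ⟨h.1, h0, h.2⟩⟩ rfl rfl
      · rw [if_neg (fun h => h0 h.2.1), if_neg (fun h => h0 h.2), zero_mul]
    · intro A _ hA
      rw [if_neg (fun h => hA h.1.symm), zero_mul]
    · intro hh
      exact absurd (Finset.mem_univ _) hh
  have hR : ∀ η : E → Bool, (if Disjoint Γ (UC ends (orc ω η) X) ∧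
      Dst ends (orc ω η) Set.univ h X then (1 : ℝ) else 0) =
      ∑ S : Finset V, (if (UC ends (orc ω η) X = S ∧ Dst ends (orc ω η) Set.univ h X)
        then (1 : ℝ) else 0) * (if Disjoint Γ S then (1 : ℝ) else 0) := by
    intro η
    rw [Finset.sum_eq_single (UC ends (orc ω η) X)]
    · by_cases h0 : Dst ends (orc ω η) Set.univ h X
      · rw [if_pos (c := (UC ends (orc ω η) X = UC ends (orc ω η) X ∧
          Dst ends (orc ω η) Set.univ h X)) ⟨rfl, h0⟩, one_mul]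
        exact if_congr ⟨fun h => h.1, fun h => ⟨h, h0⟩⟩ rfl rfl
      · rw [if_neg (fun h => h0 h.2), if_neg (fun h => h0 h.2), zero_mul]
    · intro A _ hA
      rw [if_neg (fun h => hA h.1.symm), zero_mul]
    · intro hh
      exact absurd (Finset.mem_univ _) hh
  rw [Ex_congr hL, Ex_sum, Ex_congr hR, Ex_sum, Finset.mul_sum]
  refine Finset.sum_le_sum fun S _ => ?_
  have hI : 0 ≤ Ex s (fun η => if (UC ends (orc ω η) X = S ∧ Dst ends (orc ω η) Set.univ h X)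
      then (1 : ℝ) else 0) :=
    Ex_nonneg hs0 hs1 fun η => by split_ifs <;> norm_num
  by_cases hc : Disjoint Γ S ∧ n ≤ (𝒟 S).card
  · obtain ⟨c1, c3⟩ := hc
    have e1 : ∀ η : E → Bool, (if (UC ends (orc ω η) X = S ∧ Dst ends (orc ω η) Set.univ h X)
        then (1 : ℝ) else 0) *
        (if Disjoint Γ S ∧ n ≤ (𝒟 S).card ∧
          ((𝒟 S).filter (fun D => Opn ends η D Γ)).card < j then (1 : ℝ) else 0) =
        (if (UC ends (orc ω η) X = S ∧ Dst ends (orc ω η) Set.univ h X)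
        then (1 : ℝ) else 0) *
        (if ((𝒟 S).filter (fun D => Opn ends η D Γ)).card < j then (1 : ℝ) else 0) := by
      intro η
      congr 1
      exact if_congr ⟨fun h => h.2.2, fun h => ⟨c1, c3, h⟩⟩ rfl rfl
    set D0 : Set E := {e | ∃ a b, ends e = s(a, b) ∧ a ∈ S} with hD0
    have e2 : ∀ η : E → Bool, (if (UC ends (orc ω η) X = S ∧ Dst ends (orc ω η) Set.univ h X)
        then (1 : ℝ) else 0) * (if Disjoint Γ S then (1 : ℝ) else 0) =
        (if (UC ends (orc ω η) X = S ∧ Dst ends (orc ω η) Set.univ h X)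
        then (1 : ℝ) else 0) := by
      intro η
      rw [if_pos c1, mul_one]
    rw [Ex_congr e1, Ex_congr e2, Ex_indep s D0]
    · rw [mul_comm]
      exact mul_le_mul_of_nonneg_right
        (bino hs0 hs1 Γ (𝒟 S) (hΓ S) (hd S) κ n j (hκ S) c3) hI
    · intro η η' hh
      exact if_congr ⟨fun hA => B1_hop hh hA,
        fun hA => B1_hop (fun e he => (hh e he).symm) hA⟩ rfl rfl
    · intro η η' hh
      have key : ∀ η η' : E → Bool, (∀ e ∉ D0, η e = η' e) → ∀ D ∈ 𝒟 S, Opn ends η D Γ →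
          Opn ends η' D Γ := by
        rintro η η' hh D hD ⟨e, he, u, hu, v, hv, huv⟩
        refine ⟨e, ?_, u, hu, v, hv, huv⟩
        rw [← hh e, he]
        rintro ⟨a, b, h5, h8⟩
        rw [huv] at h5
        rcases Sym2.eq_iff.1 h5 with ⟨rfl, rfl⟩ | ⟨rfl, rfl⟩
        · exact Finset.disjoint_left.1 (hS S D hD) hu h8
        · exact Finset.disjoint_left.1 c1 hv h8
      have : (𝒟 S).filter (fun D => Opn ends η D Γ) =
          (𝒟 S).filter (fun D => Opn ends η' D Γ) := by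
        apply Finset.filter_congr
        intro D hD
        exact ⟨key η η' hh D hD, key η' η (fun e he => (hh e he).symm) D hD⟩
      rw [this]
  · have e1 : ∀ η : E → Bool, (if (UC ends (orc ω η) X = S ∧ Dst ends (orc ω η) Set.univ h X)
        then (1 : ℝ) else 0) *
        (if Disjoint Γ S ∧ n ≤ (𝒟 S).card ∧
          ((𝒟 S).filter (fun D => Opn ends η D Γ)).card < j then (1 : ℝ) else 0) = 0 := by
      intro η
      have hn : ¬ (Disjoint Γ S ∧ n ≤ (𝒟 S).card ∧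
          ((𝒟 S).filter (fun D => Opn ends η D Γ)).card < j) :=
        fun h => hc ⟨h.1, h.2.1⟩
      rw [if_neg hn, mul_zero]
    rw [Ex_zero_of e1]
    refine mul_nonneg hb (Ex_nonneg hs0 hs1 fun η => ?_)
    exact mul_nonneg (by split_ifs <;> norm_num) (by split_ifs <;> norm_num)

open scoped Classical in
/-- Row B2. As `Dst_fresh` (Y/Fa.lean) with the weight `1[t ≤ |cu ξ y|]` (it is determined by the value `G` of the cluster). -/
lemma Dst_fresh1 {p s h f t : ℝ} (h0 : 0 ≤ p) (h1 : p ≤ 1) (hs0 : 0 ≤ s) (hs1 : s ≤ 1)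
    (hf : ∀ x, Ex (1 - (1 - p) * (1 - s)) (fun ω => if h ≤ cz ends ω x then (1 : ℝ) else 0) ≤ f)
    (y : V) (X : Finset V) :
    Ex p (fun ξ => (if t ≤ cz ends ξ y then (1 : ℝ) else 0) *
      Ex s (fun η => if Dst ends (orc ξ η) ((cu ends ξ y : Set V)ᶜ) h X then (1 : ℝ) else 0)) ≤
      Ex p (fun ξ => if t ≤ cz ends ξ y then (1 : ℝ) else 0) * f ^ X.card := by
  have hq0 : 0 ≤ 1 - (1 - p) * (1 - s) := by nlinarith
  have hq1 : 1 - (1 - p) * (1 - s) ≤ 1 := by nlinarith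
  have hL : ∀ ξ : E → Bool, (if t ≤ cz ends ξ y then (1 : ℝ) else 0) *
      Ex s (fun η => if Dst ends (orc ξ η) ((cu ends ξ y : Set V)ᶜ) h X
      then (1 : ℝ) else 0) = ∑ G : Finset V, (if cu ends ξ y = G then
        (if t ≤ (G.card : ℝ) then (1 : ℝ) else 0) else 0) *
        Ex s (fun η => if Dst ends (orc ξ η) ((G : Set V)ᶜ) h X then (1 : ℝ) else 0) := by
    intro ξ
    rw [Finset.sum_eq_single (cu ends ξ y)]
    · rw [if_pos rfl]
      rfl
    · intro A _ hA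
      rw [if_neg (Ne.symm hA), zero_mul]
    · intro hh
      exact absurd (Finset.mem_univ _) hh
  have e1 : ∀ ξ : E → Bool, (if t ≤ cz ends ξ y then (1 : ℝ) else 0) = ∑ G : Finset V,
      (if cu ends ξ y = G then (if t ≤ (G.card : ℝ) then (1 : ℝ) else 0) else 0) := by
    intro ξ
    rw [Finset.sum_ite_eq, if_pos (Finset.mem_univ _)]
    rfl
  rw [Ex_congr hL, Ex_congr e1, Ex_sum, Ex_sum]
  have h2 : ∀ G : Finset V, Ex p (fun ξ => (if cu ends ξ y = G then
        (if t ≤ (G.card : ℝ) then (1 : ℝ) else 0) else 0) *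
      Ex s (fun η => if Dst ends (orc ξ η) ((G : Set V)ᶜ) h X then (1 : ℝ) else 0)) ≤
      Ex p (fun ξ => if cu ends ξ y = G then
        (if t ≤ (G.card : ℝ) then (1 : ℝ) else 0) else 0) * f ^ X.card := by
    intro G
    have hI : 0 ≤ Ex p (fun ξ => if cu ends ξ y = G then
        (if t ≤ (G.card : ℝ) then (1 : ℝ) else 0) else 0) :=
      Ex_nonneg h0 h1 fun ξ => by split_ifs <;> norm_num
    rw [Ex_indep p {e | ∃ a b, ends e = s(a, b) ∧ a ∈ G}]
    · refine mul_le_mul_of_nonneg_left ?_ hI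
      rw [← Ex_orc p s (fun ω => if Dst ends ω ((G : Set V)ᶜ) h X then (1 : ℝ) else 0)]
      exact Dst_le hq0 hq1 hf _ X
    · intro ξ ξ' hh
      have key : ∀ ξ ξ' : E → Bool, (∀ e ∈ {e | ∃ a b, ends e = s(a, b) ∧ a ∈ G}, ξ e = ξ' e) →
          cu ends ξ y = G → cu ends ξ' y = G := by
        intro ξ ξ' hh hA
        refine cl_eq_dep (fun e' a b h2 _ _ h5 => ?_) hA
        exact hh e' ⟨a, b, h2, h5⟩
      by_cases hc : cu ends ξ y = G
      · rw [if_pos hc, if_pos (key ξ ξ' hh hc)]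
      · rw [if_neg hc, if_neg]
        intro hc'
        exact hc (key ξ' ξ (fun e he => (hh e he).symm) hc')
    · intro ξ ξ' hh
      refine Ex_congr fun η => ?_
      have hcl : ∀ x, cl ends (orc ξ η) ((G : Set V)ᶜ) x = cl ends (orc ξ' η) ((G : Set V)ᶜ) x := by
        intro x
        refine cl_dep fun e a b h3 h4 h5 => ?_
        unfold orc
        rw [hh e]
        rintro ⟨a', b', h6, h7⟩
        rw [h3] at h6
        rcases Sym2.eq_iff.1 h6 with ⟨rfl, rfl⟩ | ⟨rfl, rfl⟩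
        · exact h4 (Finset.mem_coe.2 h7)
        · exact h5 (Finset.mem_coe.2 h7)
      have hD : Dst ends (orc ξ η) ((G : Set V)ᶜ) h X ↔ Dst ends (orc ξ' η) ((G : Set V)ᶜ) h X := by
        unfold Dst
        simp only [hcl]
      exact if_congr hD rfl rfl
  refine le_trans (Finset.sum_le_sum fun G _ => h2 G) ?_
  rw [← Finset.sum_mul]

/-- One box: not `BadE2`, and both sets have a large volume. -/
def Sh1 (ends : E → Sym2 V) (W : Finset V) (k2 A2 β : ℝ) (kk κ j : ℕ) (ω : E → Bool) (Γ K : Finset V) : Prop :=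
  ¬ BadE2 ends ω W k2 A2 β kk κ j ∧ β ≤ vol ends ω W A2 Γ ∧ β ≤ vol ends ω W A2 K

/-- Row B3. `box_pt1` (Y/Fa.lean) with `φ = id`, `ψ = id` (`Emb ends ends id id`, `pre id U = U`, `pl id ω = ω`). -/
lemma box_o {ω : E → Bool} {W : Finset V} {k2 A2 β : ℝ} {kk κ j : ℕ} (hk2 : 0 < k2) (hkA : k2 ≤ A2)
    (hB : ¬ BadE2 ends ω W k2 A2 β kk κ j) (K Γ : Finset V) (hK : Ful ends ω K) (hΓ : Ful ends ω Γ) (hKΓ : Disjoint K Γ)
    (vK : β ≤ vol ends ω W A2 K) (vΓ : β ≤ vol ends ω W A2 Γ) :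
    kk < eb ends K Γ ∨ ∃ 𝒟 : Finset (Finset V), 2 * j ≤ 𝒟.card ∧
      (∀ D ∈ 𝒟, Disjoint D K ∧ Disjoint D Γ ∧ κ ≤ eb ends D K ∧ κ ≤ eb ends D Γ ∧ ∃ v, D ⊆ cu ends ω v) ∧
      ∀ D ∈ 𝒟, ∀ D' ∈ 𝒟, D ≠ D' → Disjoint D D' := by
  have hem : Emb ends ends (id : V → V) (id : E → E) :=
    ⟨Function.injective_id, Function.injective_id, fun e => by rw [Sym2.map_id]; rfl⟩
  have hpre : ∀ U : Finset V, pre (id : V → V) U = U := by
    intro U
    unfold pre
    ext v
    simp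
  have hpl : pl (id : E → E) ω = ω := rfl
  have hmain := box_pt1 hem (k2 := k2) (A2 := A2) (β := β) (kk := kk) (κ := κ) (j := j) hk2 hkA ω W
    (by rw [hpl]; exact hB) K Γ hK hΓ hKΓ (by rw [hpre, hpl]; exact vK) (by rw [hpre, hpl]; exact vΓ)
  rw [hpre, hpre] at hmain
  rcases hmain with h | ⟨𝒟, h1, h2, h3⟩
  · exact Or.inl h
  · refine Or.inr ⟨𝒟, h1, fun D hD => ?_, h3⟩
    obtain ⟨-, -, h4, h5, h6, h7, h8⟩ := h2 D hD
    exact ⟨h4, h5, h6, h7, h8⟩

open scoped Classical in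
/-- Row B4. As `uniq_X` (Y/Fa.lean) with `box_o` for `box_many` (so `kk + 1` for `B * (kk + 1)`, `2 * j` for `2 * (B * j)`) and `hopX1` for `hopX`. -/
lemma uniq_X1 {s2 s3 : ℝ} (h20 : 0 ≤ s2) (h21 : s2 ≤ 1) (h30 : 0 ≤ s3) (h31 : s3 ≤ 1)
    {k2 A2 β h : ℝ} {kk κ j j1 : ℕ} (hk2 : 0 < k2) (hkA : k2 ≤ A2) (W : Finset V)
    (ω η1 : E → Bool) (y : V) (X : Finset V) :
    Ex s2 (fun η2 => Ex s3 (fun η3 => if y ∉ UC ends (orc (orc (orc ω η1) η2) η3) X ∧
      Dst ends (orc (orc (orc ω η1) η2) η3) Set.univ h X ∧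
      Sh1 ends W k2 A2 β kk κ j ω (cu ends (orc ω η1) y)
        (UC ends (orc (orc (orc ω η1) η2) η3) X) then (1 : ℝ) else 0)) ≤
      (1 - s3) ^ (min (kk + 1) (j1 * κ)) *
        Ex s2 (fun η2 => Ex s3 (fun η3 => if Dst ends (orc (orc (orc ω η1) η2) η3)
          ((cu ends (orc (orc ω η1) η2) y : Set V)ᶜ) h X then (1 : ℝ) else 0)) +
      2 ^ j1 * (1 - (1 - (1 - s2) ^ κ) / 2) ^ (2 * j) *
        Ex s2 (fun η2 => Ex s3 (fun η3 => if Disjoint (cu ends (orc ω η1) y) (UC ends (orc (orc (orc ω η1) η2) η3) X) ∧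
          Dst ends (orc (orc (orc ω η1) η2) η3) Set.univ h X then (1 : ℝ) else 0)) := by
  set ω1 := orc ω η1 with hω1
  set Γ1 := cu ends ω1 y with hΓ1
  set k : ℕ := min (kk + 1) (j1 * κ) with hk
  -- the condition on the value of the union of the clusters
  let P : Finset V → Prop := fun S => Ful ends ω S ∧ Disjoint S Γ1 ∧
    Sh1 ends W k2 A2 β kk κ j ω Γ1 S ∧ ¬ kk + 1 ≤ eb ends S Γ1
  have hG1 : Ful ends ω Γ1 := by
    intro v hv
    have h1 : cu ends ω v ⊆ cu ends ω1 v := cu_mono (orc_left ω η1)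
    rw [cu_eq hv] at h1
    exact h1
  have hex : ∀ S, P S → ∃ 𝒟 : Finset (Finset V), 2 * j ≤ 𝒟.card ∧
      (∀ D ∈ 𝒟, Disjoint D S ∧ Disjoint D Γ1 ∧ κ ≤ eb ends D S ∧ κ ≤ eb ends D Γ1 ∧
        ∃ v, D ⊆ cu ends ω v) ∧ ∀ D ∈ 𝒟, ∀ D' ∈ 𝒟, D ≠ D' → Disjoint D D' := by
    intro S hS
    obtain ⟨h1, h2, ⟨h3, h4, h5⟩, h6⟩ := hS
    rcases box_o hk2 hkA h3 S Γ1 h1 hG1 h2 h5 h4 with h7 | h7
    · exact absurd h7 h6
    · exact h7
  let 𝒟 : Finset V → Finset (Finset V) := fun S => if h : P S then (hex S h).choose else ∅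
  have hDpos : ∀ S (h : P S), 𝒟 S = (hex S h).choose := fun S h => dif_pos h
  have hDneg : ∀ S, ¬ P S → 𝒟 S = ∅ := fun S h => dif_neg h
  have hDall : ∀ S, ∀ D ∈ 𝒟 S, Disjoint D S ∧ Disjoint D Γ1 ∧ κ ≤ eb ends D S ∧
      κ ≤ eb ends D Γ1 ∧ ∃ v, D ⊆ cu ends ω v := by
    intro S D hD
    by_cases h : P S
    · rw [hDpos S h] at hD
      exact (hex S h).choose_spec.2.1 D hD
    · rw [hDneg S h] at hD
      exact absurd hD (Finset.notMem_empty D)
  have hDdis : ∀ S, ∀ D ∈ 𝒟 S, ∀ D' ∈ 𝒟 S, D ≠ D' → Disjoint D D' := by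
    intro S D hD D' hD'
    by_cases h : P S
    · rw [hDpos S h] at hD hD'
      exact (hex S h).choose_spec.2.2 D hD D' hD'
    · rw [hDneg S h] at hD
      exact absurd hD (Finset.notMem_empty D)
  have horc : ∀ η2 η3 : E → Bool, orc (orc ω1 η3) η2 = orc (orc ω1 η2) η3 := by
    intro η2 η3
    funext e
    simp only [orc]
    rw [Bool.or_assoc, Bool.or_assoc, Bool.or_comm (η3 e) (η2 e)]
  -- the two events
  let fA : (E → Bool) → (E → Bool) → ℝ := fun η2 η3 =>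
    if Dst ends (orc (orc ω1 η2) η3) ((cu ends (orc ω1 η2) y : Set V)ᶜ) h X ∧
        k ≤ eb ends (cu ends (orc ω1 η2) y)
          (UCl ends (orc (orc ω1 η2) η3) ((cu ends (orc ω1 η2) y : Set V)ᶜ) X) ∧
        (∀ e, (∃ u ∈ cu ends (orc ω1 η2) y,
          ∃ v ∈ UCl ends (orc (orc ω1 η2) η3) ((cu ends (orc ω1 η2) y : Set V)ᶜ) X,
            ends e = s(u, v)) → η3 e = false) then (1 : ℝ) else 0
  let fB : (E → Bool) → (E → Bool) → ℝ := fun η2 η3 =>
    if Disjoint Γ1 (UC ends (orc (orc ω1 η3) η2) X) ∧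
      Dst ends (orc (orc ω1 η3) η2) Set.univ h X ∧
      2 * j ≤ (𝒟 (UC ends (orc (orc ω1 η3) η2) X)).card ∧
      ((𝒟 (UC ends (orc (orc ω1 η3) η2) X)).filter (fun D => Opn ends η2 D Γ1)).card < j1
      then (1 : ℝ) else 0
  have hpt : ∀ η2 η3 : E → Bool, (if y ∉ UC ends (orc (orc ω1 η2) η3) X ∧
      Dst ends (orc (orc ω1 η2) η3) Set.univ h X ∧
      Sh1 ends W k2 A2 β kk κ j ω Γ1 (UC ends (orc (orc ω1 η2) η3) X)
        then (1 : ℝ) else 0) ≤ fA η2 η3 + fB η2 η3 := by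
    intro η2 η3
    have hA0 : 0 ≤ fA η2 η3 := by
      simp only [fA]; split_ifs <;> norm_num
    have hB0 : 0 ≤ fB η2 η3 := by
      simp only [fB]; split_ifs <;> norm_num
    split_ifs with hc
    swap
    · exact add_nonneg hA0 hB0
    obtain ⟨hx, hD, hSh⟩ := hc
    set bt := orc (orc ω1 η2) η3 with hbt
    set Γ := cu ends (orc ω1 η2) y with hΓ
    have hΓb : Γ ⊆ cu ends bt y := cu_mono (orc_left (orc ω1 η2) η3)
    have hΓ1Γ : Γ1 ⊆ Γ := cu_mono (orc_left ω1 η2)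
    have hyx : ∀ x ∈ X, y ∉ cu ends bt x := by
      intro x hxX hyc
      exact hx (Finset.mem_biUnion.2 ⟨x, hxX, hyc⟩)
    have hdisb : Disjoint (cu ends bt y) (UC ends bt X) := by
      unfold UC
      rw [Finset.disjoint_biUnion_right]
      intro x hxX
      exact (cu_disj (hyx x hxX)).symm
    have hdisΓ : Disjoint Γ (UC ends bt X) := Disjoint.mono_left hΓb hdisb
    have hdisΓ1 : Disjoint Γ1 (UC ends bt X) := Disjoint.mono_left hΓ1Γ hdisΓ
    have hsubX : ∀ x ∈ X, cu ends bt x ⊆ UC ends bt X := fun x hxX z hz =>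
      Finset.mem_biUnion.2 ⟨x, hxX, hz⟩
    have hcl : ∀ x ∈ X, cl ends bt ((Γ : Set V)ᶜ) x = cu ends bt x := by
      intro x hxX
      have hsub : ∀ z, Rch ends bt Set.univ x z → z ∉ Γ := by
        intro z hz hzΓ
        exact Finset.disjoint_left.1 hdisΓ hzΓ (hsubX x hxX (mem_cu.2 hz))
      apply Finset.Subset.antisymm
      · exact cl_mono (fun _ h => h) (Set.subset_univ _)
      · intro z hz
        rw [mem_cu] at hz
        rw [mem_cl]
        induction hz with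
        | refl => exact Rch.refl x
        | @tail c d hxc hcd ih =>
          have hxd : Rch ends bt Set.univ x d := Relation.ReflTransGen.tail hxc hcd
          obtain ⟨-, -, e, h3, h4⟩ := hcd
          exact Relation.ReflTransGen.tail ih ⟨hsub c hxc, hsub d hxd, e, h3, h4⟩
    have hUCl : UCl ends bt ((Γ : Set V)ᶜ) X = UC ends bt X := by
      unfold UCl UC
      exact Finset.biUnion_congr rfl hcl
    have hDst : Dst ends bt ((Γ : Set V)ᶜ) h X := by
      refine ⟨?_, ?_⟩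
      · intro x hxX
        refine ⟨?_, ?_⟩
        · intro hxΓ
          exact Finset.disjoint_left.1 hdisΓ (Finset.mem_coe.1 hxΓ)
            (hsubX x hxX (self_mem_cu bt x))
        · rw [hcl x hxX]
          exact (hD.1 x hxX).2
      · intro x hxX x' hx'X hne
        rw [hcl x hxX]
        exact hD.2 x hxX x' hx'X hne
    have hA1 : k ≤ eb ends Γ (UC ends bt X) → fA η2 η3 = 1 := by
      intro hkle
      simp only [fA]
      rw [if_pos]
      rw [← hbt, ← hΓ, hUCl]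
      refine ⟨hDst, hkle, ?_⟩
      rintro e ⟨u, hu, v, hv, he⟩
      by_contra hw
      rw [Bool.not_eq_false] at hw
      have h3 : bt e = true := orc_right (orc ω1 η2) η3 e hw
      have h4 : u ∈ cu ends bt y := hΓb hu
      obtain ⟨x, hxX, hvx⟩ := Finset.mem_biUnion.1 hv
      apply hyx x hxX
      rw [mem_cu] at h4 hvx ⊢
      have h5 : Rch ends bt Set.univ u v :=
        Relation.ReflTransGen.single ⟨Set.mem_univ _, Set.mem_univ _, e, h3, he⟩
      exact (hvx.trans h5.symm).trans h4.symm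
    by_cases hkk : kk + 1 ≤ eb ends (UC ends bt X) Γ1
    · have h1 : k ≤ eb ends Γ (UC ends bt X) := by
        have h2 : eb ends (UC ends bt X) Γ1 ≤ eb ends Γ (UC ends bt X) := by
          rw [eb_symm Γ (UC ends bt X)]
          exact eb_mono (Finset.Subset.refl _) hΓ1Γ
        exact (min_le_left _ _).trans (hkk.trans h2)
      rw [hA1 h1]
      linarith
    · have hPx : P (UC ends bt X) := by
        refine ⟨?_, hdisΓ1.symm, hSh, hkk⟩
        intro v hv
        obtain ⟨x, hxX, hvx⟩ := Finset.mem_biUnion.1 hv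
        have h1 : cu ends ω v ⊆ cu ends bt v :=
          cu_mono (fun e he => orc_left (orc ω1 η2) η3 e (orc_left ω1 η2 e (orc_left ω η1 e he)))
        rw [cu_eq hvx] at h1
        exact h1.trans (hsubX x hxX)
      have hcard : 2 * j ≤ (𝒟 (UC ends bt X)).card := by
        rw [hDpos _ hPx]
        exact (hex _ hPx).choose_spec.1
      by_cases hlt : ((𝒟 (UC ends bt X)).filter (fun D => Opn ends η2 D Γ1)).card < j1
      · have h1 : fB η2 η3 = 1 := by
          simp only [fB]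
          rw [horc η2 η3, ← hbt]
          rw [if_pos ⟨hdisΓ1, hD, hcard, hlt⟩]
        rw [h1]
        linarith
      · rw [not_lt] at hlt
        have h1 : ((𝒟 (UC ends bt X)).filter (fun D => Opn ends η2 D Γ1)).card * κ ≤
            eb ends Γ (UC ends bt X) := by
          apply eb_join
          · intro D hD
            exact (hDall _ D (Finset.mem_filter.1 hD).1).1
          · intro D hD
            obtain ⟨hD1, hD2⟩ := Finset.mem_filter.1 hD
            obtain ⟨v, hv⟩ := (hDall _ D hD1).2.2.2.2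
            exact joined ⟨v, hv.trans (cu_mono (orc_left ω η1))⟩ hD2
          · intro D hD D' hD'
            exact hDdis _ D (Finset.mem_filter.1 hD).1 D' (Finset.mem_filter.1 hD').1
          · intro D hD
            exact (hDall _ D (Finset.mem_filter.1 hD).1).2.2.1
        have h2 : k ≤ eb ends Γ (UC ends bt X) :=
          (min_le_right _ _).trans ((Nat.mul_le_mul_right κ hlt).trans h1)
        rw [hA1 h2]
        linarith
  have hA : Ex s2 (fun η2 => Ex s3 (fun η3 => fA η2 η3)) ≤ (1 - s3) ^ k *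
      Ex s2 (fun η2 => Ex s3 (fun η3 => if Dst ends (orc (orc ω1 η2) η3)
          ((cu ends (orc ω1 η2) y : Set V)ᶜ) h X then (1 : ℝ) else 0)) := by
    rw [← Ex_mul_left]
    apply Ex_mono h20 h21
    intro η2
    exact cutX h30 h31 (orc ω1 η2) (cu ends (orc ω1 η2) y) k h X
  have hB : Ex s2 (fun η2 => Ex s3 (fun η3 => fB η2 η3)) ≤
      2 ^ j1 * (1 - (1 - (1 - s2) ^ κ) / 2) ^ (2 * j) *
      Ex s2 (fun η2 => Ex s3 (fun η3 => if Disjoint Γ1 (UC ends (orc (orc ω1 η2) η3) X) ∧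
        Dst ends (orc (orc ω1 η2) η3) Set.univ h X then (1 : ℝ) else 0)) := by
    rw [Ex_swap s2 s3 (fun η2 η3 => fB η2 η3), Ex_swap s2 s3 (fun η2 η3 =>
      if Disjoint Γ1 (UC ends (orc (orc ω1 η2) η3) X) ∧
        Dst ends (orc (orc ω1 η2) η3) Set.univ h X then (1 : ℝ) else 0), ← Ex_mul_left]
    apply Ex_mono h30 h31
    intro η3
    refine (hopX1 h20 h21 (orc ω1 η3) X Γ1 𝒟 κ (2 * j) j1 (fun S D hD => (hDall S D hD).1)
      (fun S D hD => (hDall S D hD).2.1) hDdis (fun S D hD => (hDall S D hD).2.2.2.1)).trans ?_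
    apply le_of_eq
    congr 1
    apply Ex_congr
    intro η2
    rw [horc η2 η3]
  have hmain := Ex_mono h20 h21 (fun η2 => Ex_mono h30 h31 (fun η3 => hpt η2 η3))
  refine hmain.trans ?_
  have hsplit : Ex s2 (fun η2 => Ex s3 (fun η3 => fA η2 η3 + fB η2 η3)) =
      Ex s2 (fun η2 => Ex s3 (fun η3 => fA η2 η3)) + Ex s2 (fun η2 => Ex s3 (fun η3 => fB η2 η3)) := by
    rw [← Ex_add]
    apply Ex_congr
    intro η2
    rw [Ex_add]
  rw [hsplit]
  exact add_le_add hA hB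

private lemma B5_ins {ω β : E → Bool} {y : V} {X : Finset V} {h t : ℝ} (hht : h ≤ t)
    (hω : ∀ e, ω e = true → β e = true) (ht : t ≤ cz ends ω y)
    (hD : Disjoint (cu ends ω y) (UC ends β X)) (hX : Dst ends β Set.univ h X) :
    y ∉ X ∧ Dst ends β Set.univ h (insert y X) := by
  have hy : y ∉ UC ends β X := fun h1 => Finset.disjoint_left.1 hD (self_mem_cu ω y) h1
  have hyx : ∀ x ∈ X, y ∉ cu ends β x := fun x hx h1 => hy (Finset.mem_biUnion.2 ⟨x, hx, h1⟩)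
  have hyX : y ∉ X := fun h1 => hyx y h1 (self_mem_cu β y)
  refine ⟨hyX, ?_, ?_⟩
  · intro x hx
    rcases Finset.mem_insert.1 hx with rfl | hx
    · refine ⟨Set.mem_univ _, ?_⟩
      have h2 : cz ends ω x ≤ cz ends β x := cz_mono hω
      have h3 : h ≤ cz ends β x := hht.trans (ht.trans h2)
      exact h3
    · exact hX.1 x hx
  · intro x hx x' hx' hne
    rcases Finset.mem_insert.1 hx with rfl | hx1
    · rcases Finset.mem_insert.1 hx' with rfl | hx'1
      · exact absurd rfl hne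
      · intro h4
        have h5 : x' ∈ cu ends β x := h4
        exact hyx x' hx'1 (cu_symm.1 h5)
    · rcases Finset.mem_insert.1 hx' with rfl | hx'1
      · exact hyx x hx1
      · exact hX.2 x hx1 x' hx'1 hne

open scoped Classical in
/-- Row B5. Expectation of `uniq_X1` over `ω`, `η1`, times `1[t ≤ |cu (orc ω η1) y|]`, `h ≤ t` (compare `uniq_XE`). First term: `cz (orc ω η1) y ≤ cz ξ y`, `ξ = orc (orc ω η1) η2` (`Ex_orc` twice), `Dst_fresh1`, and
`P(t ≤ cz ξ y) ≤ P_q(h ≤ cz y) ≤ f` (`cz` increases with the sprinkling: `Ex_orc`). Second term: if `Disjoint (cu (orc ω η1) y) (UC β X)`, `Dst β univ h X` and `t ≤ cz (orc ω η1) y` then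
`y ∉ X` and `Dst β univ h (insert y X)` (`y ∉ cl β univ x`, symmetric), so `Dst_le` gives `f^(|X|+1)`. -/
lemma uniq_XE1 {p s1 s2 s3 f : ℝ} (h0 : 0 ≤ p) (h1 : p ≤ 1) (h10 : 0 ≤ s1) (h11 : s1 ≤ 1) (h20 : 0 ≤ s2)
    (h21 : s2 ≤ 1) (h30 : 0 ≤ s3) (h31 : s3 ≤ 1)
    {k2 A2 β h t : ℝ} {kk κ j j1 : ℕ} (hk2 : 0 < k2) (hkA : k2 ≤ A2) (hht : h ≤ t) (W : Finset V)
    (hf : ∀ x, Ex (1 - (1 - p) * (1 - s1) * (1 - s2) * (1 - s3)) (fun ω =>
      if h ≤ cz ends ω x then (1 : ℝ) else 0) ≤ f) (y : V) (X : Finset V) :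
    Ex p (fun ω => Ex s1 (fun η1 => Ex s2 (fun η2 => Ex s3 (fun η3 =>
      if t ≤ cz ends (orc ω η1) y ∧ y ∉ UC ends (orc (orc (orc ω η1) η2) η3) X ∧
      Dst ends (orc (orc (orc ω η1) η2) η3) Set.univ h X ∧
      Sh1 ends W k2 A2 β kk κ j ω (cu ends (orc ω η1) y)
        (UC ends (orc (orc (orc ω η1) η2) η3) X) then (1 : ℝ) else 0)))) ≤
      ((1 - s3) ^ (min (kk + 1) (j1 * κ)) +
        2 ^ j1 * (1 - (1 - (1 - s2) ^ κ) / 2) ^ (2 * j)) * f ^ (X.card + 1) := by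
  obtain ⟨a, ha⟩ : ∃ a : ℝ, a = (1 - s3) ^ (min (kk + 1) (j1 * κ)) := ⟨_, rfl⟩
  obtain ⟨b, hb⟩ : ∃ b : ℝ, b = 2 ^ j1 * (1 - (1 - (1 - s2) ^ κ) / 2) ^ (2 * j) := ⟨_, rfl⟩
  have ha0 : 0 ≤ a := by rw [ha]; exact pow_nonneg (by linarith) _
  have hb0 : 0 ≤ b := by
    rw [hb]
    have h5 : 0 ≤ (1 - s2) ^ κ := pow_nonneg (by linarith) _
    exact mul_nonneg (by positivity) (pow_nonneg (by linarith) _)
  obtain ⟨F, hF⟩ : ∃ F : (E → Bool) → ℝ, F = fun ξ => (if t ≤ cz ends ξ y then (1 : ℝ) else 0) *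
      Ex s3 (fun η3 =>
      if Dst ends (orc ξ η3) ((cu ends ξ y : Set V)ᶜ) h X then (1 : ℝ) else 0) := ⟨_, rfl⟩
  obtain ⟨G, hG⟩ : ∃ G : (E → Bool) → ℝ, G = fun ξ =>
      if y ∉ X ∧ Dst ends ξ Set.univ h (insert y X) then (1 : ℝ) else 0 := ⟨_, rfl⟩
  have hF0 : ∀ ξ, 0 ≤ F ξ := by
    intro ξ
    rw [hF]
    refine mul_nonneg ?_ (Ex_nonneg h30 h31 fun η => ?_)
    · split_ifs
      · exact zero_le_one
      · exact le_refl _
    · split_ifs
      · exact zero_le_one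
      · exact le_refl _
  have hG0 : ∀ ξ, 0 ≤ G ξ := by
    intro ξ
    rw [hG]
    simp only
    split_ifs
    · exact zero_le_one
    · exact le_refl _
  have hp1 : 0 ≤ (1 - p) * (1 - s1) := mul_nonneg (by linarith) (by linarith)
  have hp1' : (1 - p) * (1 - s1) ≤ 1 := mul_le_one₀ (by linarith) (by linarith) (by linarith)
  have hp2 : 0 ≤ (1 - p) * (1 - s1) * (1 - s2) := mul_nonneg hp1 (by linarith)
  have hp2' : (1 - p) * (1 - s1) * (1 - s2) ≤ 1 := mul_le_one₀ hp1' (by linarith) (by linarith)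
  have hp3 : 0 ≤ (1 - p) * (1 - s1) * (1 - s2) * (1 - s3) := mul_nonneg hp2 (by linarith)
  have hp3' : (1 - p) * (1 - s1) * (1 - s2) * (1 - s3) ≤ 1 :=
    mul_le_one₀ hp2' (by linarith) (by linarith)
  have hf0 : 0 ≤ f := by
    refine le_trans (Ex_nonneg (by linarith) (by linarith) fun ω => ?_) (hf y)
    split_ifs
    · exact zero_le_one
    · exact le_refl _
  have e1 : ∀ H : (E → Bool) → ℝ, Ex (1 - (1 - p) * (1 - s1) * (1 - s2)) H =
      Ex p (fun ω => Ex s1 (fun η1 => Ex s2 (fun η2 => H (orc (orc ω η1) η2)))) := by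
    intro H
    have h5 : 1 - (1 - p) * (1 - s1) * (1 - s2) =
        1 - (1 - (1 - (1 - p) * (1 - s1))) * (1 - s2) := by ring
    rw [h5, Ex_orc (1 - (1 - p) * (1 - s1)) s2 H, Ex_orc p s1]
  have e3 : ∀ H : (E → Bool) → ℝ, Ex (1 - (1 - p) * (1 - s1) * (1 - s2) * (1 - s3)) H =
      Ex (1 - (1 - p) * (1 - s1) * (1 - s2)) (fun ξ => Ex s3 (fun η3 => H (orc ξ η3))) := by
    intro H
    have h5 : 1 - (1 - p) * (1 - s1) * (1 - s2) * (1 - s3) =
        1 - (1 - (1 - (1 - p) * (1 - s1) * (1 - s2))) * (1 - s3) := by ring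
    rw [h5, Ex_orc (1 - (1 - p) * (1 - s1) * (1 - s2)) s3 H]
  have e2 : ∀ H : (E → Bool) → ℝ, Ex (1 - (1 - p) * (1 - s1) * (1 - s2) * (1 - s3)) H =
      Ex p (fun ω => Ex s1 (fun η1 => Ex s2 (fun η2 => Ex s3 (fun η3 =>
        H (orc (orc (orc ω η1) η2) η3))))) := by
    intro H
    rw [e3, e1]
  have hq : Ex (1 - (1 - p) * (1 - s1) * (1 - s2)) (fun ξ : E → Bool =>
      if t ≤ cz ends ξ y then (1 : ℝ) else 0) ≤ f := by
    refine le_trans ?_ (hf y)
    rw [e3]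
    refine Ex_mono (by linarith) (by linarith) fun ξ => ?_
    by_cases hc : t ≤ cz ends ξ y
    · rw [if_pos hc]
      have h6 : Ex s3 (fun η3 : E → Bool => if h ≤ cz ends (orc ξ η3) y then (1 : ℝ) else 0) =
          Ex s3 (fun _ : E → Bool => (1 : ℝ)) := by
        refine Ex_congr fun η3 => ?_
        have h7 : cz ends ξ y ≤ cz ends (orc ξ η3) y := cz_mono (orc_left ξ η3)
        rw [if_pos (hht.trans (hc.trans h7))]
      rw [h6, Ex_const]
    · rw [if_neg hc]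
      refine Ex_nonneg h30 h31 fun η => ?_
      split_ifs
      · exact zero_le_one
      · exact le_refl _
  have b1 : Ex p (fun ω => Ex s1 (fun η1 => Ex s2 (fun η2 => F (orc (orc ω η1) η2)))) ≤
      f ^ (X.card + 1) := by
    rw [← e1, hF]
    have h6 := Dst_fresh1 (ends := ends) (p := 1 - (1 - p) * (1 - s1) * (1 - s2)) (s := s3)
      (h := h) (f := f) (t := t) (by linarith) (by linarith) h30 h31 (fun x => by
        have h5 : 1 - (1 - (1 - (1 - p) * (1 - s1) * (1 - s2))) * (1 - s3) =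
          1 - (1 - p) * (1 - s1) * (1 - s2) * (1 - s3) := by ring
        rw [h5]
        exact hf x) y X
    refine h6.trans ?_
    rw [pow_succ, mul_comm (f ^ X.card) f]
    exact mul_le_mul_of_nonneg_right hq (pow_nonneg hf0 _)
  have b2 : Ex p (fun ω => Ex s1 (fun η1 => Ex s2 (fun η2 => Ex s3 (fun η3 =>
      G (orc (orc (orc ω η1) η2) η3))))) ≤ f ^ (X.card + 1) := by
    rw [← e2, hG]
    by_cases hyX : y ∈ X
    · refine le_trans (le_of_eq (Ex_zero_of fun ξ => ?_)) (pow_nonneg hf0 _)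
      rw [if_neg (fun hc => hc.1 hyX)]
    · rw [← Finset.card_insert_of_notMem hyX]
      refine le_trans (le_of_eq (Ex_congr fun ξ => ?_))
        (Dst_le (by linarith) (by linarith) hf Set.univ (insert y X))
      exact if_congr ⟨fun hc => hc.2, fun hc => ⟨hyX, hc⟩⟩ rfl rfl
  have key : ∀ ω η1 : E → Bool, Ex s2 (fun η2 => Ex s3 (fun η3 =>
      if t ≤ cz ends (orc ω η1) y ∧ y ∉ UC ends (orc (orc (orc ω η1) η2) η3) X ∧
      Dst ends (orc (orc (orc ω η1) η2) η3) Set.univ h X ∧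
      Sh1 ends W k2 A2 β kk κ j ω (cu ends (orc ω η1) y)
        (UC ends (orc (orc (orc ω η1) η2) η3) X) then (1 : ℝ) else 0)) ≤
      a * Ex s2 (fun η2 => F (orc (orc ω η1) η2)) +
      b * Ex s2 (fun η2 => Ex s3 (fun η3 => G (orc (orc (orc ω η1) η2) η3))) := by
    intro ω η1
    by_cases hc : t ≤ cz ends (orc ω η1) y
    · have h5 := uniq_X1 (ends := ends) (h := h) (β := β) (kk := kk) (κ := κ) (j := j) (j1 := j1)
        h20 h21 h30 h31 hk2 hkA W ω η1 y X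
      rw [← ha, ← hb] at h5
      refine le_trans (le_of_eq (Ex_congr fun η2 => Ex_congr fun η3 => ?_)) (h5.trans ?_)
      · exact if_congr ⟨fun h6 => h6.2, fun h6 => ⟨hc, h6⟩⟩ rfl rfl
      · refine add_le_add (mul_le_mul_of_nonneg_left ?_ ha0) (mul_le_mul_of_nonneg_left ?_ hb0)
        · refine Ex_mono h20 h21 fun η2 => ?_
          have h7 : cz ends (orc ω η1) y ≤ cz ends (orc (orc ω η1) η2) y :=
            cz_mono (orc_left (orc ω η1) η2)
          rw [hF]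
          simp only
          rw [if_pos (hc.trans h7), one_mul]
        · refine Ex_mono h20 h21 fun η2 => Ex_mono h30 h31 fun η3 => ?_
          by_cases h8 : Disjoint (cu ends (orc ω η1) y) (UC ends (orc (orc (orc ω η1) η2) η3) X) ∧
              Dst ends (orc (orc (orc ω η1) η2) η3) Set.univ h X
          · rw [if_pos h8, hG]
            simp only
            rw [if_pos (B5_ins hht (fun e he => orc_left (orc (orc ω η1) η2) η3 e
              (orc_left (orc ω η1) η2 e he)) hc h8.1 h8.2)]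
          · rw [if_neg h8]
            exact hG0 _
    · refine le_trans (le_of_eq (Ex_zero_of fun η2 => Ex_zero_of fun η3 => ?_)) ?_
      · rw [if_neg (fun h6 => hc h6.1)]
      · exact add_nonneg (mul_nonneg ha0 (Ex_nonneg h20 h21 fun η2 => hF0 _))
          (mul_nonneg hb0 (Ex_nonneg h20 h21 fun η2 => Ex_nonneg h30 h31 fun η3 => hG0 _))
  rw [← ha, ← hb]
  calc Ex p (fun ω => Ex s1 (fun η1 => Ex s2 (fun η2 => Ex s3 (fun η3 =>
      if t ≤ cz ends (orc ω η1) y ∧ y ∉ UC ends (orc (orc (orc ω η1) η2) η3) X ∧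
      Dst ends (orc (orc (orc ω η1) η2) η3) Set.univ h X ∧
      Sh1 ends W k2 A2 β kk κ j ω (cu ends (orc ω η1) y)
        (UC ends (orc (orc (orc ω η1) η2) η3) X) then (1 : ℝ) else 0))))
      ≤ Ex p (fun ω => Ex s1 (fun η1 => a * Ex s2 (fun η2 => F (orc (orc ω η1) η2)) +
          b * Ex s2 (fun η2 => Ex s3 (fun η3 => G (orc (orc (orc ω η1) η2) η3))))) :=
        Ex_mono h0 h1 fun ω => Ex_mono h10 h11 fun η1 => key ω η1
    _ = a * Ex p (fun ω => Ex s1 (fun η1 => Ex s2 (fun η2 => F (orc (orc ω η1) η2)))) +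
        b * Ex p (fun ω => Ex s1 (fun η1 => Ex s2 (fun η2 => Ex s3 (fun η3 =>
          G (orc (orc (orc ω η1) η2) η3))))) := by
        rw [← Ex_mul_left, ← Ex_mul_left, ← Ex_add]
        refine Ex_congr fun ω => ?_
        rw [← Ex_mul_left, ← Ex_mul_left, ← Ex_add]
    _ ≤ a * f ^ (X.card + 1) + b * f ^ (X.card + 1) :=
        add_le_add (mul_le_mul_of_nonneg_left b1 ha0) (mul_le_mul_of_nonneg_left b2 hb0)
    _ = (a + b) * f ^ (X.card + 1) := by ring

open scoped Classical in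
/-- Row B6. As `uniq_fam` (Y/Fa.lean), but the sum over `y` is weighted: if `t ≤ |cu (orc ω η1) (y0 ω η1)|` then `1 ≤ (1/t) ∑ y, 1[y ∈ cu (orc ω η1) (y0 ω η1)]`, and for these `y` the clusters
`cu (orc ω η1) y`, and `Fm (orc ..) h y`, are the same as for `y0` (`cu_eq`, `cu_mono`); `reps` for this `y`. So the probability is at most
`(1/t) ∑ y, ∑ X, (1/h)^|X| c f^(|X|+1) = (|V| f/t) c (1 + f/h)^|V|`. -/
theorem uniq_fam1 {p s1 s2 s3 f : ℝ} (h0 : 0 ≤ p) (h1 : p ≤ 1) (h10 : 0 ≤ s1) (h11 : s1 ≤ 1) (h20 : 0 ≤ s2)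
    (h21 : s2 ≤ 1) (h30 : 0 ≤ s3) (h31 : s3 ≤ 1)
    {k2 A2 β h t : ℝ} {kk κ j j1 : ℕ} (hk2 : 0 < k2) (hkA : k2 ≤ A2) (hh : 1 ≤ h) (hht : h ≤ t) (W : Finset V)
    (hf : ∀ x, Ex (1 - (1 - p) * (1 - s1) * (1 - s2) * (1 - s3)) (fun ω =>
      if h ≤ cz ends ω x then (1 : ℝ) else 0) ≤ f) (hf0 : 0 ≤ f)
    (y0 : (E → Bool) → (E → Bool) → V) :
    Ex p (fun ω => Ex s1 (fun η1 => Ex s2 (fun η2 => Ex s3 (fun η3 =>
      if t ≤ cz ends (orc ω η1) (y0 ω η1) ∧ Sh1 ends W k2 A2 β kk κ j ω (cu ends (orc ω η1) (y0 ω η1))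
        (Fm ends (orc (orc (orc ω η1) η2) η3) h (y0 ω η1)) then (1 : ℝ) else 0)))) ≤
      (Fintype.card V * f / t) * (((1 - s3) ^ (min (kk + 1) (j1 * κ)) +
        2 ^ j1 * (1 - (1 - (1 - s2) ^ κ) / 2) ^ (2 * j)) * (1 + f / h) ^ Fintype.card V) := by
  have hh0 : 0 < h := by linarith
  have ht0 : 0 < t := by linarith
  set c : ℝ := (1 - s3) ^ (min (kk + 1) (j1 * κ)) +
    2 ^ j1 * (1 - (1 - (1 - s2) ^ κ) / 2) ^ (2 * j) with hc
  set P : V → Finset V → (E → Bool) → (E → Bool) → (E → Bool) → (E → Bool) → Prop :=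
    fun y X ω η1 η2 η3 => t ≤ cz ends (orc ω η1) y ∧ y ∉ UC ends (orc (orc (orc ω η1) η2) η3) X ∧
      Dst ends (orc (orc (orc ω η1) η2) η3) Set.univ h X ∧
      Sh1 ends W k2 A2 β kk κ j ω (cu ends (orc ω η1) y)
        (UC ends (orc (orc (orc ω η1) η2) η3) X) with hP
  have hpt : ∀ ω η1 η2 η3 : E → Bool,
      (if t ≤ cz ends (orc ω η1) (y0 ω η1) ∧
        Sh1 ends W k2 A2 β kk κ j ω (cu ends (orc ω η1) (y0 ω η1))
        (Fm ends (orc (orc (orc ω η1) η2) η3) h (y0 ω η1)) then (1 : ℝ) else 0) ≤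
      (1 / t) * ∑ y : V, ∑ X ∈ (Finset.univ : Finset V).powerset, (1 / h) ^ X.card *
        (if P y X ω η1 η2 η3 then (1 : ℝ) else 0) := by
    intro ω η1 η2 η3
    have hnn : ∀ (y : V) (X : Finset V), 0 ≤ (1 / h) ^ X.card *
        (if P y X ω η1 η2 η3 then (1 : ℝ) else 0) := by
      intro y X
      refine mul_nonneg (pow_nonneg (one_div_nonneg.2 hh0.le) _) ?_
      split_ifs
      · exact zero_le_one
      · exact le_refl _
    split_ifs with hS
    · obtain ⟨hS1, hS2⟩ := hS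
      have key : ∀ y ∈ cu ends (orc ω η1) (y0 ω η1), (1 : ℝ) ≤
          ∑ X ∈ (Finset.univ : Finset V).powerset, (1 / h) ^ X.card *
            (if P y X ω η1 η2 η3 then (1 : ℝ) else 0) := by
        intro y hy
        have hcy : cu ends (orc ω η1) y = cu ends (orc ω η1) (y0 ω η1) := cu_eq hy
        have hzy : t ≤ cz ends (orc ω η1) y := by
          unfold cz at hS1 ⊢
          rw [hcy]
          exact hS1
        have hyb : y ∈ cu ends (orc (orc (orc ω η1) η2) η3) (y0 ω η1) :=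
          cu_mono (fun e he => orc_left _ η3 e (orc_left _ η2 e he)) hy
        have hcb : cu ends (orc (orc (orc ω η1) η2) η3) y =
            cu ends (orc (orc (orc ω η1) η2) η3) (y0 ω η1) := cu_eq hyb
        have hFm : Fm ends (orc (orc (orc ω η1) η2) η3) h y =
            Fm ends (orc (orc (orc ω η1) η2) η3) h (y0 ω η1) := by
          unfold Fm
          rw [hcb]
        have h2 := reps (ends := ends) (orc (orc (orc ω η1) η2) η3) hh y
        refine h2.trans (Finset.sum_le_sum fun X _ => ?_)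
        refine mul_le_mul_of_nonneg_left ?_ (pow_nonneg (one_div_nonneg.2 hh0.le) _)
        by_cases hX : y ∉ UC ends (orc (orc (orc ω η1) η2) η3) X ∧
            Dst ends (orc (orc (orc ω η1) η2) η3) Set.univ h X ∧
            UC ends (orc (orc (orc ω η1) η2) η3) X =
              Fm ends (orc (orc (orc ω η1) η2) η3) h y
        · have hX' : P y X ω η1 η2 η3 := by
            refine ⟨hzy, hX.1, hX.2.1, ?_⟩
            rw [hX.2.2, hFm, hcy]
            exact hS2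
          rw [if_pos hX, if_pos hX']
        · rw [if_neg hX]
          split_ifs
          · exact zero_le_one
          · exact le_refl _
      have h4 : t ≤ ∑ y : V, ∑ X ∈ (Finset.univ : Finset V).powerset, (1 / h) ^ X.card *
          (if P y X ω η1 η2 η3 then (1 : ℝ) else 0) := by
        calc t ≤ ((cu ends (orc ω η1) (y0 ω η1)).card : ℝ) := hS1
          _ = ∑ y ∈ cu ends (orc ω η1) (y0 ω η1), (1 : ℝ) := by simp
          _ ≤ ∑ y ∈ cu ends (orc ω η1) (y0 ω η1),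
              ∑ X ∈ (Finset.univ : Finset V).powerset, (1 / h) ^ X.card *
              (if P y X ω η1 η2 η3 then (1 : ℝ) else 0) := Finset.sum_le_sum key
          _ ≤ _ := Finset.sum_le_sum_of_subset_of_nonneg (Finset.subset_univ _)
              (fun y _ _ => Finset.sum_nonneg fun X _ => hnn y X)
      rw [one_div, inv_mul_eq_div, le_div_iff₀ ht0, one_mul]
      exact h4
    · exact mul_nonneg (one_div_nonneg.2 ht0.le)
        (Finset.sum_nonneg fun y _ => Finset.sum_nonneg fun X _ => hnn y X)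
  have hE : ∀ (y : V) (X : Finset V), Ex p (fun ω => Ex s1 (fun η1 => Ex s2 (fun η2 =>
      Ex s3 (fun η3 => if P y X ω η1 η2 η3 then (1 : ℝ) else 0)))) ≤ c * f ^ (X.card + 1) := by
    intro y X
    exact uniq_XE1 h0 h1 h10 h11 h20 h21 h30 h31 hk2 hkA hht W hf y X
  have hlin : Ex p (fun ω => Ex s1 (fun η1 => Ex s2 (fun η2 => Ex s3 (fun η3 =>
      (1 / t) * ∑ y : V, ∑ X ∈ (Finset.univ : Finset V).powerset, (1 / h) ^ X.card *
        (if P y X ω η1 η2 η3 then (1 : ℝ) else 0))))) =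
      (1 / t) * ∑ y : V, ∑ X ∈ (Finset.univ : Finset V).powerset, (1 / h) ^ X.card *
        Ex p (fun ω => Ex s1 (fun η1 => Ex s2 (fun η2 =>
          Ex s3 (fun η3 => if P y X ω η1 η2 η3 then (1 : ℝ) else 0)))) := by
    simp only [Ex_sum, Ex_mul_left]
  refine (Ex_mono h0 h1 fun ω => Ex_mono h10 h11 fun η1 => Ex_mono h20 h21 fun η2 =>
    Ex_mono h30 h31 fun η3 => hpt ω η1 η2 η3).trans ?_
  rw [hlin]
  have hsum : ∑ X ∈ (Finset.univ : Finset V).powerset, (f / h) ^ X.card =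
      (1 + f / h) ^ Fintype.card V := by
    have h5 := Finset.sum_pow_mul_eq_add_pow (f / h) 1 (Finset.univ : Finset V)
    simp only [one_pow, mul_one] at h5
    rw [h5, Finset.card_univ, add_comm]
  calc (1 / t) * ∑ y : V, ∑ X ∈ (Finset.univ : Finset V).powerset, (1 / h) ^ X.card *
        Ex p (fun ω => Ex s1 (fun η1 => Ex s2 (fun η2 =>
          Ex s3 (fun η3 => if P y X ω η1 η2 η3 then (1 : ℝ) else 0))))
      ≤ (1 / t) * ∑ y : V, ∑ X ∈ (Finset.univ : Finset V).powerset, (c * f) * (f / h) ^ X.card := by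
        refine mul_le_mul_of_nonneg_left ?_ (one_div_nonneg.2 ht0.le)
        refine Finset.sum_le_sum fun y _ => Finset.sum_le_sum fun X _ => ?_
        have h6 := mul_le_mul_of_nonneg_left (hE y X)
          (pow_nonneg (one_div_nonneg.2 hh0.le) X.card)
        refine h6.trans (le_of_eq ?_)
        rw [div_pow, div_pow, one_pow]
        ring
    _ = (Fintype.card V * f / t) * (c * (1 + f / h) ^ Fintype.card V) := by
        rw [Finset.sum_const, Finset.card_univ, nsmul_eq_mul, ← Finset.mul_sum, hsum]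
        ring

private lemma B7_pow {s : ℝ} (hs0 : 0 ≤ s) (hs1 : s ≤ 1) (k : ℕ) : (1 - s) ^ k ≤ Real.exp (-(s * k)) := by
  have h1 : 1 - s ≤ Real.exp (-s) := by
    have := Real.add_one_le_exp (-s)
    linarith
  calc (1 - s) ^ k ≤ Real.exp (-s) ^ k := pow_le_pow_left₀ (by linarith) h1 k
    _ = Real.exp (-(s * k)) := by
      rw [← Real.exp_nat_mul]
      congr 1
      ring

private lemma B7_two {s σ : ℝ} (hs0 : 0 ≤ s) (hs1 : s ≤ 1) (hσ : 0 < σ) (κ j : ℕ) (hκ : σ ≤ s * κ) :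
    ∃ j1 : ℕ, (1 - Real.exp (-σ)) * j - 1 ≤ (j1 : ℝ) ∧
      (2 : ℝ) ^ j1 * (1 - (1 - (1 - s) ^ κ) / 2) ^ (2 * j) ≤
        Real.exp (-((1 - Real.exp (-σ)) * j / 4)) := by
  have hj0 : (0 : ℝ) ≤ (j : ℝ) := Nat.cast_nonneg j
  have hx0 : 0 ≤ 1 - Real.exp (-σ) := by
    have h1 : Real.exp (-σ) ≤ 1 := Real.exp_le_one_iff.2 (by linarith)
    linarith
  have hpow : (1 - s) ^ κ ≤ Real.exp (-σ) :=
    (B7_pow hs0 hs1 κ).trans (Real.exp_le_exp.2 (by linarith))
  have hpow0 : 0 ≤ (1 - s) ^ κ := pow_nonneg (by linarith) κ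
  have hpow1 : (1 - s) ^ κ ≤ 1 := pow_le_one₀ (by linarith) (by linarith)
  refine ⟨⌊(1 - Real.exp (-σ)) * j⌋₊, ?_, ?_⟩
  · have h1 := Nat.lt_floor_add_one ((1 - Real.exp (-σ)) * (j : ℝ))
    linarith
  · have hb : (1 - (1 - (1 - s) ^ κ) / 2) ≤ Real.exp (-((1 - Real.exp (-σ)) / 2)) := by
      have h2 := Real.add_one_le_exp (-((1 - Real.exp (-σ)) / 2))
      linarith
    have hb2 : (1 - (1 - (1 - s) ^ κ) / 2) ^ (2 * j) ≤ Real.exp (-((1 - Real.exp (-σ)) * j)) := by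
      have h3 : (1 - (1 - (1 - s) ^ κ) / 2) ^ (2 * j) ≤
          Real.exp (-((1 - Real.exp (-σ)) / 2)) ^ (2 * j) :=
        pow_le_pow_left₀ (by linarith) hb _
      rw [← Real.exp_nat_mul] at h3
      refine h3.trans (le_of_eq ?_)
      congr 1
      push_cast
      ring
    have h2p : (2 : ℝ) ^ ⌊(1 - Real.exp (-σ)) * (j : ℝ)⌋₊ ≤
        Real.exp (Real.log 2 * ((1 - Real.exp (-σ)) * j)) := by
      have h4 : (2 : ℝ) ^ ⌊(1 - Real.exp (-σ)) * (j : ℝ)⌋₊ =
          Real.exp (⌊(1 - Real.exp (-σ)) * (j : ℝ)⌋₊ * Real.log 2) := by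
        rw [Real.exp_nat_mul, Real.exp_log (by norm_num)]
      rw [h4]
      refine Real.exp_le_exp.2 ?_
      have h5 : ((⌊(1 - Real.exp (-σ)) * (j : ℝ)⌋₊ : ℕ) : ℝ) ≤ (1 - Real.exp (-σ)) * j :=
        Nat.floor_le (mul_nonneg hx0 hj0)
      have h6 : 0 ≤ Real.log 2 := Real.log_nonneg (by norm_num)
      rw [mul_comm]
      exact mul_le_mul_of_nonneg_left h5 h6
    have hl2 : Real.log 2 ≤ 3 / 4 := by
      have h7 := Real.log_two_lt_d9
      linarith
    have hxj : 0 ≤ (1 - Real.exp (-σ)) * (j : ℝ) := mul_nonneg hx0 hj0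
    calc (2 : ℝ) ^ ⌊(1 - Real.exp (-σ)) * (j : ℝ)⌋₊ * (1 - (1 - (1 - s) ^ κ) / 2) ^ (2 * j)
        ≤ Real.exp (Real.log 2 * ((1 - Real.exp (-σ)) * j)) *
          Real.exp (-((1 - Real.exp (-σ)) * j)) := by
          refine mul_le_mul h2p hb2 (pow_nonneg (by linarith) _) (Real.exp_pos _).le
      _ = Real.exp (Real.log 2 * ((1 - Real.exp (-σ)) * j) + -((1 - Real.exp (-σ)) * j)) :=
          (Real.exp_add _ _).symm
      _ ≤ Real.exp (-((1 - Real.exp (-σ)) * j / 4)) := by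
          refine Real.exp_le_exp.2 ?_
          nlinarith

/-- Row B7 (numbers). Put `N = v/χ³` and `K = χ e`, `K0 ≤ K ≤ K1`. As `fam_small` (Y/Cf.lean): `σ = K0 c3/4`, `x = 1 - exp (-σ)`; `(e/4) κ ≥ (K0/4) c3 = σ`; `two_hop_const` (Y/Kd.lean) gives `j1 ≥ x j - 1` with second term at most
`exp (-(x j/4))`, `j ≥ c3 N`; `(e/4)(kk+1) ≥ (K0/4) c3 N = σ N`; `(e/4) j1 κ ≥ σ j1 ≥ σ x c3 N - σ`. So the sum of the two terms is at most `2 exp (σ - c4 N)`, `c4 = min σ (min (σ x c3) (x c3/4))`.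
`f = C (1/√h + e) ≤ 2 C e` for `h ≥ A1/e²`, `A1 ≥ 1`; `f/h ≤ 2 C e³/A1`, `v f/h ≤ 2 C K1³ N/A1 ≤ c4 N/2` for `A1 = max 1 (4 C K1³/c4)`; `(1 + f/h)^n ≤ exp (n f/h)`, `n = v`. And
`v f/t ≤ v 2 C e/(b v/χ) ≤ 2 C K1/b`. It remains `(2 C K1/b) 2 exp (σ - c4 N/2) ≤ δ` for `N ≥ A0`. -/
lemma num_fam (C c3 K0 K1 b δ : ℝ) (hC : 1 ≤ C) (hc3 : 0 < c3) (hK0 : 0 < K0) (hK1 : K0 ≤ K1) (hb : 0 < b) (hδ : 0 < δ) :
    ∃ A1 A0 : ℝ, 1 ≤ A1 ∧ 1 ≤ A0 ∧ ∀ (χ e h t : ℝ) (v kk κ j : ℕ), 1 ≤ χ → 0 < e → e ≤ 1 → K0 ≤ χ * e → χ * e ≤ K1 →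
      A0 * χ ^ 3 ≤ v → A1 / e ^ 2 ≤ h → b * v / χ ≤ t → c3 * v / χ ^ 3 ≤ j → c3 * χ ≤ κ → c3 * v / χ ^ 2 ≤ kk →
      ∃ j1 : ℕ, (v * (C * (1 / Real.sqrt h + e)) / t) * (((1 - e / 4) ^ (min (kk + 1) (j1 * κ)) +
        2 ^ j1 * (1 - (1 - (1 - e / 4) ^ κ) / 2) ^ (2 * j)) *
          (1 + C * (1 / Real.sqrt h + e) / h) ^ v) ≤ δ := by
  obtain ⟨σ, hσd⟩ : ∃ σ : ℝ, σ = K0 * c3 / 4 := ⟨_, rfl⟩
  have hσ : 0 < σ := by rw [hσd]; positivity
  obtain ⟨x, hxd⟩ : ∃ x : ℝ, x = 1 - Real.exp (-σ) := ⟨_, rfl⟩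
  have hx : 0 < x := by
    have : Real.exp (-σ) < 1 := by rw [Real.exp_lt_one_iff]; linarith
    rw [hxd]; linarith
  obtain ⟨c5, hc5d⟩ : ∃ c5 : ℝ, c5 = min σ (min (σ * (x * c3)) (x * c3 / 4)) := ⟨_, rfl⟩
  have hc5 : 0 < c5 := by
    rw [hc5d]
    exact lt_min hσ (lt_min (by positivity) (by positivity))
  have hc5a : c5 ≤ σ := by rw [hc5d]; exact min_le_left _ _
  have hc5b : c5 ≤ σ * (x * c3) := by
    rw [hc5d]; exact le_trans (min_le_right _ _) (min_le_left _ _)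
  have hc5c : c5 ≤ x * c3 / 4 := by
    rw [hc5d]; exact le_trans (min_le_right _ _) (min_le_right _ _)
  have hK10 : 0 < K1 := by linarith
  have hC0 : 0 < C := by linarith
  obtain ⟨P, hP⟩ : ∃ P : ℝ, P = 4 * C * K1 / b := ⟨_, rfl⟩
  have hP0 : 0 < P := by rw [hP]; positivity
  obtain ⟨Lg, hLg⟩ : ∃ Lg : ℝ, Lg = |Real.log (P / δ)| := ⟨_, rfl⟩
  have hLg0 : 0 ≤ Lg := by rw [hLg]; exact abs_nonneg _
  refine ⟨1 + 4 * C * K1 ^ 3 / c5, 1 + 2 / c5 * (σ + Lg),
    by linarith [show 0 < 4 * C * K1 ^ 3 / c5 by positivity],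
    by linarith [show 0 ≤ 2 / c5 * (σ + Lg) by positivity], ?_⟩
  intro χ e h t v kk κ j hχ he he1 hKe hKe1 hA0 hh ht hj hκ hkk
  obtain ⟨A1, hA1d⟩ : ∃ A1 : ℝ, A1 = 1 + 4 * C * K1 ^ 3 / c5 := ⟨_, rfl⟩
  have hA1 : 1 ≤ A1 := by rw [hA1d]; linarith [show 0 < 4 * C * K1 ^ 3 / c5 by positivity]
  have hA1' : 4 * C * K1 ^ 3 ≤ c5 * A1 := by
    have : c5 * A1 = c5 + 4 * C * K1 ^ 3 := by rw [hA1d]; field_simp
    linarith
  rw [← hA1d] at hh
  have hχ0 : 0 < χ := by linarith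
  obtain ⟨N, hN⟩ : ∃ N : ℝ, N = v / χ ^ 3 := ⟨_, rfl⟩
  have hvN : (v : ℝ) = N * χ ^ 3 := by rw [hN]; field_simp
  have hNA : 1 + 2 / c5 * (σ + Lg) ≤ N := by
    rw [hN, le_div_iff₀ (by positivity)]
    exact hA0
  have hN1 : 1 ≤ N := by linarith [show 0 ≤ 2 / c5 * (σ + Lg) by positivity]
  have hN0 : 0 < N := by linarith
  have hjN : c3 * N ≤ j := by
    have : c3 * N = c3 * v / χ ^ 3 := by rw [hN]; ring
    linarith
  have hkN : c3 * N * χ ≤ kk := by
    have : c3 * N * χ = c3 * v / χ ^ 2 := by rw [hvN]; field_simp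
    linarith
  obtain ⟨s, hs⟩ : ∃ s : ℝ, s = e / 4 := ⟨_, rfl⟩
  rw [← hs]
  have hs0 : 0 ≤ s := by rw [hs]; positivity
  have hs1 : s ≤ 1 := by rw [hs]; linarith
  have hsm : σ ≤ s * (c3 * χ) := by
    rw [hσd, hs]
    nlinarith [mul_le_mul_of_nonneg_left hKe hc3.le]
  have hsκ : σ ≤ s * κ := le_trans hsm (mul_le_mul_of_nonneg_left hκ hs0)
  obtain ⟨j1, hj1, hj2⟩ := B7_two hs0 hs1 hσ κ j hsκ
  rw [← hxd] at hj1 hj2
  refine ⟨j1, ?_⟩
  have hxj : x * (c3 * N) ≤ x * (j : ℝ) := mul_le_mul_of_nonneg_left hjN hx.le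
  have hsecond : (2 : ℝ) ^ j1 * (1 - (1 - (1 - s) ^ κ) / 2) ^ (2 * j) ≤
      Real.exp (σ - c5 * N) := by
    refine le_trans hj2 (Real.exp_le_exp.mpr ?_)
    have h1 : c5 * N ≤ x * c3 / 4 * N := mul_le_mul_of_nonneg_right hc5c hN0.le
    have h2 : x * c3 / 4 * N = x * (c3 * N) / 4 := by ring
    linarith
  have hfirst : (1 - s) ^ (min (kk + 1) (j1 * κ)) ≤ Real.exp (σ - c5 * N) := by
    refine le_trans (B7_pow hs0 hs1 _) (Real.exp_le_exp.mpr ?_)
    rcases le_total (kk + 1) (j1 * κ) with h | h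
    · rw [min_eq_left h]
      have ha : σ * N ≤ s * (c3 * χ) * N := mul_le_mul_of_nonneg_right hsm hN0.le
      have hb : s * (c3 * N * χ) ≤ s * (kk : ℝ) := mul_le_mul_of_nonneg_left hkN hs0
      have hc : c5 * N ≤ σ * N := mul_le_mul_of_nonneg_right hc5a hN0.le
      push_cast
      have h2 : s * (c3 * χ) * N = s * (c3 * N * χ) := by ring
      have h3 : s * ((kk : ℝ) + 1) = s * kk + s := by ring
      linarith
    · rw [min_eq_right h]
      have hj0 : (0 : ℝ) ≤ (j1 : ℝ) := Nat.cast_nonneg _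
      have ha : (j1 : ℝ) * σ ≤ (j1 : ℝ) * (s * κ) := mul_le_mul_of_nonneg_left hsκ hj0
      have hb : σ * (x * (c3 * N) - 1) ≤ σ * (j1 : ℝ) :=
        mul_le_mul_of_nonneg_left (by linarith) hσ.le
      have hc : c5 * N ≤ σ * (x * c3) * N := mul_le_mul_of_nonneg_right hc5b hN0.le
      have h2 : s * (((j1 * κ : ℕ) : ℝ)) = (j1 : ℝ) * (s * κ) := by push_cast; ring
      rw [h2]
      linarith
  -- the numbers `h`, `t`
  have hh0 : 0 < h := lt_of_lt_of_le (by positivity) hh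
  have hsq : 1 / Real.sqrt h ≤ e := by
    have h1 : 1 / e ≤ Real.sqrt h := by
      apply Real.le_sqrt_of_sq_le
      refine le_trans ?_ hh
      rw [div_pow, one_pow]
      exact div_le_div_of_nonneg_right hA1 (by positivity)
    have h2 := one_div_le_one_div_of_le (by positivity) h1
    rwa [one_div_one_div] at h2
  have hsq0 : 0 ≤ 1 / Real.sqrt h := by positivity
  have hf : C * (1 / Real.sqrt h + e) ≤ 2 * C * e := by nlinarith
  have hf0 : 0 ≤ C * (1 / Real.sqrt h + e) := by positivity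
  obtain ⟨f, hfd⟩ : ∃ f : ℝ, f = C * (1 / Real.sqrt h + e) := ⟨_, rfl⟩
  rw [← hfd] at hf hf0 ⊢
  have hfh : f / h ≤ 2 * C * e ^ 3 / A1 := by
    have h1 : A1 ≤ h * e ^ 2 := (div_le_iff₀ (by positivity)).1 hh
    rw [div_le_div_iff₀ hh0 (by linarith)]
    calc f * A1 ≤ (2 * C * e) * (h * e ^ 2) :=
          mul_le_mul hf h1 (by linarith) (by positivity)
      _ = 2 * C * e ^ 3 * h := by ring
  have hfh0 : 0 ≤ f / h := div_nonneg hf0 hh0.le
  have hpow : (1 + f / h) ^ v ≤ Real.exp (c5 * N / 2) := by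
    have h1 : 1 + f / h ≤ Real.exp (f / h) := by
      have := Real.add_one_le_exp (f / h)
      linarith
    calc (1 + f / h) ^ v ≤ (Real.exp (f / h)) ^ v := pow_le_pow_left₀ (by linarith) h1 v
      _ = Real.exp (v * (f / h)) := by rw [← Real.exp_nat_mul]
      _ ≤ Real.exp (c5 * N / 2) := by
          refine Real.exp_le_exp.mpr ?_
          have h2 : (v : ℝ) * (f / h) ≤ v * (2 * C * e ^ 3 / A1) :=
            mul_le_mul_of_nonneg_left hfh (Nat.cast_nonneg v)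
          have h3 : (v : ℝ) * (2 * C * e ^ 3 / A1) = 2 * C * (χ * e) ^ 3 * N / A1 := by
            rw [hvN]; ring
          have h4 : 2 * C * (χ * e) ^ 3 * N / A1 ≤ c5 * N / 2 := by
            rw [div_le_iff₀ (by linarith)]
            have h5 : (χ * e) ^ 3 ≤ K1 ^ 3 := pow_le_pow_left₀ (by positivity) hKe1 3
            have h6 : 2 * C * (χ * e) ^ 3 ≤ 2 * C * K1 ^ 3 :=
              mul_le_mul_of_nonneg_left h5 (by positivity)
            have h7 : 2 * C * (χ * e) ^ 3 ≤ c5 * A1 / 2 := by linarith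
            calc 2 * C * (χ * e) ^ 3 * N ≤ c5 * A1 / 2 * N :=
                  mul_le_mul_of_nonneg_right h7 hN0.le
              _ = c5 * N / 2 * A1 := by ring
          linarith
  have hv0 : (0 : ℝ) < v := by rw [hvN]; positivity
  have ht0 : 0 < t := lt_of_lt_of_le (by positivity) ht
  have hft : (v : ℝ) * f / t ≤ P / 2 := by
    rw [div_le_iff₀ ht0]
    have h1 : (v : ℝ) * f ≤ v * (2 * C * e) := mul_le_mul_of_nonneg_left hf hv0.le
    have h2 : P / 2 * (b * v / χ) ≤ P / 2 * t := mul_le_mul_of_nonneg_left ht (by positivity)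
    have h3 : P / 2 * (b * v / χ) = 2 * C * K1 * (v / χ) := by rw [hP]; field_simp; ring
    have h4 : (v : ℝ) * (2 * C * e) = 2 * C * (χ * e) * (v / χ) := by field_simp
    have h5 : 2 * C * (χ * e) * (v / χ) ≤ 2 * C * K1 * (v / χ) :=
      mul_le_mul_of_nonneg_right (mul_le_mul_of_nonneg_left hKe1 (by positivity)) (by positivity)
    linarith
  have hft0 : 0 ≤ (v : ℝ) * f / t := by positivity
  have hexp : σ + Real.log (P / δ) ≤ c5 * N / 2 := by
    have h1 : Real.log (P / δ) ≤ Lg := by rw [hLg]; exact le_abs_self _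
    have h2 : 2 / c5 * (σ + Lg) ≤ N := by linarith
    have h3 := mul_le_mul_of_nonneg_left h2 hc5.le
    have h4 : c5 * (2 / c5 * (σ + Lg)) = 2 * (σ + Lg) := by field_simp
    rw [h4] at h3
    linarith
  have hsum : (1 - s) ^ (min (kk + 1) (j1 * κ)) +
      2 ^ j1 * (1 - (1 - (1 - s) ^ κ) / 2) ^ (2 * j) ≤ 2 * Real.exp (σ - c5 * N) := by
    linarith
  have hpow0 : 0 ≤ (1 + f / h) ^ v := by positivity
  have h1s : 0 ≤ 1 - s := by linarith
  calc (v * f / t) * (((1 - s) ^ (min (kk + 1) (j1 * κ)) +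
        2 ^ j1 * (1 - (1 - (1 - s) ^ κ) / 2) ^ (2 * j)) * (1 + f / h) ^ v)
      ≤ (v * f / t) * ((2 * Real.exp (σ - c5 * N)) * Real.exp (c5 * N / 2)) := by
        apply mul_le_mul_of_nonneg_left _ hft0
        exact mul_le_mul hsum hpow hpow0 (by positivity)
    _ ≤ (P / 2) * ((2 * Real.exp (σ - c5 * N)) * Real.exp (c5 * N / 2)) :=
        mul_le_mul_of_nonneg_right hft (by positivity)
    _ = P * Real.exp ((σ - c5 * N) + c5 * N / 2) := by
        rw [Real.exp_add]; ring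
    _ ≤ P * Real.exp (-Real.log (P / δ)) := by
        apply mul_le_mul_of_nonneg_left _ hP0.le
        apply Real.exp_le_exp.mpr
        linarith
    _ = δ := by
        rw [Real.exp_neg, Real.exp_log (by positivity)]
        field_simp

end Pool.Agent.PERC29.OB
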