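import Pool.Agent.Lib.MP_29e17e_pr.O.Kt
import Pool.Agent.Lib.MP_29e17e_pr.O.Lo
import Pool.Agent.Lib.MP_29e17e_pr.O.Un
import Pool.Agent.Lib.MP_29e17e_pr.Y.Ln

set_option autoImplicit false
set_option linter.unusedSectionVars false

/-! Rows 29o-T1 .. T3, D1 .. D6: the torus as one box. `χ` is a number with `n² ≤ C χ`; at `p` the two-point function is between `c0 χ/n^d` and `C ((1+|x-y|)^(2-d) + χ/n^d)`. -/

open Finset

namespace Pool.Agent.PERC29.OB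

open Pool.Agent.PERC29 Pool.Agent.PERC29.AE

section tor

variable {d n : ℕ} [NeZero n] [Fintype (torG d n).edgeSet]

/-- The upper bound for the two-point function on the torus. -/
def UT (d n : ℕ) [NeZero n] [Fintype (torG d n).edgeSet] (C p χ : ℝ) : Prop :=
  ∀ x y : Fin d → ZMod n, ta (gends (torG d n)) p x y ≤ C * (tk (d - 2) x y + χ / (n : ℝ) ^ d)

private lemma T1_card : ((Finset.univ : Finset (Fin d → ZMod n)).card : ℝ) = (n : ℝ) ^ d := by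
  rw [Finset.card_univ, Fintype.card_fun, ZMod.card, Fintype.card_fin]
  push_cast
  rfl

private lemma T1_npos : (0 : ℝ) < (n : ℝ) ^ d := by
  have h : (0 : ℝ) < (n : ℝ) := by exact_mod_cast Nat.pos_of_ne_zero (NeZero.ne n)
  positivity

private lemma T1_tk_nonneg (k : ℕ) (x y : Fin d → ZMod n) : 0 ≤ tk k x y := by
  unfold tk
  positivity

private lemma T1_tk_symm (k : ℕ) (x y : Fin d → ZMod n) : tk k x y = tk k y x := by
  unfold tk
  rw [td_symm]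

private lemma T1_sum (hd : 2 ≤ d) {C χ : ℝ} (hn : (n : ℝ) ^ 2 ≤ C * χ) (x : Fin d → ZMod n) :
    ∑ y, tk (d - 2) x y ≤ (d * 2 ^ d : ℝ) * (C * χ) :=
  (t_sum_f hd x).trans (mul_le_mul_of_nonneg_left hn (by positivity))

private lemma T1_conv (hd : 9 ≤ d) {p C χ : ℝ} (h0 : 0 ≤ p) (h1 : p ≤ 1) (hC : 1 ≤ C) (hχ : 0 < χ) (hn : (n : ℝ) ^ 2 ≤ C * χ)
    (hU : UT d n C p χ) (x u : Fin d → ZMod n) :
    ∑ z, ta (gends (torG d n)) p x z * ta (gends (torG d n)) p z u ≤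
      C ^ 2 * (C4 d * tk (d - 4) x u + (2 * (d * 2 ^ d) * C + 1) * (χ ^ 2 / (n : ℝ) ^ d)) := by
  have hN := T1_npos (d := d) (n := n)
  obtain ⟨κ, hκ⟩ : ∃ κ, κ = χ / (n : ℝ) ^ d := ⟨_, rfl⟩
  have hκ0 : 0 ≤ κ := by rw [hκ]; positivity
  have hpt : ∀ z, ta (gends (torG d n)) p x z * ta (gends (torG d n)) p z u ≤
      C ^ 2 * (tk (d - 2) x z * tk (d - 2) z u + κ * tk (d - 2) u z + κ * tk (d - 2) x z + κ ^ 2) := by
    intro z
    have a1 := hU x z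
    have a2 := hU z u
    rw [← hκ] at a1 a2
    have b1 := ta_nonneg (ends := gends (torG d n)) h0 h1 x z
    have b2 := ta_nonneg (ends := gends (torG d n)) h0 h1 z u
    refine (mul_le_mul a1 a2 b2 (b1.trans a1)).trans (le_of_eq ?_)
    rw [T1_tk_symm (d - 2) u z]
    ring
  refine (Finset.sum_le_sum fun z _ => hpt z).trans ?_
  rw [← Finset.mul_sum, Finset.sum_add_distrib, Finset.sum_add_distrib, Finset.sum_add_distrib,
    ← Finset.mul_sum, ← Finset.mul_sum, Finset.sum_const, nsmul_eq_mul, T1_card]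
  apply mul_le_mul_of_nonneg_left _ (sq_nonneg C)
  have c1 := t_conv_f (by omega : 5 ≤ d) x u
  have c2 := mul_le_mul_of_nonneg_left (T1_sum (by omega : 2 ≤ d) hn x) hκ0
  have c3 := mul_le_mul_of_nonneg_left (T1_sum (by omega : 2 ≤ d) hn u) hκ0
  have c4 : κ * ((d * 2 ^ d : ℝ) * (C * χ)) = (d * 2 ^ d : ℝ) * C * (χ ^ 2 / (n : ℝ) ^ d) := by
    rw [hκ]
    field_simp
  have c5 : (n : ℝ) ^ d * κ ^ 2 = χ ^ 2 / (n : ℝ) ^ d := by
    rw [hκ]
    field_simp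
  rw [c4] at c2 c3
  rw [c5]
  linarith

/-- Row T1. `∑ y, ta x y ≤ C (∑ tk + χ) ≤ C (d 2^d n² + χ) ≤ C (d 2^d C + 1) χ` (`ta_sum`, `t_sum_f`). -/
lemma tor_X (hd : 2 ≤ d) {p C χ : ℝ} (hC : 1 ≤ C) (hχ : 0 < χ) (hn : (n : ℝ) ^ 2 ≤ C * χ) (hU : UT d n C p χ) (x : Fin d → ZMod n) :
    Ex p (fun ω => cz (gends (torG d n)) ω x) ≤ C * (d * 2 ^ d * C + 1) * χ := by
  have hN := T1_npos (d := d) (n := n)
  rw [← ta_sum]
  have h1 : ∑ y, ta (gends (torG d n)) p x y ≤ ∑ y, C * (tk (d - 2) x y + χ / (n : ℝ) ^ d) :=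
    Finset.sum_le_sum fun y _ => hU x y
  refine h1.trans ?_
  rw [← Finset.mul_sum, Finset.sum_add_distrib, Finset.sum_const, nsmul_eq_mul, T1_card]
  have h2 := T1_sum hd hn x
  have h3 : (n : ℝ) ^ d * (χ / (n : ℝ) ^ d) = χ := by
    field_simp
  rw [h3, mul_assoc C]
  apply mul_le_mul_of_nonneg_left _ (by linarith)
  linarith

/-- Row T1. `(ta * ta)(x,u) ≤ C² ∑ z, (tk + κ)(tk + κ) ≤ C² (C4 tk (d-4) x u + 2 κ d 2^d n² + κ² n^d)` with `κ = χ/n^d` (`t_conv_f`, `t_sum_f`), and `κ n² ≤ C χ²/n^d`, `κ² n^d = χ²/n^d`; so it is at most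
`C² (C4 tk (d-4) x u + D3 χ²/n^d)`, `D3 = 2 d 2^d C + 1`; the square sum over `u` is at most `2 C⁴ (C4² ∑ tk² + D3² χ⁴/n^d) ≤ 2 C⁴ (C4² (d 2^d) 2 + D3²) (1 + χ⁴/n^d)` (`t_sq_g` with `n = 0`). -/
lemma tor_sq (hd : 9 ≤ d) {p C χ : ℝ} (h0 : 0 ≤ p) (h1 : p ≤ 1) (hC : 1 ≤ C) (hχ : 0 < χ) (hn : (n : ℝ) ^ 2 ≤ C * χ) (hU : UT d n C p χ)
    (x : Fin d → ZMod n) :
    sqd (gends (torG d n)) p x ≤ 2 * C ^ 4 * (C4 d ^ 2 * (d * 2 ^ d * 2) + (2 * (d * 2 ^ d) * C + 1) ^ 2) * (1 + χ ^ 4 / (n : ℝ) ^ d) := by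
  have hN := T1_npos (d := d) (n := n)
  unfold sqd
  obtain ⟨D3, hD3⟩ : ∃ D3, D3 = 2 * ((d : ℝ) * 2 ^ d) * C + 1 := ⟨_, rfl⟩
  have hD30 : 0 ≤ D3 := by rw [hD3]; positivity
  have hC40 : 0 ≤ C4 d := by unfold C4; positivity
  have hpt : ∀ u : Fin d → ZMod n, (∑ z, ta (gends (torG d n)) p x z * ta (gends (torG d n)) p z u) ^ 2 ≤
      2 * C ^ 4 * (C4 d ^ 2 * tk (d - 4) x u ^ 2 + D3 ^ 2 * (χ ^ 2 / (n : ℝ) ^ d) ^ 2) := by
    intro u
    have a1 := T1_conv hd h0 h1 hC hχ hn hU x u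
    rw [← hD3] at a1
    have a0 : 0 ≤ ∑ z, ta (gends (torG d n)) p x z * ta (gends (torG d n)) p z u :=
      Finset.sum_nonneg fun z _ => mul_nonneg (ta_nonneg h0 h1 _ _) (ta_nonneg h0 h1 _ _)
    refine (pow_le_pow_left₀ a0 a1 2).trans ?_
    have a2 : (C4 d * tk (d - 4) x u + D3 * (χ ^ 2 / (n : ℝ) ^ d)) ^ 2 ≤
        2 * (C4 d ^ 2 * tk (d - 4) x u ^ 2 + D3 ^ 2 * (χ ^ 2 / (n : ℝ) ^ d) ^ 2) := by
      linarith [sq_nonneg (C4 d * tk (d - 4) x u - D3 * (χ ^ 2 / (n : ℝ) ^ d))]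
    calc (C ^ 2 * (C4 d * tk (d - 4) x u + D3 * (χ ^ 2 / (n : ℝ) ^ d))) ^ 2
        = C ^ 4 * (C4 d * tk (d - 4) x u + D3 * (χ ^ 2 / (n : ℝ) ^ d)) ^ 2 := by ring
      _ ≤ C ^ 4 * (2 * (C4 d ^ 2 * tk (d - 4) x u ^ 2 + D3 ^ 2 * (χ ^ 2 / (n : ℝ) ^ d) ^ 2)) :=
          mul_le_mul_of_nonneg_left a2 (by positivity)
      _ = 2 * C ^ 4 * (C4 d ^ 2 * tk (d - 4) x u ^ 2 + D3 ^ 2 * (χ ^ 2 / (n : ℝ) ^ d) ^ 2) := by ring
  refine (Finset.sum_le_sum fun u _ => hpt u).trans ?_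
  rw [← Finset.mul_sum, Finset.sum_add_distrib, ← Finset.mul_sum, Finset.sum_const, nsmul_eq_mul, T1_card,
    ← hD3, mul_assoc (2 * C ^ 4)]
  apply mul_le_mul_of_nonneg_left _ (by positivity)
  have b1 := t_sq_g hd x 0
  simp only [Nat.zero_le, if_true, Nat.cast_zero, zero_add, div_one] at b1
  have b2 : (n : ℝ) ^ d * (D3 ^ 2 * (χ ^ 2 / (n : ℝ) ^ d) ^ 2) = D3 ^ 2 * (χ ^ 4 / (n : ℝ) ^ d) := by
    field_simp
  have b3 := mul_le_mul_of_nonneg_left b1 (sq_nonneg (C4 d))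
  rw [b2]
  have b4 : 0 ≤ χ ^ 4 / (n : ℝ) ^ d := by positivity
  have b5 : 0 ≤ C4 d ^ 2 * ((d : ℝ) * 2 ^ d * 2) * (χ ^ 4 / (n : ℝ) ^ d) := by positivity
  have b6 : 0 ≤ D3 ^ 2 := sq_nonneg _
  linarith [b3, b5, b6]

private lemma T2_card {d n : ℕ} [NeZero n] : ((Finset.univ : Finset (Fin d → ZMod n)).card : ℝ) = (n : ℝ) ^ d := by
  rw [Finset.card_univ, Fintype.card_fun, ZMod.card, Fintype.card_fin]
  push_cast
  rfl

private lemma T2_npos {d n : ℕ} [NeZero n] : (0 : ℝ) < (n : ℝ) ^ d := by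
  have h : (0 : ℝ) < (n : ℝ) := by exact_mod_cast Nat.pos_of_ne_zero (NeZero.ne n)
  positivity

private lemma T2_tk_nonneg {d n : ℕ} [NeZero n] (k : ℕ) (x y : Fin d → ZMod n) : 0 ≤ tk k x y := by
  unfold tk
  positivity

private lemma T2_tk_symm {d n : ℕ} [NeZero n] (k : ℕ) (x y : Fin d → ZMod n) : tk k x y = tk k y x := by
  unfold tk
  rw [td_symm]

private lemma T2_ta_symm {d n : ℕ} [NeZero n] [Fintype (torG d n).edgeSet] (p : ℝ) (x y : Fin d → ZMod n) :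
    ta (gends (torG d n)) p x y = ta (gends (torG d n)) p y x := by
  unfold ta
  refine Ex_congr fun ω => ?_
  exact if_congr cu_symm rfl rfl

private lemma T2_sum {d n : ℕ} [NeZero n] (hd : 2 ≤ d) {C χ : ℝ} (hn : (n : ℝ) ^ 2 ≤ C * χ) (x : Fin d → ZMod n) :
    ∑ y, tk (d - 2) x y ≤ (d * 2 ^ d : ℝ) * (C * χ) :=
  (t_sum_f hd x).trans (mul_le_mul_of_nonneg_left hn (by positivity))

private lemma T2_conv {d n : ℕ} [NeZero n] [Fintype (torG d n).edgeSet] (hd : 9 ≤ d) {p C χ : ℝ} (h0 : 0 ≤ p) (h1 : p ≤ 1) (_hC : 1 ≤ C) (hχ : 0 < χ)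
    (hn : (n : ℝ) ^ 2 ≤ C * χ) (hU : UT d n C p χ) (x u : Fin d → ZMod n) :
    ∑ z, ta (gends (torG d n)) p x z * ta (gends (torG d n)) p z u ≤
      C ^ 2 * (C4 d * tk (d - 4) x u + (2 * (d * 2 ^ d) * C + 1) * (χ ^ 2 / (n : ℝ) ^ d)) := by
  have hN := T2_npos (d := d) (n := n)
  obtain ⟨κ, hκ⟩ : ∃ κ, κ = χ / (n : ℝ) ^ d := ⟨_, rfl⟩
  have hκ0 : 0 ≤ κ := by rw [hκ]; positivity
  have hpt : ∀ z, ta (gends (torG d n)) p x z * ta (gends (torG d n)) p z u ≤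
      C ^ 2 * (tk (d - 2) x z * tk (d - 2) z u + κ * tk (d - 2) u z + κ * tk (d - 2) x z + κ ^ 2) := by
    intro z
    have a1 := hU x z
    have a2 := hU z u
    rw [← hκ] at a1 a2
    have b1 := ta_nonneg (ends := gends (torG d n)) h0 h1 x z
    have b2 := ta_nonneg (ends := gends (torG d n)) h0 h1 z u
    refine (mul_le_mul a1 a2 b2 (b1.trans a1)).trans (le_of_eq ?_)
    rw [T2_tk_symm (d - 2) u z]
    ring
  refine (Finset.sum_le_sum fun z _ => hpt z).trans ?_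
  rw [← Finset.mul_sum, Finset.sum_add_distrib, Finset.sum_add_distrib, Finset.sum_add_distrib,
    ← Finset.mul_sum, ← Finset.mul_sum, Finset.sum_const, nsmul_eq_mul, T2_card]
  apply mul_le_mul_of_nonneg_left _ (sq_nonneg C)
  have c1 := t_conv_f (by omega : 5 ≤ d) x u
  have c2 := mul_le_mul_of_nonneg_left (T2_sum (by omega : 2 ≤ d) hn x) hκ0
  have c3 := mul_le_mul_of_nonneg_left (T2_sum (by omega : 2 ≤ d) hn u) hκ0
  have c4 : κ * ((d * 2 ^ d : ℝ) * (C * χ)) = (d * 2 ^ d : ℝ) * C * (χ ^ 2 / (n : ℝ) ^ d) := by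
    rw [hκ]
    field_simp
  have c5 : (n : ℝ) ^ d * κ ^ 2 = χ ^ 2 / (n : ℝ) ^ d := by
    rw [hκ]
    field_simp
  rw [c4] at c2 c3
  rw [c5]
  linarith

/-- `tk (d-4) ≤ n² tk (d-2)`. -/
private lemma T2_tk4 {d n : ℕ} [NeZero n] (hd : 4 ≤ d) (x z : Fin d → ZMod n) : tk (d - 4) x z ≤ (n : ℝ) ^ 2 * tk (d - 2) x z := by
  have hl : 1 ≤ n := Nat.one_le_iff_ne_zero.2 (NeZero.ne n)
  have h1 : (1 + (td x z : ℝ)) ≤ (n : ℝ) := by
    have := td_lt x z hl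
    have h2 : 1 + td x z ≤ n := by omega
    exact_mod_cast h2
  have h0 : (0 : ℝ) < 1 + (td x z : ℝ) := by positivity
  have h3 : tk (d - 4) x z = (1 + (td x z : ℝ)) ^ 2 * tk (d - 2) x z := by
    unfold tk
    have : d - 2 = (d - 4) + 2 := by omega
    rw [this, pow_add]
    field_simp
  rw [h3]
  exact mul_le_mul_of_nonneg_right (pow_le_pow_left₀ h0.le h1 2) (T2_tk_nonneg _ _ _)

/-- Row T2. The open triangle. `∑ w, ta x w * ta (sh u) w ≤ C² (C4 tk (d-4) x (sh u) + D3 χ²/n^d)` (as in `tor_sq`); then `∑ u, C (tk (d-2) x u + κ) C² (C4 tk (d-4) x (sh u) + D3 χ²/n^d)`: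
`∑ tk (d-2) x u tk (d-4) x (sh u) ≤ d 2^d 6/√(r+1)` (`t_shift_f`); `κ ∑ u, tk (d-4) x (sh u) ≤ κ ∑ z, tk (d-4) x z ≤ κ D4 n⁴` (`sh` injective; `tk (d-4) ≤ n² tk (d-2)` since `1 + td ≤ n`, or `t_shell_sum`), which is at most
`D4 C² χ³/n^d`; `D3 χ²/n^d ∑ u, (tk (d-2) x u + κ) ≤ D3 χ²/n^d (d 2^d n² + χ) ≤ D3 (d 2^d C + 1) χ³/n^d`. So there is a constant `D5` depending on `d`, `C` only. -/
lemma tor_del (d : ℕ) (hd : 9 ≤ d) (C : ℝ) (hC : 1 ≤ C) : ∃ D5 : ℝ, 0 < D5 ∧ ∀ (n : ℕ) [NeZero n] [Fintype (torG d n).edgeSet] (p χ : ℝ), 0 ≤ p → p ≤ 1 → 0 < χ →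
    (n : ℝ) ^ 2 ≤ C * χ → UT d n C p χ → ∀ (W : Finset (Fin d → ZMod n)) (sh : (Fin d → ZMod n) → (Fin d → ZMod n)), Set.InjOn sh W → ∀ r : ℕ,
    (∀ u ∈ W, td u (sh u) = r) → ∀ x : Fin d → ZMod n,
    ∑ u ∈ W, ∑ w, ta (gends (torG d n)) p x u * (ta (gends (torG d n)) p x w * ta (gends (torG d n)) p (sh u) w) ≤
      D5 * (1 / Real.sqrt ((r : ℝ) + 1) + χ ^ 3 / (n : ℝ) ^ d) := by
  obtain ⟨K, hK⟩ : ∃ K : ℝ, K = (d * 2 ^ d : ℝ) := ⟨_, rfl⟩
  have hK0 : 0 ≤ K := by rw [hK]; positivity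
  obtain ⟨D3, hD3⟩ : ∃ D3 : ℝ, D3 = 2 * (d * 2 ^ d) * C + 1 := ⟨_, rfl⟩
  have hD30 : 0 ≤ D3 := by rw [hD3]; positivity
  have hC40 : 0 ≤ C4 d := by unfold C4; positivity
  have hC0 : 0 ≤ C := by linarith
  refine ⟨C ^ 3 * (C4 d * (K * 6) + C4 d * (K * C ^ 2) + D3 * (K * C + 1)) + 1, by positivity, ?_⟩
  intro n _ _ p χ h0 h1 hχ hn hU W sh hsh r hr x
  have hN := T2_npos (d := d) (n := n)
  obtain ⟨κ, hκ⟩ : ∃ κ, κ = χ / (n : ℝ) ^ d := ⟨_, rfl⟩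
  have hκ0 : 0 ≤ κ := by rw [hκ]; positivity
  obtain ⟨q, hq⟩ : ∃ q, q = χ ^ 2 / (n : ℝ) ^ d := ⟨_, rfl⟩
  have hq0 : 0 ≤ q := by rw [hq]; positivity
  have hpt : ∀ u ∈ W, ∑ w, ta (gends (torG d n)) p x u * (ta (gends (torG d n)) p x w * ta (gends (torG d n)) p (sh u) w) ≤
      C ^ 3 * (C4 d * (tk (d - 2) x u * tk (d - 4) x (sh u)) + C4 d * (κ * tk (d - 4) x (sh u)) + D3 * q * (tk (d - 2) x u + κ)) := by
    intro u _
    rw [← Finset.mul_sum]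
    have a1 := hU x u
    rw [← hκ] at a1
    have a2 := T2_conv hd h0 h1 hC hχ hn hU x (sh u)
    rw [← hD3, ← hq] at a2
    have a3 : ∑ w, ta (gends (torG d n)) p x w * ta (gends (torG d n)) p (sh u) w =
        ∑ z, ta (gends (torG d n)) p x z * ta (gends (torG d n)) p z (sh u) :=
      Finset.sum_congr rfl fun w _ => by rw [T2_ta_symm p (sh u) w]
    rw [a3]
    have b1 := ta_nonneg (ends := gends (torG d n)) h0 h1 x u
    have b2 : 0 ≤ ∑ z, ta (gends (torG d n)) p x z * ta (gends (torG d n)) p z (sh u) :=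
      Finset.sum_nonneg fun z _ => mul_nonneg (ta_nonneg h0 h1 _ _) (ta_nonneg h0 h1 _ _)
    refine (mul_le_mul a1 a2 b2 (b1.trans a1)).trans (le_of_eq ?_)
    ring
  refine (Finset.sum_le_sum hpt).trans ?_
  rw [← Finset.mul_sum, Finset.sum_add_distrib, Finset.sum_add_distrib, ← Finset.mul_sum, ← Finset.mul_sum, ← Finset.mul_sum,
    ← Finset.mul_sum, Finset.sum_add_distrib, Finset.sum_const, nsmul_eq_mul]
  have e1 := t_shift_f hd x W sh hsh r hr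
  rw [← hK] at e1
  have e2 : ∑ u ∈ W, tk (d - 4) x (sh u) ≤ K * C ^ 2 * χ ^ 2 := by
    classical
    have f1 : ∑ u ∈ W, tk (d - 4) x (sh u) = ∑ z ∈ W.image sh, tk (d - 4) x z := by
      rw [Finset.sum_image hsh]
    have f2 : ∑ z ∈ W.image sh, tk (d - 4) x z ≤ ∑ z, tk (d - 4) x z :=
      Finset.sum_le_sum_of_subset_of_nonneg (Finset.subset_univ _) fun _ _ _ => T2_tk_nonneg _ _ _
    have f3 : ∑ z, tk (d - 4) x z ≤ ∑ z, (n : ℝ) ^ 2 * tk (d - 2) x z :=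
      Finset.sum_le_sum fun z _ => T2_tk4 (by omega) x z
    rw [← Finset.mul_sum] at f3
    have f4 := T2_sum (by omega : 2 ≤ d) hn x
    rw [← hK] at f4
    have f5 : 0 ≤ ∑ z, tk (d - 2) x z := Finset.sum_nonneg fun _ _ => T2_tk_nonneg _ _ _
    have f6 : (n : ℝ) ^ 2 * ∑ z, tk (d - 2) x z ≤ (C * χ) * (K * (C * χ)) :=
      mul_le_mul hn f4 f5 (by positivity)
    calc ∑ u ∈ W, tk (d - 4) x (sh u) ≤ (C * χ) * (K * (C * χ)) := by rw [f1]; exact (f2.trans f3).trans f6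
      _ = K * C ^ 2 * χ ^ 2 := by ring
  have e3 : ∑ u ∈ W, tk (d - 2) x u ≤ K * (C * χ) := by
    have g := T2_sum (by omega : 2 ≤ d) hn x
    rw [← hK] at g
    exact (Finset.sum_le_sum_of_subset_of_nonneg (Finset.subset_univ _) fun _ _ _ => T2_tk_nonneg _ _ _).trans g
  have e4 : (W.card : ℝ) * κ ≤ χ := by
    have g : (W.card : ℝ) ≤ (n : ℝ) ^ d := by
      rw [← T2_card]
      exact_mod_cast Finset.card_le_card (Finset.subset_univ _)
    calc (W.card : ℝ) * κ ≤ (n : ℝ) ^ d * κ := mul_le_mul_of_nonneg_right g hκ0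
      _ = χ := by rw [hκ]; field_simp
  obtain ⟨t, ht⟩ : ∃ t, t = χ ^ 3 / (n : ℝ) ^ d := ⟨_, rfl⟩
  have ht0 : 0 ≤ t := by rw [ht]; positivity
  obtain ⟨s, hs⟩ : ∃ s, s = 1 / Real.sqrt ((r : ℝ) + 1) := ⟨_, rfl⟩
  have hs0 : 0 ≤ s := by rw [hs]; positivity
  have e5 : κ * (K * C ^ 2 * χ ^ 2) = K * C ^ 2 * t := by rw [hκ, ht]; ring
  have e6 : q * χ = t := by rw [hq, ht]; ring
  have e1' : ∑ u ∈ W, tk (d - 2) x u * tk (d - 4) x (sh u) ≤ K * 6 * s := by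
    refine e1.trans (le_of_eq ?_)
    rw [hs]; ring
  have i1 := mul_le_mul_of_nonneg_left e1' hC40
  have i2 := mul_le_mul_of_nonneg_left (mul_le_mul_of_nonneg_left e2 hκ0) hC40
  rw [e5] at i2
  have i3 : D3 * q * (∑ u ∈ W, tk (d - 2) x u + (W.card : ℝ) * κ) ≤ D3 * ((K * C + 1) * t) := by
    have j1 : ∑ u ∈ W, tk (d - 2) x u + (W.card : ℝ) * κ ≤ (K * C + 1) * χ := by linarith
    calc D3 * q * (∑ u ∈ W, tk (d - 2) x u + (W.card : ℝ) * κ) ≤ D3 * q * ((K * C + 1) * χ) :=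
          mul_le_mul_of_nonneg_left j1 (by positivity)
      _ = D3 * ((K * C + 1) * (q * χ)) := by ring
      _ = D3 * ((K * C + 1) * t) := by rw [e6]
  rw [← ht, ← hs]
  have hC3 : 0 ≤ C ^ 3 := by positivity
  refine (mul_le_mul_of_nonneg_left (add_le_add (add_le_add i1 i2) i3) hC3).trans ?_
  have k1 : 0 ≤ C ^ 3 * (C4 d * (K * 6)) * t := by positivity
  have k2 : 0 ≤ C ^ 3 * (C4 d * (K * C ^ 2)) * s := by positivity
  have k3 : 0 ≤ C ^ 3 * (D3 * (K * C + 1)) * s := by positivity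
  linarith [k1, k2, k3, hs0, ht0]

/-- The path `x, x + e, x + 2 e, ..`. -/
def tpi (i0 : Fin d) (x : Fin d → ZMod n) (j : ℕ) : Fin d → ZMod n := x + Pi.single i0 (j : ZMod n)

/-- Row T3. (1) injective; (2) `td u (tpi i0 u r) = r` if `2 r ≤ n` (one coordinate is `-r`, `ZMod.natAbs_valMinAbs_neg`, `ZMod.valMinAbs_natCast_of_le_half`, the others are `0`); (3) edges (`n ≥ 2`; `x ≠ x + e`);
(4) at most `r + 1` points `x` with `tpi i0 x j = v` for some `j ≤ r` (`x = v - j e`). -/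
lemma tpi_inj (i0 : Fin d) (r : ℕ) : Function.Injective (fun x : Fin d → ZMod n => tpi i0 x r) := by
  intro x y h
  exact add_right_cancel h

lemma tpi_dist (i0 : Fin d) (r : ℕ) (hr : 2 * r ≤ n) (u : Fin d → ZMod n) : td u (tpi i0 u r) = r := by
  have h0 : (u i0 - tpi i0 u r i0).valMinAbs.natAbs = r := by
    have e : u i0 - tpi i0 u r i0 = -((r : ℕ) : ZMod n) := by
      simp [tpi]
    rw [e, ZMod.natAbs_valMinAbs_neg, ZMod.valMinAbs_natCast_of_le_half (by omega)]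
    exact Int.natAbs_natCast r
  refine le_antisymm (Finset.sup_le fun i _ => ?_) ?_
  · show (u i - tpi i0 u r i).valMinAbs.natAbs ≤ r
    by_cases hi : i = i0
    · subst hi
      exact h0.le
    · have e : u i - tpi i0 u r i = 0 := by
        simp [tpi, Pi.single_eq_of_ne hi]
      rw [e, ZMod.valMinAbs_zero]
      exact Nat.zero_le r
  · have := td_le u (tpi i0 u r) i0
    rw [h0] at this
    exact this

lemma tpi_edge (i0 : Fin d) (hn : 2 ≤ n) (x : Fin d → ZMod n) (j : ℕ) :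
    ∃ e : (torG d n).edgeSet, gends (torG d n) e = s(tpi i0 x j, tpi i0 x (j + 1)) := by
  have e1 : tpi i0 x (j + 1) = tpi i0 x j + Pi.single i0 1 := by
    unfold tpi
    rw [add_assoc, ← Pi.single_add, Nat.cast_add, Nat.cast_one]
  have hadj : (torG d n).Adj (tpi i0 x j) (tpi i0 x (j + 1)) := by
    refine ⟨?_, i0, Or.inl e1⟩
    intro h
    rw [e1] at h
    have h1 : (Pi.single i0 (1 : ZMod n) : Fin d → ZMod n) = 0 := (left_eq_add.1 h)
    have h2 := congrFun h1 i0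
    rw [Pi.single_eq_same, Pi.zero_apply] at h2
    haveI : Fact (1 < n) := ⟨hn⟩
    exact one_ne_zero h2
  exact ⟨⟨s(tpi i0 x j, tpi i0 x (j + 1)), (SimpleGraph.mem_edgeSet _).2 hadj⟩, rfl⟩

open scoped Classical in
lemma tpi_cov (i0 : Fin d) (r : ℕ) (v : Fin d → ZMod n) :
    (Finset.univ.filter (fun x : Fin d → ZMod n => ∃ j ≤ r, tpi i0 x j = v)).card ≤ r + 1 := by
  have hsub : Finset.univ.filter (fun x : Fin d → ZMod n => ∃ j ≤ r, tpi i0 x j = v) ⊆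
      (Finset.range (r + 1)).image (fun j : ℕ => v - Pi.single i0 (j : ZMod n)) := by
    intro x hx
    obtain ⟨j, hj, hv⟩ := (Finset.mem_filter.1 hx).2
    refine Finset.mem_image.2 ⟨j, Finset.mem_range.2 (Nat.lt_succ_of_le hj), ?_⟩
    rw [← hv]
    exact add_sub_cancel_right x _
  exact (Finset.card_le_card hsub).trans (Finset.card_image_le.trans (Finset.card_range _).le)

end tor

open scoped Classical in
/-- Row D1. Compare `box_E2` (Y/Bb.lean). `V` = the torus, `W = univ`, `sh u = tpi i0 u r`, `π = tpi i0`. Constants: `CL = max C (the constants of tor_X, tor_sq)`, `loc2o CL c0 a β (ρ/2)` gives `a2, ch, ck, δ, A0'`; `r` with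
`D5/√(r+1) ≤ δ/2`; `loc_cut2 CL a2 ch ck cp (ρ/2) r (r+1) (2d) ((r+1)((1+2d)(r+1)))` gives `c3, A1`; `A0` so large that `D5 χ³/n^d ≤ δ/2`, `n ≥ 2 r + 2` (`n^d ≥ A0 ≥ (2r+2)^d`) and
`A1 log (n^d + 1) ≤ χ`: `log (n^d + 1) ≤ d n ≤ d √(C χ) ≤ χ/A1` for `χ ≥ A1² d² C` (see `E1_log_bd`). -/
theorem tor_E2 (d : ℕ) (hd : 9 ≤ d) (C c0 cp a β ρ : ℝ) (hC : 1 ≤ C) (hc0 : 0 < c0) (hcp : 0 < cp)
    (hcp1 : cp ≤ 1) (ha : 0 < a) (hβ : 0 < β) (hρ : 0 < ρ) :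
    ∃ (a2 c3 A0 : ℝ), 0 < a2 ∧ a2 ≤ a ∧ 0 < c3 ∧ 1 ≤ A0 ∧ ∀ (n : ℕ) [NeZero n] [Fintype (torG d n).edgeSet] (p χ : ℝ),
      cp ≤ p → cp ≤ 1 - p → A0 ≤ χ → A0 * χ ^ 3 ≤ (n : ℝ) ^ d → (n : ℝ) ^ 2 ≤ C * χ → UT d n C p χ →
      (∀ x, ∀ k : ℕ, 1 ≤ k → Ex p (fun ω => if (k : ℝ) ≤ cz (gends (torG d n)) ω x
        then (1 : ℝ) else 0) ≤ C / Real.sqrt k) →
      (∀ x y, c0 * χ / (n : ℝ) ^ d ≤ ta (gends (torG d n)) p x y) →
      ∃ kk κ j : ℕ, 1 ≤ j ∧ c3 * (n : ℝ) ^ d / χ ^ 3 ≤ j ∧ c3 * χ ≤ κ ∧ c3 * (n : ℝ) ^ d / χ ^ 2 ≤ kk ∧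
        Ex p (fun ω => if BadE2 (gends (torG d n)) ω Finset.univ (a2 * χ ^ 2)
          (a * χ ^ 2) (β * (n : ℝ) ^ d / χ) kk κ j then (1 : ℝ) else 0) ≤ ρ := by
  set K1 : ℝ := C * (d * 2 ^ d * C + 1) with hK1
  set K2 : ℝ := 2 * C ^ 4 * (C4 d ^ 2 * (d * 2 ^ d * 2) + (2 * (d * 2 ^ d) * C + 1) ^ 2) with hK2
  set CL : ℝ := max C (max K1 K2) with hCL
  have hCLC : C ≤ CL := le_max_left _ _
  have hCL1 : 1 ≤ CL := hC.trans hCLC
  have hCLX : K1 ≤ CL := (le_max_left _ _).trans (le_max_right _ _)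
  have hCLQ : K2 ≤ CL := (le_max_right _ _).trans (le_max_right _ _)
  obtain ⟨D5, hD5, hdel⟩ := tor_del d hd C hC
  obtain ⟨a2, ch, ck, δ, A0', ha2, ha2a, hch, hck, hδ, hA0', hloc⟩ := loc2o CL c0 a β (ρ / 2) hCL1
    hc0 ha hβ (half_pos hρ)
  obtain ⟨r, hr⟩ := E1_exists_r D5 (δ / 2) (half_pos hδ)
  obtain ⟨c3, A1, hc3, hA1, hcut⟩ := loc_cut2 CL a2 ch ck cp (ρ / 2) r (r + 1) (2 * d)
    ((r + 1) * ((1 + 2 * d) * (r + 1))) (Nat.one_le_iff_ne_zero.2 (by positivity)) (by linarith) ha2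
    hch hck hcp hcp1 (half_pos hρ)
  obtain ⟨A0, hA⟩ : ∃ A0 : ℝ, 1 ≤ A0 ∧ A0' ≤ A0 ∧ A1 ≤ A0 ∧ 1 / c3 ≤ A0 ∧ 2 * D5 / δ ≤ A0 ∧
      (((2 * r + 2) ^ d : ℕ) : ℝ) ≤ A0 ∧ A1 ^ 2 * (d : ℝ) ^ 2 * C ≤ A0 := by
    refine ⟨max A1 (max A0' (max (1 / c3) (max (2 * D5 / δ) (max (((2 * r + 2) ^ d : ℕ) : ℝ)
      (A1 ^ 2 * (d : ℝ) ^ 2 * C))))), hA1.trans (le_max_left _ _), ?_, le_max_left _ _, ?_, ?_, ?_, ?_⟩
    · exact (le_max_left _ _).trans (le_max_right _ _)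
    · exact ((le_max_left _ _).trans (le_max_right _ _)).trans (le_max_right _ _)
    · exact (((le_max_left _ _).trans (le_max_right _ _)).trans (le_max_right _ _)).trans
        (le_max_right _ _)
    · exact ((((le_max_left _ _).trans (le_max_right _ _)).trans (le_max_right _ _)).trans
        (le_max_right _ _)).trans (le_max_right _ _)
    · exact ((((le_max_right _ _).trans (le_max_right _ _)).trans (le_max_right _ _)).trans
        (le_max_right _ _)).trans (le_max_right _ _)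
  obtain ⟨hA01, hAA', hAA1, hAc, hAD, hAr, hAl⟩ := hA
  refine ⟨a2, c3, A0, ha2, ha2a, hc3, hA01, ?_⟩
  intro n _ _ p χ hp hp1 hχ hv hn hU hV hB
  have hpp0 : 0 ≤ p := hcp.le.trans hp
  have hpp1 : p ≤ 1 := by linarith
  have hχ1 : 1 ≤ χ := hA01.trans hχ
  have hχ0 : 0 < χ := by linarith
  have hcard : (Fintype.card (Fin d → ZMod n) : ℝ) = (n : ℝ) ^ d := by
    have h : Fintype.card (Fin d → ZMod n) = n ^ d := by
      rw [Fintype.card_fun, ZMod.card, Fintype.card_fin]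
    rw [h]
    push_cast
    rfl
  have hχ3 : 1 ≤ χ ^ 3 := one_le_pow₀ hχ1
  have hvA : A0 ≤ (n : ℝ) ^ d := by
    have h : A0 * 1 ≤ A0 * χ ^ 3 := mul_le_mul_of_nonneg_left hχ3 (by linarith)
    linarith
  have hv0 : 0 < (n : ℝ) ^ d := by linarith
  have hnr : 2 * r + 2 ≤ n := by
    have h : (((2 * r + 2) ^ d : ℕ) : ℝ) ≤ ((n ^ d : ℕ) : ℝ) := by
      push_cast at hAr ⊢
      exact hAr.trans hvA
    have h2 : (2 * r + 2) ^ d ≤ n ^ d := by exact_mod_cast h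
    exact (Nat.pow_le_pow_iff_left (by omega)).1 h2
  set i0 : Fin d := ⟨0, by omega⟩ with hi0
  have hinj : Set.InjOn (fun u : Fin d → ZMod n => tpi i0 u r) (Finset.univ : Finset (Fin d → ZMod n)) :=
    (tpi_inj i0 r).injOn
  have hcardlow : ∀ A : ℝ, A ≤ A0 → A * χ ^ 3 ≤ Fintype.card (Fin d → ZMod n) := by
    intro A hA
    rw [hcard]
    exact (mul_le_mul_of_nonneg_right hA (by positivity)).trans hv
  have hnc := hloc (Fin d → ZMod n) (torG d n).edgeSet (gends (torG d n)) p χ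
    (fun u => tpi i0 u r) Finset.univ hpp0 hpp1 (hAA'.trans hχ) (hcardlow A0' hAA') (by
      intro x
      exact (tor_X (by omega : 2 ≤ d) hC hχ0 hn hU x).trans (mul_le_mul_of_nonneg_right hCLX hχ0.le)) (by
      intro x k hk
      exact (hV x k hk).trans (div_le_div_of_nonneg_right hCLC (Real.sqrt_nonneg _))) (by
      intro x
      rw [hcard]
      exact (tor_sq hd hpp0 hpp1 hC hχ0 hn hU x).trans (mul_le_mul_of_nonneg_right hCLQ (by positivity)))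
    hinj (by
      intro x
      refine (hdel n p χ hpp0 hpp1 hχ0 hn hU Finset.univ (fun u => tpi i0 u r) hinj r
        (fun u _ => tpi_dist i0 r (by omega) u) x).trans ?_
      have hs : 0 < Real.sqrt ((r : ℝ) + 1) := Real.sqrt_pos.2 (by positivity)
      have h1 : D5 * (1 / Real.sqrt ((r : ℝ) + 1)) ≤ δ / 2 := by
        refine le_trans (mul_le_mul_of_nonneg_left ?_ hD5.le) hr
        exact div_le_div_of_nonneg_right (by norm_num) hs.le
      have h2 : D5 * (χ ^ 3 / (n : ℝ) ^ d) ≤ δ / 2 := by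
        have h3 : 2 * D5 ≤ A0 * δ := by
          rw [div_le_iff₀ hδ] at hAD
          exact hAD
        rw [mul_div_assoc', div_le_iff₀ hv0]
        have h4 : A0 * δ * χ ^ 3 ≤ δ * (n : ℝ) ^ d := by
          calc A0 * δ * χ ^ 3 = δ * (A0 * χ ^ 3) := by ring
            _ ≤ δ * (n : ℝ) ^ d := mul_le_mul_of_nonneg_left hv hδ.le
        have h5 : 2 * D5 * χ ^ 3 ≤ A0 * δ * χ ^ 3 := mul_le_mul_of_nonneg_right h3 (by positivity)
        linarith
      rw [mul_add]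
      linarith) (by
      intro u _ v _
      rw [hcard]
      exact hB _ _)
  rw [hcard] at hnc
  have hlog : A1 * Real.log ((n : ℝ) ^ d + 1) ≤ χ := by
    have h1 : (n : ℝ) ^ d + 1 ≤ ((n : ℝ) + 1) ^ d := by
      have : n ^ d + 1 ^ d ≤ (n + 1) ^ d := pow_add_pow_le (by omega) (by omega) (by omega)
      rw [one_pow] at this
      exact_mod_cast this
    have h2 : Real.log ((n : ℝ) ^ d + 1) ≤ d * (n : ℝ) := by
      calc Real.log ((n : ℝ) ^ d + 1) ≤ Real.log (((n : ℝ) + 1) ^ d) :=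
            Real.log_le_log (by positivity) h1
        _ = d * Real.log ((n : ℝ) + 1) := by rw [Real.log_pow]
        _ ≤ d * (n : ℝ) := by
          apply mul_le_mul_of_nonneg_left _ (Nat.cast_nonneg _)
          have := Real.log_le_sub_one_of_pos (by positivity : (0 : ℝ) < (n : ℝ) + 1)
          linarith
    refine (mul_le_mul_of_nonneg_left h2 (by linarith)).trans ?_
    have h3 : (A1 * (d * (n : ℝ))) ^ 2 ≤ χ ^ 2 := by
      calc (A1 * (d * (n : ℝ))) ^ 2 = A1 ^ 2 * (d : ℝ) ^ 2 * (n : ℝ) ^ 2 := by ring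
        _ ≤ A1 ^ 2 * (d : ℝ) ^ 2 * (C * χ) := mul_le_mul_of_nonneg_left hn (by positivity)
        _ = (A1 ^ 2 * (d : ℝ) ^ 2 * C) * χ := by ring
        _ ≤ χ * χ := mul_le_mul_of_nonneg_right (hAl.trans hχ) hχ0.le
        _ = χ ^ 2 := by ring
    exact (pow_le_pow_iff_left₀ (by positivity) hχ0.le (by norm_num)).1 h3
  obtain ⟨kk, κ, j, hj, hj2, hκ, hkk, hE⟩ := hcut (Fin d → ZMod n) (torG d n).edgeSet
    (gends (torG d n)) p χ (a * χ ^ 2) (β * (n : ℝ) ^ d / χ) (fun u => tpi i0 u r) Finset.univ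
    (fun u l => tpi i0 u l) hp hp1 (hAA1.trans hχ) (hcardlow A1 hAA1) (by
      rw [hcard]
      exact hlog) (by
      intro x k hk
      exact (hV x k hk).trans (div_le_div_of_nonneg_right hCLC (Real.sqrt_nonneg _)))
    (fun u _ => by simp [tpi]) (fun u _ => rfl)
    (fun x j _ => tpi_edge i0 (by omega) x j) (fun v => by
      have := tor_edeg (d := d) (n := n) v
      exact this) (fun x => by
      have := AE.conf_le (ends := gends (torG d n)) (fun (u : Fin d → ZMod n) (l : ℕ) => tpi i0 u l) r (2 * d)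
        (r + 1)
        (fun v => by
          have := tor_edeg (d := d) (n := n) v
          exact this) (fun v => tpi_cov i0 r v) x
      exact this) (fun v => tpi_cov i0 r v)
  rw [hcard] at hj hj2 hkk
  refine ⟨kk, κ, j, ?_, hj2, hκ, hkk, ?_⟩
  · have h1 : (1 : ℝ) ≤ c3 * (n : ℝ) ^ d / χ ^ 3 := by
      rw [le_div_iff₀ (by positivity), one_mul]
      have h2 : 1 ≤ c3 * A0 := by
        rw [div_le_iff₀ hc3] at hAc
        linarith
      calc χ ^ 3 = 1 * χ ^ 3 := by ring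
        _ ≤ c3 * A0 * χ ^ 3 := mul_le_mul_of_nonneg_right h2 (by positivity)
        _ = c3 * (A0 * χ ^ 3) := by ring
        _ ≤ c3 * (n : ℝ) ^ d := mul_le_mul_of_nonneg_left hv hc3.le
    exact_mod_cast h1.trans hj2
  · have := hnc j hj
    linarith

open scoped Classical in
/-- Row D2. The main component on the torus: `lam_o` (`a`, `b0`, constant `CL` of `tor_X`; `vol` of the whole set at least `4 b0 n^d/χ` up to `ρ/4`), `tor_E2` with this `a`, `β = b0`, `ρ/4`, `num_o`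
(`n0`, `K0`) with `gc_many`, `main_o`. -/
theorem tor_good (d : ℕ) (hd : 9 ≤ d) (C c0 cp : ℝ) (hC : 1 ≤ C) (hc0 : 0 < c0) (hcp : 0 < cp) (hcp1 : cp ≤ 1) :
    ∃ a b0 : ℝ, 0 < a ∧ 0 < b0 ∧ ∀ ρ : ℝ, 0 < ρ → ∃ K0 A0 : ℝ, 0 < K0 ∧ 1 ≤ A0 ∧ ∀ (n : ℕ) [NeZero n] [Fintype (torG d n).edgeSet] (p χ s : ℝ),
      cp ≤ p → cp ≤ 1 - p → A0 ≤ χ → A0 * χ ^ 3 ≤ (n : ℝ) ^ d → (n : ℝ) ^ 2 ≤ C * χ → UT d n C p χ →
      (∀ x, ∀ k : ℕ, 1 ≤ k → Ex p (fun ω => if (k : ℝ) ≤ cz (gends (torG d n)) ω x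
        then (1 : ℝ) else 0) ≤ C / Real.sqrt k) →
      (∀ x y, c0 * χ / (n : ℝ) ^ d ≤ ta (gends (torG d n)) p x y) → K0 / χ ≤ s → s ≤ 1 →
      Ex p (fun ω => Ex s (fun η => if ¬ ∃ y, 3 * (b0 * (n : ℝ) ^ d / χ) ≤
        vol (gends (torG d n)) ω Finset.univ (a * χ ^ 2) (cu (gends (torG d n)) (orc ω η) y) then (1 : ℝ) else 0)) ≤ ρ := by
  have hd2 : 2 ≤ d := by omega
  have hq : (1 : ℝ) ≤ d * 2 ^ d * C + 1 := by
    have : (0 : ℝ) ≤ d * 2 ^ d * C := by positivity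
    linarith
  have hCL1 : C ≤ C * (d * 2 ^ d * C + 1) := le_mul_of_one_le_right (by linarith) hq
  have hCL0 : 1 ≤ C * (d * 2 ^ d * C + 1) := le_trans hC hCL1
  obtain ⟨a, b0, ha, hb0, H⟩ := lam_o (C * (d * 2 ^ d * C + 1)) c0 hCL0 hc0
  refine ⟨a, b0, ha, hb0, ?_⟩
  intro ρ hρ
  obtain ⟨A1, hA1, HL⟩ := H (ρ / 4) (by linarith)
  obtain ⟨a2, c3, A2, ha2, ha2a, hc3, hA2, HT⟩ :=
    tor_E2 d hd C c0 cp a b0 (ρ / 4) hC hc0 hcp hcp1 ha hb0 (by linarith)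
  obtain ⟨K0, A3, hK0, hA3, HN⟩ := num_o C a2 c3 ρ (by linarith) ha2 hc3 hρ
  refine ⟨K0, max (max A1 A2) (max A3 (1 / a2 + 1)), hK0,
    le_trans hA1 (le_trans (le_max_left _ _) (le_max_left _ _)), ?_⟩
  intro n _ _ p χ s hp hp1 hχA hχn hn hU hT hL hs hs1
  have hχ1 : A1 ≤ χ := le_trans (le_trans (le_max_left _ _) (le_max_left _ _)) hχA
  have hχ2 : A2 ≤ χ := le_trans (le_trans (le_max_right _ _) (le_max_left _ _)) hχA
  have hχ3 : A3 ≤ χ := le_trans (le_trans (le_max_left _ _) (le_max_right _ _)) hχA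
  have hχ4 : 1 / a2 + 1 ≤ χ := le_trans (le_trans (le_max_right _ _) (le_max_right _ _)) hχA
  have hχ1' : 1 ≤ χ := le_trans hA1 hχ1
  have hχ : 0 < χ := by linarith
  have hχc : 0 ≤ χ ^ 3 := by positivity
  have h0 : 0 ≤ p := by linarith
  have h1 : p ≤ 1 := by linarith
  have hmul : ∀ A : ℝ, A ≤ max (max A1 A2) (max A3 (1 / a2 + 1)) → A * χ ^ 3 ≤ (n : ℝ) ^ d :=
    fun A hA => le_trans (mul_le_mul_of_nonneg_right hA hχc) hχn
  have hcard : ((Fintype.card (Fin d → ZMod n) : ℕ) : ℝ) = (n : ℝ) ^ d := by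
    simp [ZMod.card]
  have hs0 : 0 ≤ s := le_trans (by positivity) hs
  have hvpos : (0 : ℝ) < (n : ℝ) ^ d := by
    have : (0 : ℝ) < (n : ℝ) := by exact_mod_cast Nat.pos_of_ne_zero (NeZero.ne n)
    positivity
  have hk2 : 1 ≤ a2 * χ ^ 2 := by
    have e1 : 1 / a2 ≤ χ ^ 2 := by linarith [le_self_pow₀ hχ1' two_ne_zero]
    have e2 : a2 * (1 / a2) = 1 := by field_simp
    linarith [mul_le_mul_of_nonneg_left e1 ha2.le]
  have m1 : Ex p (fun ω => if vol (gends (torG d n)) ω Finset.univ (a * χ ^ 2) Finset.univ <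
      4 * (b0 * (n : ℝ) ^ d / χ) then (1 : ℝ) else 0) ≤ ρ / 4 := by
    have := HL (Fin d → ZMod n) (torG d n).edgeSet (gends (torG d n)) p χ h0 h1 hχ1
      (by rw [hcard]; exact hmul _ (le_trans (le_max_left _ _) (le_max_left _ _)))
      (fun x => tor_X hd2 hC hχ hn hU x)
      (fun x k hk => le_trans (hT x k hk) (div_le_div_of_nonneg_right hCL1 (Real.sqrt_nonneg _)))
      (fun u v => by rw [hcard]; exact hL u v)
    rw [hcard] at this
    exact this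
  obtain ⟨kk, κ, j, hj, hj2, hκ, hkk, m2⟩ := HT n p χ hp hp1 hχ2
    (hmul _ (le_trans (le_max_right _ _) (le_max_left _ _))) hn hU hT hL
  obtain ⟨n0, hn0, m3, m4⟩ := HN χ ((n : ℝ) ^ d) s kk hχ3
    (hmul _ (le_trans (le_max_left _ _) (le_max_right _ _))) hkk hs hs1
  have m5 := gc_many (ends := gends (torG d n)) (C := C) (k2 := a2 * χ ^ 2) h0 h1 (by linarith) hk2 hT n0 hn0
  rw [hcard] at m5
  have m6 := main_o (ends := gends (torG d n)) (p := p) (s := s) (k2 := a2 * χ ^ 2) (A2 := a * χ ^ 2)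
    (β := b0 * (n : ℝ) ^ d / χ) h0 h1 hs0 hs1 (by positivity)
    (mul_le_mul_of_nonneg_right ha2a (by positivity)) Finset.univ kk κ j n0 hj
  refine le_trans m6 ?_
  linarith

private lemma D3_inv {t ε : ℝ} (hε : 0 < ε) (h : 1 ≤ t * ε ^ 2) :
    0 < t ∧ 1 / t ≤ ε ^ 2 ∧ Real.sqrt t / t ≤ ε := by
  have ht : 0 < t := by
    by_contra h0
    push Not at h0
    have h1 : 0 ≤ ε ^ 2 := sq_nonneg ε
    have h2 := mul_le_mul_of_nonneg_right h0 h1
    linarith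
  have h1 : 1 / ε ≤ Real.sqrt t := by
    rw [Real.le_sqrt' (by positivity), div_pow, one_pow, div_le_iff₀ (by positivity)]
    exact h
  have h2 : 1 / Real.sqrt t ≤ ε := by
    have h3 := one_div_le_one_div_of_le (by positivity : 0 < 1 / ε) h1
    rwa [one_div_one_div] at h3
  refine ⟨ht, ?_, ?_⟩
  · rw [div_le_iff₀ ht]
    linarith
  · have h4 : Real.sqrt t / t = 1 / Real.sqrt t := by
      have h5 : 0 < Real.sqrt t := Real.sqrt_pos.2 ht
      rw [div_eq_div_iff ht.ne' h5.ne', Real.mul_self_sqrt ht.le, one_mul]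
    rw [h4]
    exact h2

/-- Row D3 (numbers). The term of `mass_o`. -/
private lemma D3_mass {C η e γ cp d v h s A2 : ℝ} (hη : 0 < η) (he : 0 < e) (hC : 0 < C)
    (hcp : 0 < cp) (hd : 0 ≤ d) (hv : 0 < v) (hh : 1 ≤ h * e ^ 2) (hs0 : 0 ≤ s) (hs : s ≤ e / cp)
    (hγ : γ = η ^ 2 / (192 * C * (1 + 8 * C * d / cp))) (hA : Real.sqrt A2 ≤ γ / e) :
    v * (2 * (1 / h + s * (2 * d) * (3 * C * Real.sqrt h + C * e * h) / h) *
      (3 * C * Real.sqrt A2)) / (η * e * v / 2) ≤ η / 8 := by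
  obtain ⟨hh0, h2, h3⟩ := D3_inv he hh
  have hw : 0 < 1 + 8 * C * d / cp := by positivity
  have hγ0 : 0 < γ := by rw [hγ]; positivity
  have e3 : (3 * C * Real.sqrt h + C * e * h) / h ≤ 4 * C * e := by
    have : (3 * C * Real.sqrt h + C * e * h) / h = 3 * C * (Real.sqrt h / h) + C * e := by
      field_simp
    rw [this]
    linarith [mul_le_mul_of_nonneg_left h3 (by positivity : (0 : ℝ) ≤ 3 * C)]
  have e4 : 0 ≤ (3 * C * Real.sqrt h + C * e * h) / h := by positivity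
  have e5 : s * (2 * d) ≤ e / cp * (2 * d) := mul_le_mul_of_nonneg_right hs (by positivity)
  have e2 : s * (2 * d) * (3 * C * Real.sqrt h + C * e * h) / h ≤ 8 * C * d / cp * e ^ 2 := by
    calc s * (2 * d) * (3 * C * Real.sqrt h + C * e * h) / h
        = s * (2 * d) * ((3 * C * Real.sqrt h + C * e * h) / h) := by ring
      _ ≤ e / cp * (2 * d) * ((3 * C * Real.sqrt h + C * e * h) / h) :=
          mul_le_mul_of_nonneg_right e5 e4
      _ ≤ e / cp * (2 * d) * (4 * C * e) := mul_le_mul_of_nonneg_left e3 (by positivity)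
      _ = 8 * C * d / cp * e ^ 2 := by ring
  have e7 : 1 / h + s * (2 * d) * (3 * C * Real.sqrt h + C * e * h) / h ≤
      (1 + 8 * C * d / cp) * e ^ 2 := by linarith
  have e8 : 0 ≤ 1 / h + s * (2 * d) * (3 * C * Real.sqrt h + C * e * h) / h := by positivity
  have e9 : 2 * (1 / h + s * (2 * d) * (3 * C * Real.sqrt h + C * e * h) / h) *
      (3 * C * Real.sqrt A2) ≤ 6 * C * (1 + 8 * C * d / cp) * γ * e := by
    calc 2 * (1 / h + s * (2 * d) * (3 * C * Real.sqrt h + C * e * h) / h) * (3 * C * Real.sqrt A2)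
        ≤ 2 * ((1 + 8 * C * d / cp) * e ^ 2) * (3 * C * Real.sqrt A2) :=
          mul_le_mul_of_nonneg_right (by linarith) (by positivity)
      _ ≤ 2 * ((1 + 8 * C * d / cp) * e ^ 2) * (3 * C * (γ / e)) :=
          mul_le_mul_of_nonneg_left (mul_le_mul_of_nonneg_left hA (by positivity)) (by positivity)
      _ = 6 * C * (1 + 8 * C * d / cp) * γ * e := by
          field_simp
          ring
  calc v * (2 * (1 / h + s * (2 * d) * (3 * C * Real.sqrt h + C * e * h) / h) *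
        (3 * C * Real.sqrt A2)) / (η * e * v / 2)
      ≤ v * (6 * C * (1 + 8 * C * d / cp) * γ * e) / (η * e * v / 2) :=
        div_le_div_of_nonneg_right (mul_le_mul_of_nonneg_left e9 hv.le) (by positivity)
    _ = 12 * C * (1 + 8 * C * d / cp) * γ / η := by
        field_simp
        ring
    _ = η / 16 := by
        rw [hγ]
        generalize 1 + 8 * C * d / cp = w at hw
        field_simp
        norm_num
    _ ≤ η / 8 := by linarith

section D3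

variable {E : Type*} [Fintype E] [DecidableEq E]

private lemma D3_orc3 (p s1 s2 s3 : ℝ) (f : (E → Bool) → ℝ) :
    Ex (1 - (1 - p) * (1 - s1) * (1 - s2) * (1 - s3)) f =
      Ex p (fun ω => Ex s1 (fun η1 => Ex s2 (fun η2 => Ex s3 (fun η3 =>
        f (orc (orc (orc ω η1) η2) η3))))) := by
  have e3 : 1 - (1 - p) * (1 - s1) * (1 - s2) * (1 - s3) =
      1 - (1 - (1 - (1 - (1 - (1 - p) * (1 - s1))) * (1 - s2))) * (1 - s3) := by ring
  rw [e3, Ex_orc, Ex_orc, Ex_orc]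

private lemma D3_mono {p s1 s2 s3 : ℝ} (h0 : 0 ≤ p) (h1 : p ≤ 1) (h10 : 0 ≤ s1) (h11 : s1 ≤ 1)
    (h20 : 0 ≤ s2) (h21 : s2 ≤ 1) (h30 : 0 ≤ s3) (h31 : s3 ≤ 1)
    (f a b c g : (E → Bool) → (E → Bool) → (E → Bool) → (E → Bool) → ℝ)
    (h : ∀ ω η1 η2 η3, f ω η1 η2 η3 ≤
      a ω η1 η2 η3 + (b ω η1 η2 η3 + (c ω η1 η2 η3 + g ω η1 η2 η3))) :
    Ex p (fun ω => Ex s1 (fun η1 => Ex s2 (fun η2 => Ex s3 (fun η3 => f ω η1 η2 η3)))) ≤
      Ex p (fun ω => Ex s1 (fun η1 => Ex s2 (fun η2 => Ex s3 (fun η3 => a ω η1 η2 η3)))) +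
      (Ex p (fun ω => Ex s1 (fun η1 => Ex s2 (fun η2 => Ex s3 (fun η3 => b ω η1 η2 η3)))) +
      (Ex p (fun ω => Ex s1 (fun η1 => Ex s2 (fun η2 => Ex s3 (fun η3 => c ω η1 η2 η3)))) +
      Ex p (fun ω => Ex s1 (fun η1 => Ex s2 (fun η2 => Ex s3 (fun η3 => g ω η1 η2 η3)))))) := by
  rw [← Ex_add, ← Ex_add, ← Ex_add]
  refine Ex_mono h0 h1 fun ω => ?_
  rw [← Ex_add, ← Ex_add, ← Ex_add]
  refine Ex_mono h10 h11 fun η1 => ?_
  rw [← Ex_add, ← Ex_add, ← Ex_add]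
  refine Ex_mono h20 h21 fun η2 => ?_
  rw [← Ex_add, ← Ex_add, ← Ex_add]
  exact Ex_mono h30 h31 fun η3 => h ω η1 η2 η3

private lemma D3_c2 {p s1 s2 s3 : ℝ} (F : (E → Bool) → (E → Bool) → ℝ) :
    Ex p (fun ω => Ex s1 (fun η1 => Ex s2 (fun (_ : E → Bool) => Ex s3 (fun (_ : E → Bool) =>
      F ω η1)))) = Ex p (fun ω => Ex s1 (fun η1 => F ω η1)) := by
  refine Ex_congr fun ω => Ex_congr fun η1 => ?_
  rw [Ex_const, Ex_const]

private lemma D3_c1 {p s1 s2 s3 : ℝ} (F : (E → Bool) → ℝ) :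
    Ex p (fun ω => Ex s1 (fun (_ : E → Bool) => Ex s2 (fun (_ : E → Bool) => Ex s3
      (fun (_ : E → Bool) => F ω)))) = Ex p F := by
  refine Ex_congr fun ω => ?_
  rw [Ex_const, Ex_const, Ex_const]

variable {V : Type*} [Fintype V] [DecidableEq V] {ends : E → Sym2 V}

private lemma D3_y0 [Nonempty V] {t A2 : ℝ} : ∃ y0 : (E → Bool) → (E → Bool) → V, ∀ ω η1,
    (∃ y, t ≤ vol ends ω Finset.univ A2 (cu ends (orc ω η1) y)) →
      t ≤ vol ends ω Finset.univ A2 (cu ends (orc ω η1) (y0 ω η1)) :=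
  ⟨fun ω η1 => Classical.epsilon (fun y => t ≤ vol ends ω Finset.univ A2 (cu ends (orc ω η1) y)),
    fun _ _ hex => Classical.epsilon_spec hex⟩

open scoped Classical in
private lemma D3_ceil {P C e t : ℝ} (hC : 0 ≤ C) (ht : 1 ≤ t)
    (hT' : ∀ x, ∀ k : ℕ, 1 ≤ k → Ex P (fun ω =>
      if (k : ℝ) ≤ cz ends ω x then (1 : ℝ) else 0) ≤ C * (1 / Real.sqrt k + e)) (x : V) :
    Ex P (fun ω => if t ≤ cz ends ω x then (1 : ℝ) else 0) ≤ C * (1 / Real.sqrt t + e) := by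
  have hk1 : 1 ≤ ⌈t⌉₊ := Nat.one_le_ceil_iff.2 (by linarith)
  have hle : t ≤ (⌈t⌉₊ : ℝ) := Nat.le_ceil t
  refine le_trans (le_of_eq (Ex_congr fun ω => ?_)) (le_trans (hT' x ⌈t⌉₊ hk1) ?_)
  · have : t ≤ cz ends ω x ↔ ((⌈t⌉₊ : ℕ) : ℝ) ≤ cz ends ω x := by
      unfold cz
      rw [Nat.cast_le, Nat.ceil_le]
    exact if_congr this rfl rfl
  · have h2 : 0 < Real.sqrt t := Real.sqrt_pos.2 (by linarith)
    have h3 : Real.sqrt t ≤ Real.sqrt (⌈t⌉₊ : ℝ) := Real.sqrt_le_sqrt hle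
    have h4 : 1 / Real.sqrt (⌈t⌉₊ : ℝ) ≤ 1 / Real.sqrt t := one_div_le_one_div_of_le h2 h3
    exact mul_le_mul_of_nonneg_left (by linarith) hC

open scoped Classical in
/-- The splitting of the event. -/
private lemma D3_pt {T h : ℝ} (β' : E → Bool) (y0 : V) (G B : Prop) (vF : Finset V → ℝ)
    (S : Finset V → Prop) (hS : G → ¬ B → ∀ F, T / 2 ≤ vF F → S F) :
    (if ∀ y, T ≤ ((Fm ends β' h y).card : ℝ) then (1 : ℝ) else 0) ≤
      (if ¬ G then (1 : ℝ) else 0) +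
      ((if T ≤ ((Fm ends β' h y0).card : ℝ) ∧ vF (Fm ends β' h y0) < T / 2 then (1 : ℝ) else 0) +
      ((if B then (1 : ℝ) else 0) + (if S (Fm ends β' h y0) then (1 : ℝ) else 0))) := by
  have n1 : (0 : ℝ) ≤ (if ¬ G then (1 : ℝ) else 0) := by split_ifs <;> norm_num
  have n2 : (0 : ℝ) ≤ (if T ≤ ((Fm ends β' h y0).card : ℝ) ∧ vF (Fm ends β' h y0) < T / 2
      then (1 : ℝ) else 0) := by
    split_ifs <;> norm_num
  have n3 : (0 : ℝ) ≤ (if B then (1 : ℝ) else 0) := by split_ifs <;> norm_num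
  have n4 : (0 : ℝ) ≤ (if S (Fm ends β' h y0) then (1 : ℝ) else 0) := by
    split_ifs <;> norm_num
  by_cases hE : ∀ y, T ≤ ((Fm ends β' h y).card : ℝ)
  · rw [if_pos hE]
    by_cases hG : G
    · by_cases hB : B
      · have : (if B then (1 : ℝ) else 0) = 1 := if_pos hB
        linarith
      · by_cases hv : vF (Fm ends β' h y0) < T / 2
        · have : (if T ≤ ((Fm ends β' h y0).card : ℝ) ∧ vF (Fm ends β' h y0) < T / 2
            then (1 : ℝ) else 0) = 1 := if_pos ⟨hE y0, hv⟩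
          linarith
        · have : (if S (Fm ends β' h y0) then (1 : ℝ) else 0) = 1 :=
            if_pos (hS hG hB _ (not_lt.1 hv))
          linarith
    · have : (if ¬ G then (1 : ℝ) else 0) = 1 := if_pos hG
      linarith
  · rw [if_neg hE]
    linarith

private lemma D3_vol_anti {ω : E → Bool} {W : Finset V} {A A' : ℝ} (h : A ≤ A') (U : Finset V) :
    vol ends ω W A' U ≤ vol ends ω W A U := by
  classical
  unfold vol
  rw [Nat.cast_le]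
  apply Finset.card_le_card
  intro x hx
  rw [Finset.mem_filter] at hx ⊢
  exact ⟨hx.1, hx.2.1, h.trans hx.2.2⟩

private lemma D3_vol_card {ω ω' : E → Bool} {W : Finset V} {A : ℝ} (y : V) :
    vol ends ω W A (cu ends ω' y) ≤ cz ends ω' y := by
  classical
  unfold vol cz
  rw [Nat.cast_le]
  apply Finset.card_le_card
  intro x hx
  rw [Finset.mem_filter] at hx
  exact hx.2.1

private lemma D3_if {P : Prop} (i j : Decidable P) : @ite ℝ P i 1 0 = @ite ℝ P j 1 0 := by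
  congr

open scoped Classical in
/-- Row D3 (a general graph). The event is split into four. -/
private lemma D3_gen {p s1 s2 s3 T t h k2 A2 A2' β δ1 δ2 δ3 δ4 : ℝ} {kk κ j : ℕ} (h0 : 0 ≤ p)
    (h1 : p ≤ 1) (h10 : 0 ≤ s1) (h11 : s1 ≤ 1) (h20 : 0 ≤ s2) (h21 : s2 ≤ 1) (h30 : 0 ≤ s3)
    (h31 : s3 ≤ 1) (y0 : (E → Bool) → (E → Bool) → V)
    (hy0 : ∀ ω η1, (∃ y, t ≤ vol ends ω Finset.univ A2' (cu ends (orc ω η1) y)) →
      t ≤ vol ends ω Finset.univ A2' (cu ends (orc ω η1) (y0 ω η1)))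
    (hAA : A2 ≤ A2') (hβt : β ≤ t) (hβT : β ≤ T / 2)
    (hG : Ex p (fun ω => Ex s1 (fun η => if ¬ ∃ y, t ≤ vol ends ω Finset.univ A2'
      (cu ends (orc ω η) y) then (1 : ℝ) else 0)) ≤ δ1)
    (hM : Ex p (fun ω => Ex s1 (fun η1 => Ex s2 (fun η2 => Ex s3 (fun η3 =>
      if T ≤ ((Fm ends (orc (orc (orc ω η1) η2) η3) h (y0 ω η1)).card : ℝ) ∧
        vol ends ω Finset.univ A2 (Fm ends (orc (orc (orc ω η1) η2) η3) h (y0 ω η1)) < T / 2
        then (1 : ℝ) else 0)))) ≤ δ2)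
    (hB : Ex p (fun ω => if BadE2 ends ω Finset.univ k2 A2 β kk κ j then (1 : ℝ) else 0) ≤ δ3)
    (hu : Ex p (fun ω => Ex s1 (fun η1 => Ex s2 (fun η2 => Ex s3 (fun η3 =>
      if t ≤ cz ends (orc ω η1) (y0 ω η1) ∧ Sh1 ends Finset.univ k2 A2 β kk κ j ω
        (cu ends (orc ω η1) (y0 ω η1))
        (Fm ends (orc (orc (orc ω η1) η2) η3) h (y0 ω η1)) then (1 : ℝ) else 0)))) ≤ δ4) :
    Ex (1 - (1 - p) * (1 - s1) * (1 - s2) * (1 - s3)) (fun ω =>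
      if ∀ y, T ≤ ((Fm ends ω h y).card : ℝ) then (1 : ℝ) else 0) ≤ δ1 + (δ2 + (δ3 + δ4)) := by
  obtain ⟨G, hGd⟩ : ∃ G : (E → Bool) → (E → Bool) → Prop, G = fun ω η1 =>
    ∃ y, t ≤ vol ends ω Finset.univ A2' (cu ends (orc ω η1) y) := ⟨_, rfl⟩
  obtain ⟨B, hBd⟩ : ∃ B : (E → Bool) → Prop, B = fun ω =>
    BadE2 ends ω Finset.univ k2 A2 β kk κ j := ⟨_, rfl⟩
  obtain ⟨S, hSd⟩ : ∃ S : (E → Bool) → (E → Bool) → Finset V → Prop, S = fun ω η1 F =>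
    t ≤ cz ends (orc ω η1) (y0 ω η1) ∧ Sh1 ends Finset.univ k2 A2 β kk κ j ω
        (cu ends (orc ω η1) (y0 ω η1)) F := ⟨_, rfl⟩
  have hG' : Ex p (fun ω => Ex s1 (fun η1 => if ¬ G ω η1 then (1 : ℝ) else 0)) ≤ δ1 := by
    rw [hGd]
    exact le_trans (le_of_eq (Ex_congr fun ω => Ex_congr fun η1 => D3_if _ _)) hG
  have hB' : Ex p (fun ω => if B ω then (1 : ℝ) else 0) ≤ δ3 := by
    rw [hBd]
    exact le_trans (le_of_eq (Ex_congr fun ω => D3_if _ _)) hB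
  have hu' : Ex p (fun ω => Ex s1 (fun η1 => Ex s2 (fun η2 => Ex s3 (fun η3 =>
      if S ω η1 (Fm ends (orc (orc (orc ω η1) η2) η3) h (y0 ω η1)) then (1 : ℝ) else 0)))) ≤ δ4 := by
    rw [hSd]
    exact le_trans (le_of_eq (Ex_congr fun ω => Ex_congr fun η1 => Ex_congr fun η2 =>
      Ex_congr fun η3 => D3_if _ _)) hu
  have hS : ∀ ω η1, G ω η1 → ¬ B ω → ∀ F, T / 2 ≤ vol ends ω Finset.univ A2 F → S ω η1 F := by
    intro ω η1 hex hBB F hF
    rw [hGd] at hex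
    rw [hBd] at hBB
    rw [hSd]
    have h1 := hy0 ω η1 hex
    have h2 := D3_vol_anti (ends := ends) (ω := ω) (W := Finset.univ) hAA
      (cu ends (orc ω η1) (y0 ω η1))
    have h3 := D3_vol_card (ends := ends) (ω := ω) (ω' := orc ω η1) (W := Finset.univ)
      (A := A2') (y0 ω η1)
    exact ⟨h1.trans h3, hBB, hβt.trans (h1.trans h2), hβT.trans hF⟩
  rw [D3_orc3]
  refine le_trans (D3_mono h0 h1 h10 h11 h20 h21 h30 h31 _ _ _ _ _ (fun ω η1 η2 η3 =>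
    D3_pt (orc (orc (orc ω η1) η2) η3) (y0 ω η1) (G ω η1) (B ω)
      (vol ends ω Finset.univ A2) (S ω η1) (hS ω η1))) ?_
  rw [D3_c2, D3_c1]
  exact add_le_add hG' (add_le_add hM (add_le_add hB' hu'))

end D3


open scoped Classical in
/-- Row D3. Families on the torus as one box. Compare `tor_fam` (Y/Tf.lean) and `fam_ex` (Y/Lf.lean). `q = p + e`; `spr3` (Y/Cs.lean) gives `s1 ≥ e/4` with `1 - (1-p)(1-s1)(1-e/4)² = p + e` and total sprinkling at most `e/cp`.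
`tor_good` with `ρ = η/8`: `a'`, `b0`, `K0'`; `K0 = max (4 K0') 1`; given `K1 ≥ K0`: `a = min a' (γ/K1)²` with `γ = η²/(192 C (1 + 8 C d/cp))`, `β = min (3 b0) (η K0/4)`; `tor_E2` with `a`, `β`, `η/8`; `num_fam` with `b = 3 b0`, `t = b n^d/χ`,
`δ = η/8`. `y0 ω η1` = a point `y` with `3 b0 n^d/χ ≤ vol .. (a' χ²) (cu (orc ω η1) y)` if there is one (then also `≤ vol .. (a χ²) ..`, `a ≤ a'`, and `t ≤ cz (orc ω η1) y`; `h ≤ t` is assumed). If `η e n^d ≤ |Fm h y|` for all `y` then for `y0`; either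
the main component fails (`η/8`), or `vol ω (Fm ..) < (η/2) e n^d` (`mass_o`: `n^d (2 (1/h + (e/cp) (2 d) (3 C √h + C e h)/h) (3 C √a χ))/((η/2) e n^d) ≤ η/8` since `1/h ≤ e²`, `(3 C √h + C e h)/h ≤ 4 C e` for `h ≥ 1/e²` and `√a χ ≤ γ/e`), or `Sh1` holds for
`β n^d/χ ≤ (η/2) e n^d` (`χ e ≥ K0`): `BadE2` (`η/8`) or `uniq_fam1`, `num_fam` (`η/8`). `χ ≥ K0/e0` is as large as we want; `f = C (1/√h + e)` (tail at `q` with `k = ⌈h⌉`, see `T2_ceil` in Y/Tf.lean). -/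
theorem one_fam (d : ℕ) (hd : 9 ≤ d) (C c0 cp η : ℝ) (hC : 1 ≤ C) (hc0 : 0 < c0) (hcp : 0 < cp)
    (hcp1 : cp ≤ 1) (hη : 0 < η) (hη1 : η ≤ 1) :
    ∃ K0 b : ℝ, 0 < K0 ∧ 0 < b ∧ ∀ K1 : ℝ, K0 ≤ K1 → ∃ A1 A0 e0 : ℝ, 1 ≤ A1 ∧ 1 ≤ A0 ∧ 0 < e0 ∧ ∀ (n : ℕ) [NeZero n] [Fintype (torG d n).edgeSet] (p χ e h : ℝ),
      cp ≤ p → cp ≤ 1 - p → 0 < e → e ≤ e0 → K0 ≤ χ * e → χ * e ≤ K1 → A0 * χ ^ 3 ≤ (n : ℝ) ^ d → (n : ℝ) ^ 2 ≤ C * χ → UT d n C p χ →
      (∀ x, ∀ k : ℕ, 1 ≤ k → Ex p (fun ω => if (k : ℝ) ≤ cz (gends (torG d n)) ω x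
        then (1 : ℝ) else 0) ≤ C / Real.sqrt k) →
      (∀ x, ∀ k : ℕ, 1 ≤ k → Ex (p + e) (fun ω => if (k : ℝ) ≤ cz (gends (torG d n)) ω x
        then (1 : ℝ) else 0) ≤ C * (1 / Real.sqrt k + e)) →
      (∀ x y, c0 * χ / (n : ℝ) ^ d ≤ ta (gends (torG d n)) p x y) → A1 / e ^ 2 ≤ h → h ≤ b * (n : ℝ) ^ d / χ →
      Ex (p + e) (fun ω => if ∀ y, η * e * (n : ℝ) ^ d ≤
        ((Fm (gends (torG d n)) ω h y).card : ℝ) then (1 : ℝ) else 0) ≤ η := by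
  have hC0 : 0 < C := by linarith
  have hdR : (0 : ℝ) ≤ d := Nat.cast_nonneg d
  obtain ⟨a', b0, ha', hb0, hgd⟩ := tor_good d hd C c0 cp hC hc0 hcp hcp1
  obtain ⟨K0', A0g, hK0', hA0g, hgood⟩ := hgd (η / 8) (by positivity)
  set K0 : ℝ := max (4 * K0') 1 with hK0
  have hK01 : 1 ≤ K0 := le_max_right _ _
  have hK04 : 4 * K0' ≤ K0 := le_max_left _ _
  have hK00 : 0 < K0 := by linarith
  refine ⟨K0, 3 * b0, hK00, by positivity, ?_⟩
  intro K1 hK1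
  have hK10 : 0 < K1 := by linarith
  obtain ⟨γ, hγ⟩ : ∃ γ : ℝ, γ = η ^ 2 / (192 * C * (1 + 8 * C * d / cp)) := ⟨_, rfl⟩
  have hw : 0 < 1 + 8 * C * d / cp := by positivity
  have hγ0 : 0 < γ := by rw [hγ]; positivity
  obtain ⟨a, ha⟩ : ∃ a : ℝ, a = min a' ((γ / K1) ^ 2) := ⟨_, rfl⟩
  have hap : 0 < a := by
    rw [ha]
    exact lt_min ha' (by positivity)
  have haa : a ≤ a' := by
    rw [ha]
    exact min_le_left _ _
  have haγ : a ≤ (γ / K1) ^ 2 := by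
    rw [ha]
    exact min_le_right _ _
  obtain ⟨β, hβ⟩ : ∃ β : ℝ, β = min (3 * b0) (η * K0 / 4) := ⟨_, rfl⟩
  have hβp : 0 < β := by
    rw [hβ]
    exact lt_min (by positivity) (by positivity)
  have hβ1 : β ≤ 3 * b0 := by
    rw [hβ]
    exact min_le_left _ _
  have hβ2 : β ≤ η * K0 / 4 := by
    rw [hβ]
    exact min_le_right _ _
  obtain ⟨a2, c3, A0e, ha2, ha2a, hc3, hA0e, hE2⟩ := tor_E2 d hd C c0 cp a β (η / 8) hC hc0 hcp hcp1
    hap hβp (by positivity)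
  obtain ⟨A1, A0n, hA1, hA0n, hnum⟩ := num_fam C c3 K0 K1 (3 * b0) (η / 8) hC hc3 hK00 hK1
    (by positivity) (by positivity)
  obtain ⟨M, hM⟩ : ∃ M : ℝ, M = A0g + A0e + 1 / a := ⟨_, rfl⟩
  have hai : 0 < 1 / a := by positivity
  have hM0 : 0 < M := by rw [hM]; linarith
  refine ⟨A1, max A0g (max A0e A0n), min (min (cp / 2) 1) (K0 / M), hA1,
    hA0g.trans (le_max_left _ _), lt_min (lt_min (by positivity) one_pos) (by positivity), ?_⟩
  intro n _ _ p χ e h hp hp1 he hele hχe1 hχe2 hvol hn2 hU hT hT' hlow hhA hhb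
  have he1 : e ≤ cp / 2 := hele.trans ((min_le_left _ _).trans (min_le_left _ _))
  have he2 : e ≤ 1 := hele.trans ((min_le_left _ _).trans (min_le_right _ _))
  have he3 : e ≤ K0 / M := hele.trans (min_le_right _ _)
  have hχ0 : 0 < χ := by
    by_contra hneg
    have h1 : χ * e ≤ 0 := mul_nonpos_of_nonpos_of_nonneg (not_lt.1 hneg) he.le
    linarith
  have hχM : M ≤ χ := by
    rw [le_div_iff₀ hM0] at he3
    have h1 : e * M ≤ e * χ := by linarith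
    exact le_of_mul_le_mul_left h1 he
  have hχg : A0g ≤ χ := by rw [hM] at hχM; linarith
  have hχe : A0e ≤ χ := by rw [hM] at hχM; linarith
  have hχa : 1 / a ≤ χ := by rw [hM] at hχM; linarith
  have hχ1 : 1 ≤ χ := hA0g.trans hχg
  have hχ3 : 0 < χ ^ 3 := by positivity
  have hvg : A0g * χ ^ 3 ≤ (n : ℝ) ^ d :=
    (mul_le_mul_of_nonneg_right (le_max_left _ _) hχ3.le).trans hvol
  have hve : A0e * χ ^ 3 ≤ (n : ℝ) ^ d :=
    (mul_le_mul_of_nonneg_right ((le_max_left _ _).trans (le_max_right _ _)) hχ3.le).trans hvol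
  have hvn : A0n * χ ^ 3 ≤ (n : ℝ) ^ d :=
    (mul_le_mul_of_nonneg_right ((le_max_right _ _).trans (le_max_right _ _)) hχ3.le).trans hvol
  have hn1 : 1 ≤ n := Nat.one_le_iff_ne_zero.2 (NeZero.ne n)
  have hnR : (1 : ℝ) ≤ n := by exact_mod_cast hn1
  have hnd : (0 : ℝ) < (n : ℝ) ^ d := by positivity
  have hcV : Fintype.card (Fin d → ZMod n) = n ^ d := by
    rw [Fintype.card_fun, ZMod.card, Fintype.card_fin]
  have hcVR : ((Fintype.card (Fin d → ZMod n) : ℕ) : ℝ) = (n : ℝ) ^ d := by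
    rw [hcV]; push_cast; rfl
  -- the threshold
  have hhe : 1 ≤ h * e ^ 2 := by
    rw [div_le_iff₀ (by positivity)] at hhA
    linarith
  have hh1 : 1 ≤ h := by
    have h1 : e ^ 2 ≤ 1 := pow_le_one₀ he.le he2
    obtain ⟨h2, -, -⟩ := D3_inv he hhe
    calc (1 : ℝ) ≤ h * e ^ 2 := hhe
      _ ≤ h * 1 := mul_le_mul_of_nonneg_left h1 h2.le
      _ = h := mul_one h
  -- the sprinklings
  have h0p : 0 ≤ p := hcp.le.trans hp
  have hp1' : p ≤ 1 := by linarith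
  obtain ⟨s1, z1, z2, z3, z4⟩ := spr3 (p0 := p) h0p he (by linarith)
  have hs10 : 0 ≤ s1 := by linarith
  have hs20 : 0 ≤ e / 4 := by linarith
  have hs21 : e / 4 ≤ 1 := by linarith
  have hs : 1 - (1 - s1) * (1 - e / 4) * (1 - e / 4) ≤ e / cp := by
    rw [z4]
    exact div_le_div_of_nonneg_left he.le hcp hp1
  have hs0 : 0 ≤ 1 - (1 - s1) * (1 - e / 4) * (1 - e / 4) := by
    rw [z4]
    exact div_nonneg he.le (by linarith)
  have hKs : K0' / χ ≤ s1 := by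
    refine le_trans ?_ z1
    rw [div_le_iff₀ hχ0]
    linarith
  have hG := hgood n p χ s1 hp hp1 hχg hvg hn2 hU hT hlow hKs z2
  obtain ⟨kk, κ, j, hj, w1, w2, w3, hE2'⟩ := hE2 n p χ hp hp1 hχe hve hn2 hU hT hlow
  have hT2 : ∀ x, ∀ k : ℕ, 1 ≤ k → Ex (1 - (1 - p) * (1 - s1) * (1 - e / 4) * (1 - e / 4)) (fun ω =>
      if (k : ℝ) ≤ cz (gends (torG d n)) ω x then (1 : ℝ) else 0) ≤ C * (1 / Real.sqrt k + e) := by
    rw [z3]
    exact hT'
  have hf : ∀ x, Ex (1 - (1 - p) * (1 - s1) * (1 - e / 4) * (1 - e / 4)) (fun ω =>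
      if h ≤ cz (gends (torG d n)) ω x then (1 : ℝ) else 0) ≤ C * (1 / Real.sqrt h + e) :=
    fun x => D3_ceil hC0.le hh1 hT2 x
  have hf0 : 0 ≤ C * (1 / Real.sqrt h + e) := by positivity
  have ht0 : 0 < η * e * (n : ℝ) ^ d := by positivity
  have haχ1 : 1 ≤ a * χ ^ 2 := by
    rw [div_le_iff₀ hap] at hχa
    calc (1 : ℝ) = 1 * 1 := (mul_one 1).symm
      _ ≤ (χ * a) * χ := mul_le_mul hχa hχ1 zero_le_one (by positivity)
      _ = a * χ ^ 2 := by ring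
  have hnum' : ((n ^ d : ℕ) : ℝ) = (n : ℝ) ^ d := by push_cast; rfl
  obtain ⟨t, htd⟩ : ∃ t : ℝ, t = 3 * (b0 * (n : ℝ) ^ d / χ) := ⟨_, rfl⟩
  have ht3 : 3 * b0 * (n : ℝ) ^ d / χ = t := by rw [htd]; ring
  rw [ht3] at hhb
  obtain ⟨j1, hj1⟩ := hnum χ e h t (n ^ d) kk κ j hχ1 he he2 hχe1 hχe2
    (by rw [hnum']; exact hvn) hhA (by rw [hnum', ht3]) (by rw [hnum']; exact w1) w2
    (by rw [hnum']; exact w3)
  -- the main component
  rw [← htd] at hG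
  obtain ⟨y0, hy0⟩ := D3_y0 (ends := gends (torG d n)) (t := t) (A2 := a' * χ ^ 2)
  obtain ⟨T, hTd⟩ : ∃ T : ℝ, T = η * e * (n : ℝ) ^ d := ⟨_, rfl⟩
  rw [← hTd] at ht0
  have hmass := mass_o (ends := gends (torG d n)) (p := p) (s1 := s1) (s2 := e / 4) (s3 := e / 4)
    (C := C) (e := e) (h := h) (t := T) (A2 := a * χ ^ 2) (D := 2 * d) h0p hp1' hs10
    z2 hs20 hs21 hs20 hs21 hC0.le he.le hh1 ht0 haχ1 (fun x => tor_deg x) hT hT2 y0
  rw [hcVR] at hmass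
  have hsq : Real.sqrt (a * χ ^ 2) ≤ γ / e := by
    have h1 : a * χ ^ 2 ≤ (γ / e) ^ 2 := by
      calc a * χ ^ 2 ≤ (γ / K1) ^ 2 * χ ^ 2 := mul_le_mul_of_nonneg_right haγ (by positivity)
        _ = (γ * (χ / K1)) ^ 2 := by ring
        _ ≤ (γ / e) ^ 2 := by
          refine pow_le_pow_left₀ (by positivity) ?_ 2
          rw [div_eq_mul_one_div γ e]
          refine mul_le_mul_of_nonneg_left ?_ hγ0.le
          rw [div_le_div_iff₀ hK10 he]
          linarith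
    calc Real.sqrt (a * χ ^ 2) ≤ Real.sqrt ((γ / e) ^ 2) := Real.sqrt_le_sqrt h1
      _ = γ / e := Real.sqrt_sq (by positivity)
  have hm8 := D3_mass (C := C) (η := η) (e := e) (γ := γ) (cp := cp) (d := (d : ℝ))
    (v := (n : ℝ) ^ d) (h := h) (s := 1 - (1 - s1) * (1 - e / 4) * (1 - e / 4)) (A2 := a * χ ^ 2) hη he
    hC0 hcp hdR hnd hhe hs0 hs hγ hsq
  rw [← hTd] at hm8
  have huniq := uniq_fam1 (ends := gends (torG d n)) (p := p) (s1 := s1) (s2 := e / 4) (s3 := e / 4)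
    (f := C * (1 / Real.sqrt h + e)) (k2 := a2 * χ ^ 2) (A2 := a * χ ^ 2)
    (β := β * (n : ℝ) ^ d / χ) (h := h) (t := t) (kk := kk) (κ := κ) (j := j)
    (j1 := j1) h0p hp1' hs10 z2 hs20 hs21 hs20 hs21 (by positivity)
    (mul_le_mul_of_nonneg_right ha2a (by positivity)) hh1 hhb Finset.univ hf hf0 y0
  rw [hcV] at huniq
  -- the splitting
  have hβT : β * (n : ℝ) ^ d / χ ≤ T / 2 := by
    rw [div_le_iff₀ hχ0, hTd]
    have h1 : β * (n : ℝ) ^ d ≤ η * K0 / 4 * (n : ℝ) ^ d := mul_le_mul_of_nonneg_right hβ2 hnd.le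
    have h2 : K0 * (η * (n : ℝ) ^ d) ≤ χ * e * (η * (n : ℝ) ^ d) :=
      mul_le_mul_of_nonneg_right hχe1 (by positivity)
    have h3 : 0 < χ * e * (η * (n : ℝ) ^ d) := by positivity
    calc β * (n : ℝ) ^ d ≤ η * K0 / 4 * (n : ℝ) ^ d := h1
      _ = K0 * (η * (n : ℝ) ^ d) / 4 := by ring
      _ ≤ χ * e * (η * (n : ℝ) ^ d) / 4 := by linarith
      _ ≤ χ * e * (η * (n : ℝ) ^ d) / 2 := by linarith
      _ = η * e * (n : ℝ) ^ d / 2 * χ := by ring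
  have hβb : β * (n : ℝ) ^ d / χ ≤ t := by
    rw [← ht3]
    exact div_le_div_of_nonneg_right (mul_le_mul_of_nonneg_right hβ1 hnd.le) hχ0.le
  have hfin := D3_gen (ends := gends (torG d n)) (p := p) (s1 := s1) (s2 := e / 4) (s3 := e / 4)
    (T := T) (t := t) (h := h) (k2 := a2 * χ ^ 2) (A2 := a * χ ^ 2) (A2' := a' * χ ^ 2)
    (β := β * (n : ℝ) ^ d / χ) (kk := kk) (κ := κ) (j := j) h0p hp1' hs10 z2 hs20 hs21 hs20 hs21 y0 hy0
    (mul_le_mul_of_nonneg_right haa (by positivity)) hβb hβT hG (hmass.trans hm8) hE2'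
    (huniq.trans hj1)
  rw [z3, hTd] at hfin
  exact hfin.trans (by linarith)

open scoped Classical in
/-- Row D4. The law of large numbers. As `lln_ex` (Y/Ln.lean): `one_fam` with `η1 = min (η/16) (κ1²)`, `κ1 = η³/(65536 C²)`, threshold `h = B/e²`; `num_lln` with `A1 := B`, `ε := e`, `G = 256 C B/η²`, `D = 2 d`
(`hbig`: its left side is increasing in `G`, so it is at most the value at `B = Bm`, which is at most `A0 K0³ ≤ (χ e)³ A0 ≤ e³ n^d`); `lln_gen`; `h ≤ b n^d/χ`: `Bm/e² ≤ b n^d/χ` since `n^d ≥ A0 χ³` and `χ e ≥ K0`. -/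
theorem one_lln (d : ℕ) (hd : 9 ≤ d) (C c0 cp η : ℝ) (hC : 1 ≤ C) (hc0 : 0 < c0) (hcp : 0 < cp)
    (hcp1 : cp ≤ 1) (hη : 0 < η) (hη1 : η ≤ 1) :
    ∃ K0 : ℝ, 0 < K0 ∧ ∀ K1 : ℝ, K0 ≤ K1 → ∃ A1 : ℝ, 1 ≤ A1 ∧ ∀ Bm : ℝ, A1 ≤ Bm → ∃ A0 e0 : ℝ, 1 ≤ A0 ∧ 0 < e0 ∧
      ∀ (n : ℕ) [NeZero n] [Fintype (torG d n).edgeSet] (p χ e B : ℝ),
      cp ≤ p → cp ≤ 1 - p → 0 < e → e ≤ e0 → K0 ≤ χ * e → χ * e ≤ K1 → A0 * χ ^ 3 ≤ (n : ℝ) ^ d → (n : ℝ) ^ 2 ≤ C * χ → UT d n C p χ →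
      (∀ x, ∀ k : ℕ, 1 ≤ k → Ex p (fun ω => if (k : ℝ) ≤ cz (gends (torG d n)) ω x
        then (1 : ℝ) else 0) ≤ C / Real.sqrt k) →
      (∀ x, ∀ k : ℕ, 1 ≤ k → Ex (p + e) (fun ω => if (k : ℝ) ≤ cz (gends (torG d n)) ω x
        then (1 : ℝ) else 0) ≤ C * (1 / Real.sqrt k + e)) →
      (∀ x y, c0 * χ / (n : ℝ) ^ d ≤ ta (gends (torG d n)) p x y) → A1 ≤ B → B ≤ Bm →
      Ex (p + e) (fun ω => if η * e * (n : ℝ) ^ d < |mxc (gends (torG d n)) ω - (n : ℝ) ^ d * fT d n (p + e) (B / e ^ 2)|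
        then (1 : ℝ) else 0) ≤ η ∧
      Ex (p + e) (fun ω => if ∀ y, η * e * (n : ℝ) ^ d ≤
        ((Fm (gends (torG d n)) ω (B / e ^ 2) y).card : ℝ) then (1 : ℝ) else 0) ≤ η := by
  have hC0 : 0 < C := by linarith
  obtain ⟨κ1, hκ1⟩ : ∃ κ1 : ℝ, κ1 = η ^ 3 / (65536 * C ^ 2) := ⟨_, rfl⟩
  have hκ0 : 0 < κ1 := by rw [hκ1]; positivity
  obtain ⟨η1, hη1d⟩ : ∃ η1 : ℝ, η1 = min (η / 16) (κ1 ^ 2) := ⟨_, rfl⟩
  have hη10 : 0 < η1 := by rw [hη1d]; exact lt_min (by positivity) (by positivity)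
  have hη16 : η1 ≤ η / 16 := by rw [hη1d]; exact min_le_left _ _
  have hηs : Real.sqrt η1 ≤ κ1 := by
    apply Real.sqrt_le_iff.2
    exact ⟨hκ0.le, by rw [hη1d]; exact min_le_right _ _⟩
  have hη11 : η1 ≤ 1 := by linarith
  obtain ⟨K0, b, hK0, hb, hfam⟩ := one_fam d hd C c0 cp η1 hC hc0 hcp hcp1 hη10 hη11
  refine ⟨K0, hK0, fun K1 hK1 => ?_⟩
  obtain ⟨A1, A00, e00, hA1, hA00, he00, hfam2⟩ := hfam K1 hK1
  refine ⟨A1, hA1, fun Bm hBm => ?_⟩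
  have hA10 : 0 < A1 := by linarith
  have hBm0 : 0 < Bm := by linarith
  obtain ⟨Gm, hGm⟩ : ∃ Gm : ℝ, Gm = 256 * C * Bm / η ^ 2 := ⟨_, rfl⟩
  have hGm0 : 0 < Gm := by rw [hGm]; positivity
  obtain ⟨Bg, hBg⟩ : ∃ Bg : ℝ, Bg = 16 * Gm / η + 64 * (5 * C * Gm + 125 * C ^ 3 * Gm ^ 2 * (2 * d)) / η ^ 3 := ⟨_, rfl⟩
  have hBg0 : 0 < Bg := by rw [hBg]; positivity
  refine ⟨max A00 (max (Bm / (b * K0 ^ 2)) (Bg / K0 ^ 3)), min e00 (min (cp / 2) 1), hA00.trans (le_max_left _ _),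
    lt_min he00 (lt_min (by positivity) one_pos), ?_⟩
  intro n _ _ p χ e B hp hp1 he hele hKe hKe1 hAn' hn2 hU hT hT' hlow hAB hBBm
  have hnd : (0 : ℝ) < (n : ℝ) ^ d := by
    have : (0 : ℝ) < n := by exact_mod_cast Nat.pos_of_ne_zero (NeZero.ne n)
    positivity
  have hχ0 : 0 < χ := by
    by_contra hc
    have : χ * e ≤ 0 := mul_nonpos_of_nonpos_of_nonneg (not_lt.1 hc) he.le
    linarith
  have hχ3 : 0 < χ ^ 3 := by positivity
  have hA00n : A00 * χ ^ 3 ≤ (n : ℝ) ^ d := (mul_le_mul_of_nonneg_right (le_max_left _ _) hχ3.le).trans hAn'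
  have hA01n : Bm / (b * K0 ^ 2) * χ ^ 3 ≤ (n : ℝ) ^ d :=
    (mul_le_mul_of_nonneg_right ((le_max_left _ _).trans (le_max_right _ _)) hχ3.le).trans hAn'
  have hA02n : Bg / K0 ^ 3 * χ ^ 3 ≤ (n : ℝ) ^ d :=
    (mul_le_mul_of_nonneg_right ((le_max_right _ _).trans (le_max_right _ _)) hχ3.le).trans hAn'
  have he1 : e ≤ e00 := hele.trans (min_le_left _ _)
  have he4 : e ≤ cp / 2 := hele.trans ((min_le_right _ _).trans (min_le_left _ _))
  have he3 : e ≤ 1 := hele.trans ((min_le_right _ _).trans (min_le_right _ _))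
  have h0p : 0 ≤ p := hcp.le.trans hp
  have hp1' : p ≤ 1 := by linarith
  have hq0 : 0 ≤ p + e := by linarith
  have hq1 : p + e ≤ 1 := by linarith
  have hB1 : 1 ≤ B := hA1.trans hAB
  have hB0 : 0 < B := by linarith
  obtain ⟨G, hG⟩ : ∃ G : ℝ, G = 256 * C * B / η ^ 2 := ⟨_, rfl⟩
  have hG1 : 1 ≤ G := by
    rw [hG, le_div_iff₀ (by positivity)]
    have h1 : η ^ 2 ≤ 1 := pow_le_one₀ hη.le hη1
    have h2 : 1 ≤ C * B := one_le_mul_of_one_le_of_one_le hC hB1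
    linarith
  have hG0 : 0 < G := by linarith
  have hGG : G ≤ Gm := by
    rw [hG, hGm]
    exact div_le_div_of_nonneg_right (mul_le_mul_of_nonneg_left hBBm (by positivity)) (by positivity)
  have hε20 : 0 < e ^ 2 := by positivity
  have hε2 : e ^ 2 ≤ 1 := pow_le_one₀ he.le he3
  have hKe2 : K0 ^ 2 ≤ (χ * e) ^ 2 := pow_le_pow_left₀ hK0.le hKe 2
  have hKe3 : K0 ^ 3 ≤ (χ * e) ^ 3 := pow_le_pow_left₀ hK0.le hKe 3
  -- the threshold
  have hup : B / e ^ 2 ≤ b * (n : ℝ) ^ d / χ := by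
    rw [div_le_div_iff₀ hε20 hχ0]
    have h1 : Bm * χ ^ 3 ≤ (n : ℝ) ^ d * (b * K0 ^ 2) := by
      have h2 := mul_le_mul_of_nonneg_right hA01n (show 0 ≤ b * K0 ^ 2 by positivity)
      calc Bm * χ ^ 3 = Bm / (b * K0 ^ 2) * χ ^ 3 * (b * K0 ^ 2) := by field_simp
        _ ≤ _ := h2
    have h3 : (n : ℝ) ^ d * (b * K0 ^ 2) ≤ (n : ℝ) ^ d * (b * (χ * e) ^ 2) :=
      mul_le_mul_of_nonneg_left (mul_le_mul_of_nonneg_left hKe2 hb.le) hnd.le
    have h4 : χ ^ 2 * (Bm * χ) ≤ χ ^ 2 * (b * (n : ℝ) ^ d * e ^ 2) := by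
      calc χ ^ 2 * (Bm * χ) = Bm * χ ^ 3 := by ring
        _ ≤ (n : ℝ) ^ d * (b * (χ * e) ^ 2) := h1.trans h3
        _ = _ := by ring
    have h5 : Bm * χ ≤ b * (n : ℝ) ^ d * e ^ 2 := le_of_mul_le_mul_left h4 (by positivity)
    exact (mul_le_mul_of_nonneg_right hBBm hχ0.le).trans h5
  have hF := hfam2 n p χ e (B / e ^ 2) hp hp1 he he1 hKe hKe1 hA00n hn2 hU hT hT' hlow
    (div_le_div_of_nonneg_right hAB hε20.le) hup
  have hFη : Ex (p + e) (fun ω => if ∀ y, η * e * (n : ℝ) ^ d ≤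
        ((Fm (gends (torG d n)) ω (B / e ^ 2) y).card : ℝ) then (1 : ℝ) else 0) ≤ η := by
    refine (Ex_mono hq0 hq1 fun ω => ?_).trans (hF.trans (by linarith))
    by_cases hc : ∀ y, η * e * (n : ℝ) ^ d ≤ ((Fm (gends (torG d n)) ω (B / e ^ 2) y).card : ℝ)
    · rw [if_pos hc, if_pos (fun y => ?_)]
      refine le_trans ?_ (hc y)
      have : η1 ≤ η := by linarith
      exact mul_le_mul_of_nonneg_right (mul_le_mul_of_nonneg_right this he.le) hnd.le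
    · rw [if_neg hc]
      split_ifs <;> norm_num
  refine ⟨?_, hFη⟩
  -- numbers
  obtain ⟨h, hh⟩ : ∃ h : ℝ, h = B / e ^ 2 := ⟨_, rfl⟩
  obtain ⟨g, hg⟩ : ∃ g : ℝ, g = e ^ 2 / G := ⟨_, rfl⟩
  rw [← hh] at hF ⊢
  have hg0 : 0 < g := by rw [hg]; positivity
  have hg1 : g ≤ 1 := by
    rw [hg, div_le_one hG0]; linarith
  have hh1 : 1 ≤ h := by
    rw [hh, le_div_iff₀ hε20]; linarith
  have hgh : g * h ≤ 1 := by
    have ee : g * h = B / G := by rw [hg, hh]; field_simp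
    rw [ee, div_le_one hG0, hG, le_div_iff₀ (by positivity)]
    have h1 : η ^ 2 ≤ 1 := pow_le_one₀ hη.le hη1
    have h3 := mul_le_mul_of_nonneg_left h1 hB0.le
    have h4 := mul_le_mul_of_nonneg_right hC hB0.le
    linarith
  have hg' : 1 / g = G / e ^ 2 := by rw [hg, one_div_div]
  have hGε : 1 ≤ G / e ^ 2 := by
    rw [le_div_iff₀ hε20]; linarith
  have hmin : ∀ (a : ℝ), 1 ≤ a → ∀ y, Ex (p + e) (fun ω => min (cz (gends (torG d n)) ω y) (a / e ^ 2)) ≤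
      3 * C * (Real.sqrt a / e) + 2 * C * (a / e) := by
    intro a ha y
    have h1 : 1 ≤ a / e ^ 2 := by
      rw [le_div_iff₀ hε20]; linarith
    have h2 := min_tail2 (ends := gends (torG d n)) hq0 hq1 hC0.le he.le y (hT' y) h1
    have e1 : Real.sqrt (a / e ^ 2) = Real.sqrt a / e := by
      rw [Real.sqrt_div' a hε20.le, Real.sqrt_sq he.le]
    have e2 : 2 * C * e * (a / e ^ 2) = 2 * C * (a / e) := by field_simp
    rw [e1, e2] at h2
    exact h2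
  have hmin2 : ∀ (a : ℝ), 1 ≤ a → ∀ y, Ex (p + e) (fun ω => min (cz (gends (torG d n)) ω y) (a / e ^ 2)) ≤
      5 * C * a / e := by
    intro a ha y
    refine (hmin a ha y).trans ?_
    have h1 : Real.sqrt a ≤ a := by
      apply Real.sqrt_le_iff.2
      exact ⟨by linarith, le_self_pow₀ ha two_ne_zero⟩
    have h2 : 3 * C * (Real.sqrt a / e) ≤ 3 * C * (a / e) :=
      mul_le_mul_of_nonneg_left (div_le_div_of_nonneg_right h1 he.le) (by positivity)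
    calc 3 * C * (Real.sqrt a / e) + 2 * C * (a / e) ≤ 3 * C * (a / e) + 2 * C * (a / e) := by linarith
      _ = 5 * C * a / e := by ring
  have hm : ∀ y, Ex (p + e) (fun ω => min (cz (gends (torG d n)) ω y) (1 / g)) ≤ 5 * C * G / e := by
    intro y
    rw [hg']
    exact hmin2 G hG1 y
  have hmh : ∀ y, Ex (p + e) (fun ω => min (cz (gends (torG d n)) ω y) h) ≤ 5 * C * B / e :=
    fun y => by rw [hh]; exact hmin2 B hB1 y
  have hM : ∀ y, Ex (p + e) (mg (gends (torG d n)) g y) ≤ 5 * C * e := by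
    intro y
    have h1 := mg_min (ends := gends (torG d n)) hq0 hq1 hGε y
    have e1 : 1 / (G / e ^ 2) = g := by rw [one_div_div, hg]
    rw [e1] at h1
    refine h1.trans ((mul_le_mul_of_nonneg_left (hmin2 G hG1 y) hg0.le).trans (le_of_eq ?_))
    rw [hg]; field_simp
  have hcard : Fintype.card (Fin d → ZMod n) = n ^ d := by
    rw [Fintype.card_fun, ZMod.card, Fintype.card_fin]
  have hcardR : ((Fintype.card (Fin d → ZMod n) : ℕ) : ℝ) = (n : ℝ) ^ d := by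
    rw [hcard]; push_cast; ring
  have hbigm : Bg ≤ e ^ 3 * (n : ℝ) ^ d := by
    have h1 : Bg * χ ^ 3 ≤ (n : ℝ) ^ d * K0 ^ 3 := by
      have h2 := mul_le_mul_of_nonneg_right hA02n (show 0 ≤ K0 ^ 3 by positivity)
      calc Bg * χ ^ 3 = Bg / K0 ^ 3 * χ ^ 3 * K0 ^ 3 := by field_simp
        _ ≤ _ := h2
    have h3 : (n : ℝ) ^ d * K0 ^ 3 ≤ (n : ℝ) ^ d * (χ * e) ^ 3 := mul_le_mul_of_nonneg_left hKe3 hnd.le
    have h4 : χ ^ 3 * Bg ≤ χ ^ 3 * (e ^ 3 * (n : ℝ) ^ d) := by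
      calc χ ^ 3 * Bg = Bg * χ ^ 3 := by ring
        _ ≤ (n : ℝ) ^ d * (χ * e) ^ 3 := h1.trans h3
        _ = _ := by ring
    exact le_of_mul_le_mul_left h4 hχ3
  have hbig : 16 * G / η + 64 * (5 * C * G + 125 * C ^ 3 * G ^ 2 * (2 * d)) / η ^ 3 ≤ e ^ 3 * (n : ℝ) ^ d := by
    refine le_trans ?_ hbigm
    rw [hBg]
    have hGG2 : G ^ 2 ≤ Gm ^ 2 := pow_le_pow_left₀ hG0.le hGG 2
    have t1 : 16 * G / η ≤ 16 * Gm / η := div_le_div_of_nonneg_right (by linarith) hη.le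
    have t2 : 5 * C * G ≤ 5 * C * Gm := mul_le_mul_of_nonneg_left hGG (by positivity)
    have t3 : 125 * C ^ 3 * G ^ 2 * (2 * d) ≤ 125 * C ^ 3 * Gm ^ 2 * (2 * d) :=
      mul_le_mul_of_nonneg_right (mul_le_mul_of_nonneg_left hGG2 (by positivity)) (by positivity)
    have t4 : 64 * (5 * C * G + 125 * C ^ 3 * G ^ 2 * (2 * d)) / η ^ 3 ≤
        64 * (5 * C * Gm + 125 * C ^ 3 * Gm ^ 2 * (2 * d)) / η ^ 3 :=
      div_le_div_of_nonneg_right (by linarith) (by positivity)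
    linarith
  obtain ⟨N1, N2⟩ := num_lln (C := C) (η := η) (A1 := B) (G := G) (ε := e) (N := (n : ℝ) ^ d)
    (D := 2 * d) hC hη hη1 hB1 hG he he3 hnd (by positivity) hbig hη10 hη16 (by rw [← hκ1]; exact hηs) (q := p + e) hq0 hq1
  rw [← hg] at N1 N2
  rw [← hh] at N1
  have hbad : Ex (p + e) (fun ω => if η1 * e * (n : ℝ) ^ d ≤
      Wn (gends (torG d n)) ω h - mxc (gends (torG d n)) ω then (1 : ℝ) else 0) ≤ η1 := by
    refine le_trans (Ex_mono hq0 hq1 fun ω => ?_) hF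
    by_cases hc : η1 * e * (n : ℝ) ^ d ≤ Wn (gends (torG d n)) ω h - mxc (gends (torG d n)) ω
    · rw [if_pos hc, if_pos (fun y => hc.trans (Wn_le ω h y))]
    · rw [if_neg hc]
      split_ifs <;> norm_num
  have hL := lln_gen (V := Fin d → ZMod n) (E := (torG d n).edgeSet) (ends := gends (torG d n))
    (q := p + e) (g := g) (h := h) (M := 5 * C * e) (m := 5 * C * G / e) (mh := 5 * C * B / e)
    (Wd := 2 * d) (u := η1 * e * (n : ℝ) ^ d) (v := η * e * (n : ℝ) ^ d) (η1 := η1) hq0 hq1 hg0 hg1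
    hh1 hgh hM hm hmh (fun x => tor_deg x) (by positivity) (by positivity) hη10.le hbad
    (by rw [hcardR]; exact N1)
  rw [hcardR] at hL
  have hEW : Ex (p + e) (fun ω => Wn (gends (torG d n)) ω h) = (n : ℝ) ^ d * fT d n (p + e) h := by
    unfold Wn
    rw [Ex_sum]
    have e1 : ∀ x ∈ (Finset.univ : Finset (Fin d → ZMod n)),
        Ex (p + e) (fun ω => if h ≤ cz (gends (torG d n)) ω x then (1 : ℝ) else 0) =
          fT d n (p + e) h := by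
      intro x _
      exact tor_trans (p + e) (fun c => if h ≤ c then (1 : ℝ) else 0) x
    rw [Finset.sum_congr rfl e1, Finset.sum_const, nsmul_eq_mul, Finset.card_univ, hcardR]
  rw [hEW] at hL
  exact hL.trans N2

/-- The upper bound below `p`, on all tori. -/
def UTs (d : ℕ) (C s0 p : ℝ) : Prop :=
  ∀ (n : ℕ) [NeZero n] [Fintype (torG d n).edgeSet] (s : ℝ), 0 < s → s ≤ s0 → UT d n C (p - s) (1 / s)

/-- The lower bound (torus plateau) below `p`, on all tori. -/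
def LTs (d : ℕ) (c0 AL p : ℝ) : Prop :=
  ∀ (n : ℕ) [NeZero n] [Fintype (torG d n).edgeSet] (s : ℝ), 0 < s → AL ≤ s ^ 3 * (n : ℝ) ^ d → s * (n : ℝ) ^ 2 ≤ c0 →
    ∀ x y, c0 * (1 / s) / (n : ℝ) ^ d ≤ ta (gends (torG d n)) (p - s) x y

open scoped Classical in
/-- The tail at and above `p`, on all tori. -/
def TTs (d : ℕ) (C s0 p : ℝ) : Prop :=
  ∀ (n : ℕ) [NeZero n] [Fintype (torG d n).edgeSet], ∀ x, ∀ r, p ≤ r → r ≤ p + s0 → ∀ k : ℕ, 1 ≤ k →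
    Ex r (fun ω => if (k : ℝ) ≤ cz (gends (torG d n)) ω x then (1 : ℝ) else 0) ≤ C * (1 / Real.sqrt k + (r - p))

open scoped Classical in
lemma D5_mono {V : Type*} [Fintype V] [DecidableEq V] {E : Type*} [Fintype E] [DecidableEq E]
    {ends : E → Sym2 V} {p q : ℝ} (h0 : 0 ≤ p) (hpq : p ≤ q) (hq : q ≤ 1) (x : V) (k : ℝ) :
    Ex p (fun ω => if k ≤ cz ends ω x then (1 : ℝ) else 0) ≤
      Ex q (fun ω => if k ≤ cz ends ω x then (1 : ℝ) else 0) := by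
  rcases eq_or_lt_of_le (hpq.trans hq) with hp | hp
  · have : q = p := le_antisymm (hq.trans hp.ge) hpq
    rw [this]
  · set s : ℝ := (q - p) / (1 - p) with hs
    have hs0 : 0 ≤ s := div_nonneg (by linarith) (by linarith)
    have hs1 : s ≤ 1 := by rw [hs, div_le_one (by linarith)]; linarith
    have hq2 : q = 1 - (1 - p) * (1 - s) := by
      rw [hs]
      field_simp [(by linarith : (1 : ℝ) - p ≠ 0)]
      ring
    rw [hq2, Ex_orc]
    apply Ex_mono h0 (by linarith)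
    intro ω
    have h3 : Ex s (fun _ : E → Bool => if k ≤ cz ends ω x then (1 : ℝ) else 0) =
        if k ≤ cz ends ω x then (1 : ℝ) else 0 := Ex_const _ _
    rw [← h3]
    apply Ex_mono hs0 hs1
    intro η
    by_cases h : k ≤ cz ends ω x
    · rw [if_pos h, if_pos (h.trans (cz_mono (orc_left ω η)))]
    · rw [if_neg h]
      split_ifs <;> norm_num

open scoped Classical in
/-- Two different large clusters: for every `y'` one of them is in `Fm`. -/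
lemma D5_two {V : Type*} [Fintype V] [DecidableEq V] {E : Type*} [Fintype E] [DecidableEq E]
    {ends : E → Sym2 V} {ω : E → Bool} {x y : V} {t h : ℝ} (hxy : y ∉ cu ends ω x)
    (hx : t ≤ cz ends ω x) (hy : t ≤ cz ends ω y) (hh : h ≤ t) (y' : V) :
    t ≤ ((Fm ends ω h y').card : ℝ) := by
  have key : ∀ z : V, z ∉ cu ends ω y' → t ≤ cz ends ω z → t ≤ ((Fm ends ω h y').card : ℝ) := by
    intro z hz htz
    have hsub : cu ends ω z ⊆ Fm ends ω h y' := by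
      intro w hw
      rw [Fm, Finset.mem_filter]
      have h1 : cu ends ω w = cu ends ω z := cu_eq hw
      refine ⟨Finset.mem_univ _, ?_, fun hwy => hz ?_⟩
      · have : cz ends ω w = cz ends ω z := by unfold cz; rw [h1]
        rw [this]
        exact hh.trans htz
      · rw [← cu_eq hwy, h1]
        exact self_mem_cu ω z
    calc t ≤ cz ends ω z := htz
      _ = ((cu ends ω z).card : ℝ) := rfl
      _ ≤ _ := by exact_mod_cast Finset.card_le_card hsub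
  by_cases hxy' : x ∈ cu ends ω y'
  · refine key y (fun hyy => hxy ?_) hy
    rw [cu_eq hxy']
    exact hyy
  · exact key x hxy' hx

open scoped Classical in
/-- Row D5. The range `A' V^(-1/3) ≤ ε`, `ε n² ≤ A` for every `A`. Let `c0 ≤ 1`. `one_lln` with `η/4`, `cp/2`: `K0`; `K = max K0 (A/c0) + 1`, `K1 = K + 1`, `s = ε/K`, `χ = K/ε = 1/s`, `e = ε + s`, so `χ e = K + 1`, `p := pc - s`, `p + e = pc + ε`.
`s n² ≤ A/K ≤ c0` (so `n² ≤ c0 χ ≤ C χ`); `s³ n^d = ε³ n^d/K³ ≥ AL`, `≥ A0`; the tail at `pc - s` from the tail at `pc` (`Ex_mono` in `p` for increasing functions: `Ex_orc` or `ta_mono_p`-like lemma, `Ex_fm_mono` in V/To.lean); threshold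
`B/ε² = B'/e²` with `B' = B (1 + 1/K)² ∈ [A1, 4 B]`, `Bm = 4 B`; `e ≤ 2 ε`, so `(η/4) e ≤ η ε`. Uniqueness: if `x`, `y` are in different clusters of size at least `η ε n^d ≥ B/ε²` (`ε³ n^d ≥ B/η`), then for every `y'` one of the two clusters is not the
cluster of `y'`, and all its points are in `Fm ω (B/ε²) y'`. -/
theorem one_pc (d : ℕ) (hd : 9 ≤ d) (C c0 AL cp s0 A η : ℝ) (hC : 1 ≤ C) (hc0 : 0 < c0) (hc01 : c0 ≤ 1) (hAL : 0 < AL) (hcp : 0 < cp)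
    (hcp1 : cp ≤ 1) (hs0 : 0 < s0) (hA : 0 < A) (hη : 0 < η) (hη1 : η ≤ 1) :
    ∃ A1 : ℝ, 1 ≤ A1 ∧ ∀ B : ℝ, A1 ≤ B → ∃ A' ε0 : ℝ, 0 < A' ∧ 0 < ε0 ∧ ∀ (n : ℕ) [NeZero n] [Fintype (torG d n).edgeSet] (pc ε : ℝ),
      cp ≤ pc → cp ≤ 1 - pc → 0 < ε → ε ≤ ε0 → A' ≤ ε ^ 3 * (n : ℝ) ^ d → ε * (n : ℝ) ^ 2 ≤ A →
      UTs d C s0 pc → LTs d c0 AL pc → TTs d C s0 pc →
      Ex (pc + ε) (fun ω => if η * ε * (n : ℝ) ^ d < |mxc (gends (torG d n)) ω - (n : ℝ) ^ d * fT d n (pc + ε) (B / ε ^ 2)|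
        then (1 : ℝ) else 0) ≤ η ∧
      Ex (pc + ε) (fun ω => if ∃ x y, y ∉ cu (gends (torG d n)) ω x ∧ η * ε * (n : ℝ) ^ d ≤ cz (gends (torG d n)) ω x ∧
        η * ε * (n : ℝ) ^ d ≤ cz (gends (torG d n)) ω y then (1 : ℝ) else 0) ≤ η := by
  obtain ⟨K0, hK0, hlln⟩ := one_lln d hd C c0 (cp / 2) (η / 4) hC hc0 (by positivity) (by linarith)
    (by positivity) (by linarith)
  set K : ℝ := max K0 (A / c0) + 1 with hKdef
  have hK1 : K0 + 1 ≤ K := by rw [hKdef]; linarith [le_max_left K0 (A / c0)]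
  have hK2 : A / c0 + 1 ≤ K := by rw [hKdef]; linarith [le_max_right K0 (A / c0)]
  have hK : 1 ≤ K := by linarith
  have hKp : 0 < K := by linarith
  obtain ⟨A1, hA1, hB1⟩ := hlln (K + 1) (by linarith)
  refine ⟨A1, hA1, fun B hAB => ?_⟩
  obtain ⟨A0, e0, hA0, he0, hmain⟩ := hB1 (4 * B) (by linarith)
  have hA1p : 0 < B := by linarith
  have hA0p : 0 < A0 := by linarith
  refine ⟨A0 * K ^ 3 + AL * K ^ 3 + B / η, min (min (e0 / 2) s0) (cp / 2), by positivity,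
    lt_min (lt_min (by positivity) hs0) (by positivity), ?_⟩
  intro n _ _ pc ε hcpc hcpc1 hε hεε hA' hεA hUTs hLTs hTTs
  have hε1 : ε ≤ e0 / 2 := hεε.trans ((min_le_left _ _).trans (min_le_left _ _))
  have hε2 : ε ≤ s0 := hεε.trans ((min_le_left _ _).trans (min_le_right _ _))
  have hε3 : ε ≤ cp / 2 := hεε.trans (min_le_right _ _)
  have hn : 0 < n := Nat.pos_of_ne_zero (NeZero.ne n)
  have hnR : (0 : ℝ) < n := by exact_mod_cast hn
  have hnd : (0 : ℝ) < (n : ℝ) ^ d := by positivity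
  set s : ℝ := ε / K with hsdef
  have hs : 0 < s := by positivity
  have hsε : s ≤ ε := by
    rw [hsdef, div_le_iff₀ hKp]
    exact le_mul_of_one_le_right hε.le hK
  have hsK : s * K = ε := by rw [hsdef]; field_simp
  set e : ℝ := ε + s with hedef
  have he : 0 < e := by positivity
  have he2 : e ≤ 2 * ε := by linarith
  have hpe : pc - s + e = pc + ε := by rw [hedef]; ring
  have hχe : 1 / s * e = K + 1 := by
    rw [hedef, ← hsK]
    field_simp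
  have h3 : ε ^ 3 = s ^ 3 * K ^ 3 := by rw [← hsK]; ring
  have hA'0 : A0 * K ^ 3 ≤ ε ^ 3 * (n : ℝ) ^ d := by
    have h1 : 0 < AL * K ^ 3 := by positivity
    have h2 : 0 < B / η := by positivity
    linarith
  have hA'1 : AL * K ^ 3 ≤ ε ^ 3 * (n : ℝ) ^ d := by
    have h1 : 0 < A0 * K ^ 3 := by positivity
    have h2 : 0 < B / η := by positivity
    linarith
  have hA'2 : B / η ≤ ε ^ 3 * (n : ℝ) ^ d := by
    have h1 : 0 < AL * K ^ 3 := by positivity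
    have h2 : 0 < A0 * K ^ 3 := by positivity
    linarith
  have hK3 : 0 < K ^ 3 := by positivity
  have hs3 : A0 ≤ s ^ 3 * (n : ℝ) ^ d := by
    rw [h3] at hA'0
    have : A0 * K ^ 3 ≤ (s ^ 3 * (n : ℝ) ^ d) * K ^ 3 := by linarith
    exact le_of_mul_le_mul_right this hK3
  have hs4 : AL ≤ s ^ 3 * (n : ℝ) ^ d := by
    rw [h3] at hA'1
    have : AL * K ^ 3 ≤ (s ^ 3 * (n : ℝ) ^ d) * K ^ 3 := by linarith
    exact le_of_mul_le_mul_right this hK3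
  have hsn : s * (n : ℝ) ^ 2 ≤ c0 := by
    have h5 : A ≤ c0 * K := by
      have : A / c0 ≤ K := by linarith
      rw [div_le_iff₀ hc0] at this
      linarith
    have h6 : (s * (n : ℝ) ^ 2) * K ≤ c0 * K := by
      calc (s * (n : ℝ) ^ 2) * K = ε * (n : ℝ) ^ 2 := by rw [← hsK]; ring
        _ ≤ A := hεA
        _ ≤ _ := h5
    exact le_of_mul_le_mul_right h6 hKp
  have hB : B * (1 + 1 / K) ^ 2 / e ^ 2 = B / ε ^ 2 := by
    have h7 : e = ε * (1 + 1 / K) := by rw [hedef, hsdef]; ring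
    rw [h7]
    have h8 : (1 + 1 / K) ≠ 0 := by positivity
    field_simp
  have h1K : 1 / K ≤ 1 := by rw [div_le_one hKp]; exact hK
  have h1K0 : 0 < 1 / K := by positivity
  have hu1 : 1 ≤ (1 + 1 / K) ^ 2 := one_le_pow₀ (by linarith)
  have hu4 : (1 + 1 / K) ^ 2 ≤ 4 := by
    calc (1 + 1 / K) ^ 2 ≤ 2 ^ 2 := pow_le_pow_left₀ (by linarith) (by linarith) 2
      _ = 4 := by norm_num
  have hres := hmain n (pc - s) (1 / s) e (B * (1 + 1 / K) ^ 2) (by linarith) (by linarith) he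
    (by linarith) (by rw [hχe]; linarith) (by rw [hχe]) ?_ ?_ (hUTs n s hs (hsε.trans hε2)) ?_ ?_ ?_
    (hAB.trans (le_mul_of_one_le_right hA1p.le hu1))
    (by rw [mul_comm 4 B]; exact mul_le_mul_of_nonneg_left hu4 hA1p.le)
  · rw [hpe, hB] at hres
    obtain ⟨hr1, hr2⟩ := hres
    have hp0 : 0 ≤ pc + ε := by linarith
    have hp1 : pc + ε ≤ 1 := by linarith
    have hηe : η / 4 * e * (n : ℝ) ^ d ≤ η * ε * (n : ℝ) ^ d := by
      apply mul_le_mul_of_nonneg_right _ hnd.le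
      calc η / 4 * e ≤ η / 4 * (2 * ε) := mul_le_mul_of_nonneg_left he2 (by positivity)
        _ = η * ε / 2 := by ring
        _ ≤ η * ε := by linarith [mul_pos hη hε]
    constructor
    · refine le_trans (Ex_mono hp0 hp1 fun ω => ?_) (hr1.trans (by linarith))
      by_cases h : η * ε * (n : ℝ) ^ d < |mxc (gends (torG d n)) ω - (n : ℝ) ^ d * fT d n (pc + ε) (B / ε ^ 2)|
      · rw [if_pos h, if_pos (lt_of_le_of_lt hηe h)]
      · rw [if_neg h]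
        split_ifs <;> norm_num
    · refine le_trans (Ex_mono hp0 hp1 fun ω => ?_) (hr2.trans (by linarith))
      by_cases h : ∃ x y, y ∉ cu (gends (torG d n)) ω x ∧ η * ε * (n : ℝ) ^ d ≤ cz (gends (torG d n)) ω x ∧
          η * ε * (n : ℝ) ^ d ≤ cz (gends (torG d n)) ω y
      · rw [if_pos h]
        obtain ⟨x, y, hxy, hx, hy⟩ := h
        have hthr : B / ε ^ 2 ≤ η * ε * (n : ℝ) ^ d := by
          rw [div_le_iff₀ (by positivity)]
          rw [div_le_iff₀ hη] at hA'2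
          calc B ≤ ε ^ 3 * (n : ℝ) ^ d * η := hA'2
            _ = η * ε * (n : ℝ) ^ d * ε ^ 2 := by ring
        rw [if_pos fun y' => hηe.trans (D5_two hxy hx hy hthr y')]
      · rw [if_neg h]
        split_ifs <;> norm_num
  · rw [one_div, inv_pow, ← div_eq_mul_inv, div_le_iff₀ (by positivity)]
    linarith
  · rw [mul_one_div, le_div_iff₀ hs]
    linarith
  · intro x k hk
    refine (D5_mono (by linarith) (by linarith : pc - s ≤ pc) (by linarith) x k).trans ?_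
    refine (hTTs n x pc le_rfl (by linarith) k hk).trans ?_
    rw [sub_self, add_zero, mul_one_div]
  · intro x k hk
    rw [hpe]
    refine (hTTs n x (pc + ε) (by linarith) (by linarith) k hk).trans ?_
    apply mul_le_mul_of_nonneg_left _ (by linarith)
    linarith
  · intro x y
    exact hLTs n s hs hs4 hsn x y

end Pool.Agent.PERC29.OB
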